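import Pool.Agent.Lib_MP_112ba8.Poly

/-!
Asymptotic form of the mean value lemma, approximation of zeta, the pointwise inequality.
-/

namespace Pool.Agent.ZetaMoment

open Finset Filter Topology MeasureTheory Complex

lemma sum_abs_le {f : ℕ → ℝ} {k M : ℕ} (hf : ∀ n ∈ Icc 1 M, |f n| ≤ (n : ℝ) ^ k) :
    ∑ n ∈ Icc 1 M, |f n| ≤ (M : ℝ) ^ (k + 1) := by
  calc ∑ n ∈ Icc 1 M, |f n| ≤ ∑ n ∈ Icc 1 M, (M : ℝ) ^ k := by
        refine Finset.sum_le_sum fun n hn => (hf n hn).trans ?_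
        have : (n : ℝ) ≤ M := by exact_mod_cast (Finset.mem_Icc.mp hn).2
        gcongr
    _ = (M : ℝ) ^ (k + 1) := by
        rw [Finset.sum_const, Nat.card_Icc, nsmul_eq_mul, pow_succ]
        simp [mul_comm]

lemma mv_asymp (k : ℕ) {ε : ℝ} (hε : 0 < ε) (hε1 : ε < 1) : ∀ᶠ T : ℝ in atTop,
    ∀ (f g : ℕ → ℝ) (M₁ M₂ : ℕ), (∀ n ∈ Icc 1 M₁, |f n| ≤ (n : ℝ) ^ k) →
    (∀ n ∈ Icc 1 M₂, |g n| ≤ (n : ℝ) ^ k) → (M₁ : ℝ) ≤ T ^ (3 : ℝ) → (M₂ : ℝ) ≤ T ^ (1 - ε) →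
    ‖(1 / T : ℂ) * (∫ t : ℝ, (wt (t / T) : ℂ) * (DP f M₁ t * (starRingEnd ℂ) (DP g M₂ t))) -
      (Wm * ∑ n ∈ Icc 1 (min M₁ M₂), f n * g n / n : ℝ)‖ ≤ 1 := by
  obtain ⟨A, hA⟩ := exists_nat_ge ((4 * ((k : ℝ) + 1) + 1) / ε)
  obtain ⟨C, hC, h⟩ := mean_value A
  filter_upwards [eventually_ge_atTop (1 : ℝ), eventually_ge_atTop (C * 2 ^ A)] with T hT1 hTC
  intro f g M₁ M₂ hf hg hM1 hM2
  have hT0 : 0 < T := by linarith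
  refine (h T hT0 f g M₁ M₂).trans ?_
  have hs1 : ∑ n ∈ Icc 1 M₁, |f n| ≤ T ^ (3 * ((k : ℝ) + 1)) := by
    refine (sum_abs_le hf).trans ?_
    rw [Real.rpow_mul hT0.le]
    have : ((k : ℝ) + 1) = ((k + 1 : ℕ) : ℝ) := by push_cast; ring
    rw [this, Real.rpow_natCast]
    gcongr
  have hs2 : ∑ n ∈ Icc 1 M₂, |g n| ≤ T ^ ((k : ℝ) + 1) := by
    refine (sum_abs_le hg).trans ?_
    have : ((k : ℝ) + 1) = ((k + 1 : ℕ) : ℝ) := by push_cast; ring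
    rw [this, Real.rpow_natCast]
    have h2 : (M₂ : ℝ) ≤ T := by
      refine hM2.trans ?_
      calc T ^ (1 - ε) ≤ T ^ (1 : ℝ) := Real.rpow_le_rpow_of_exponent_le hT1 (by linarith)
        _ = T := Real.rpow_one T
    gcongr
  have hs3 : ((M₂ : ℝ) + 1) / T ≤ 2 * T ^ (-ε) := by
    rw [div_le_iff₀ hT0]
    have h1 : T ^ (-ε) * T = T ^ (1 - ε) := by
      nth_rw 2 [← Real.rpow_one T]
      rw [← Real.rpow_add hT0]; congr 1; ring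
    have h2 : 1 ≤ T ^ (1 - ε) := Real.one_le_rpow hT1 (by linarith)
    rw [mul_assoc, h1]; linarith
  have hs4 : (((M₂ : ℝ) + 1) / T) ^ A ≤ 2 ^ A * T ^ (-(4 * ((k : ℝ) + 1) + 1)) := by
    calc (((M₂ : ℝ) + 1) / T) ^ A ≤ (2 * T ^ (-ε)) ^ A := by gcongr
      _ = 2 ^ A * T ^ (-ε * A) := by
          rw [mul_pow, Real.rpow_mul hT0.le, Real.rpow_natCast]
      _ ≤ 2 ^ A * T ^ (-(4 * ((k : ℝ) + 1) + 1)) := by
          gcongr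
          rw [div_le_iff₀ hε] at hA
          linarith
  calc C * (((M₂ : ℝ) + 1) / T) ^ A * ((∑ n ∈ Icc 1 M₁, |f n|) * ∑ n ∈ Icc 1 M₂, |g n|)
      ≤ C * (2 ^ A * T ^ (-(4 * ((k : ℝ) + 1) + 1))) *
        (T ^ (3 * ((k : ℝ) + 1)) * T ^ ((k : ℝ) + 1)) := by
        gcongr
    _ = C * 2 ^ A * (T ^ (-(4 * ((k : ℝ) + 1) + 1)) * T ^ (3 * ((k : ℝ) + 1)) * T ^ ((k : ℝ) + 1)) := by
        ring
    _ = C * 2 ^ A * T ^ (-1 : ℝ) := by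
        rw [← Real.rpow_add hT0, ← Real.rpow_add hT0]
        congr 2; ring
    _ ≤ T * T ^ (-1 : ℝ) := by gcongr
    _ = 1 := by rw [Real.rpow_neg_one, mul_inv_cancel₀ hT0.ne']

lemma zeta_cont : Continuous fun t : ℝ => riemannZeta (1 / 2 + t * I) := by
  rw [continuous_iff_continuousAt]
  intro t
  have h1 : (1 / 2 + t * I : ℂ) ≠ 1 := by
    intro h
    have := congrArg Complex.re h
    simp at this
  refine ContinuousAt.comp (f := fun t : ℝ => (1 / 2 + t * I : ℂ)) (g := riemannZeta)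
    (differentiableAt_riemannZeta h1).continuousAt ?_
  exact Continuous.continuousAt (by fun_prop)

lemma zeta_approx_asymp {T : ℝ} (hT : 1 ≤ T) {t : ℝ} (ht : t ∈ Set.Icc (T / 4) T) :
    ‖riemannZeta (1 / 2 + t * I) - DP (fun _ => 1) ⌈T ^ (3 / 2 : ℝ)⌉₊ t‖ ≤ 21 * T ^ (-(1 / 4) : ℝ) := by
  have hT0 : 0 < T := by linarith
  have ht0 : 0 < t := lt_of_lt_of_le (by positivity) ht.1
  have h1 : (1 : ℝ) ≤ T ^ (3 / 2 : ℝ) := Real.one_le_rpow hT (by norm_num)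
  set M := ⌈T ^ (3 / 2 : ℝ)⌉₊ with hM
  have hM1 : T ^ (3 / 2 : ℝ) ≤ M := Nat.le_ceil _
  have hM2 : (M : ℝ) ≤ 2 * T ^ (3 / 2 : ℝ) := by
    have := (Nat.ceil_lt_add_one (by positivity : 0 ≤ T ^ (3 / 2 : ℝ))).le
    linarith
  have hMpos : 0 < M := by
    have : (0 : ℝ) < M := by linarith
    exact_mod_cast this
  have hMr : (0 : ℝ) < M := by exact_mod_cast hMpos
  refine (zeta_approx hMpos ht0).trans ?_
  have e0 : (0 : ℝ) < T ^ (3 / 2 : ℝ) := by positivity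
  have b1 : (M : ℝ) ^ (-(1 / 2) : ℝ) ≤ T ^ (-(1 / 4) : ℝ) := by
    calc (M : ℝ) ^ (-(1 / 2) : ℝ) ≤ (T ^ (3 / 2 : ℝ)) ^ (-(1 / 2) : ℝ) :=
          Real.rpow_le_rpow_of_nonpos e0 hM1 (by norm_num)
      _ = T ^ (-(3 / 4) : ℝ) := by rw [← Real.rpow_mul hT0.le]; norm_num
      _ ≤ T ^ (-(1 / 4) : ℝ) := Real.rpow_le_rpow_of_exponent_le hT (by norm_num)
  have b2 : (M : ℝ) ^ (1 / 2 : ℝ) ≤ 2 * T ^ (3 / 4 : ℝ) := by
    calc (M : ℝ) ^ (1 / 2 : ℝ) ≤ (2 * T ^ (3 / 2 : ℝ)) ^ (1 / 2 : ℝ) := by gcongr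
      _ = (2 : ℝ) ^ (1 / 2 : ℝ) * T ^ (3 / 4 : ℝ) := by
          rw [Real.mul_rpow (by norm_num) e0.le, ← Real.rpow_mul hT0.le]; norm_num
      _ ≤ 2 * T ^ (3 / 4 : ℝ) := by
          gcongr
          calc (2 : ℝ) ^ (1 / 2 : ℝ) ≤ (2 : ℝ) ^ (1 : ℝ) :=
                Real.rpow_le_rpow_of_exponent_le (by norm_num) (by norm_num)
            _ = 2 := Real.rpow_one 2
  have b3 : (M : ℝ) ^ (1 / 2 : ℝ) / t ≤ 8 * T ^ (-(1 / 4) : ℝ) := by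
    have h4 : T ^ (3 / 4 : ℝ) = T ^ (-(1 / 4) : ℝ) * T := by
      nth_rw 3 [← Real.rpow_one T]
      rw [← Real.rpow_add hT0]; norm_num
    rw [div_le_iff₀ ht0]
    calc (M : ℝ) ^ (1 / 2 : ℝ) ≤ 2 * T ^ (3 / 4 : ℝ) := b2
      _ = 8 * T ^ (-(1 / 4) : ℝ) * (T / 4) := by rw [h4]; ring
      _ ≤ 8 * T ^ (-(1 / 4) : ℝ) * t := by gcongr; exact ht.1
  have b4 : (t + 1) * (t + 2) * (2 * (M : ℝ) ^ (-(3 / 2) : ℝ)) ≤ 12 * T ^ (-(1 / 4) : ℝ) := by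
    have h5 : (M : ℝ) ^ (-(3 / 2) : ℝ) ≤ T ^ (-(9 / 4) : ℝ) := by
      calc (M : ℝ) ^ (-(3 / 2) : ℝ) ≤ (T ^ (3 / 2 : ℝ)) ^ (-(3 / 2) : ℝ) :=
            Real.rpow_le_rpow_of_nonpos e0 hM1 (by norm_num)
        _ = T ^ (-(9 / 4) : ℝ) := by rw [← Real.rpow_mul hT0.le]; norm_num
    have h6 : t + 1 ≤ 2 * T := by linarith [ht.2]
    have h7 : t + 2 ≤ 3 * T := by linarith [ht.2]
    have h8 : T ^ (-(1 / 4) : ℝ) = T * T * T ^ (-(9 / 4) : ℝ) := by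
      have : T * T = T ^ (2 : ℝ) := by norm_cast; ring
      rw [this, ← Real.rpow_add hT0]; norm_num
    calc (t + 1) * (t + 2) * (2 * (M : ℝ) ^ (-(3 / 2) : ℝ))
        ≤ (2 * T) * (3 * T) * (2 * T ^ (-(9 / 4) : ℝ)) := by gcongr
      _ = 12 * T ^ (-(1 / 4) : ℝ) := by rw [h8]; ring
  linarith

lemma bernoulli_ineq {x y : ℝ} (hx : 0 ≤ x) (hy : 0 ≤ y) (j : ℕ) :
    (j + 1) * (x * y ^ j) - j * y ^ (j + 1) ≤ x ^ (j + 1) := by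
  rcases eq_or_lt_of_le hy with h | h
  · rw [← h]
    rcases Nat.eq_zero_or_pos j with hj | hj
    · simp [hj]
    · rw [zero_pow (by omega), zero_pow (by omega)]
      simp only [mul_zero, sub_zero]
      positivity
  · have h1 := one_add_mul_le_pow (a := x / y - 1) (by
      have : 0 ≤ x / y := by positivity
      linarith) (j + 1)
    have h2 : (1 + (x / y - 1)) ^ (j + 1) = x ^ (j + 1) / y ^ (j + 1) := by
      rw [← div_pow]; congr 1; ring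
    rw [h2, le_div_iff₀ (by positivity)] at h1
    refine le_trans (le_of_eq ?_) h1
    push_cast
    rw [pow_succ y j]
    field_simp
    ring

/-- The pointwise inequality. -/
lemma pointwise (m : ℕ) {ρ τ η : ℝ} (hρ : 0 ≤ ρ) (hτ : 0 ≤ τ) (hη : 0 ≤ η) {z Z B D : ℂ}
    (hz : ‖z - Z‖ ≤ η) :
    (m + 2) * τ ^ (m + 1) * (2 * ρ * ((Z * B ^ (m + 1) * (starRingEnd ℂ) D).re -
      η * (1 + ‖B ^ (m + 2)‖ ^ 2 + ‖D‖ ^ 2)) - ρ ^ 2 * ‖D‖ ^ 2) -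
      (m + 1) * τ ^ (m + 2) * ‖B ^ (m + 2)‖ ^ 2 ≤ ‖z‖ ^ (2 * (m + 2)) := by
  have h1 := bernoulli_ineq (x := ‖z‖ ^ 2) (y := τ * ‖B‖ ^ 2) (by positivity) (by positivity) (m + 1)
  have e1 : (‖z‖ ^ 2) ^ (m + 1 + 1) = ‖z‖ ^ (2 * (m + 2)) := by rw [← pow_mul]
  have e2 : ‖z‖ ^ 2 * (τ * ‖B‖ ^ 2) ^ (m + 1) = τ ^ (m + 1) * ‖z * B ^ (m + 1)‖ ^ 2 := by
    rw [norm_mul, norm_pow]; ring
  have e3 : (τ * ‖B‖ ^ 2) ^ (m + 1 + 1) = τ ^ (m + 2) * ‖B ^ (m + 2)‖ ^ 2 := by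
    rw [norm_pow]; ring
  rw [e1, e2, e3] at h1
  push_cast at h1
  -- completing the square
  have h2 : 2 * ρ * (z * B ^ (m + 1) * (starRingEnd ℂ) D).re - ρ ^ 2 * ‖D‖ ^ 2 ≤
      ‖z * B ^ (m + 1)‖ ^ 2 := by
    have h3 : 0 ≤ ‖z * B ^ (m + 1) - ρ * D‖ ^ 2 := by positivity
    rw [← Complex.normSq_eq_norm_sq, Complex.normSq_sub, Complex.normSq_eq_norm_sq,
      Complex.normSq_eq_norm_sq, norm_mul (ρ : ℂ) D, norm_real, Real.norm_of_nonneg hρ, map_mul,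
      conj_ofReal] at h3
    have h4 : (z * B ^ (m + 1) * ((ρ : ℂ) * (starRingEnd ℂ) D)).re =
        ρ * (z * B ^ (m + 1) * (starRingEnd ℂ) D).re := by
      rw [show z * B ^ (m + 1) * ((ρ : ℂ) * (starRingEnd ℂ) D) =
        (ρ : ℂ) * (z * B ^ (m + 1) * (starRingEnd ℂ) D) by ring, re_ofReal_mul]
    rw [h4] at h3
    nlinarith
  have h5 : (Z * B ^ (m + 1) * (starRingEnd ℂ) D).re - η * (1 + ‖B ^ (m + 2)‖ ^ 2 + ‖D‖ ^ 2) ≤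
      (z * B ^ (m + 1) * (starRingEnd ℂ) D).re := by
    have h6 : (Z * B ^ (m + 1) * (starRingEnd ℂ) D).re - (z * B ^ (m + 1) * (starRingEnd ℂ) D).re ≤
        ‖(z - Z) * (B ^ (m + 1) * (starRingEnd ℂ) D)‖ := by
      rw [← sub_re, norm_mul, norm_sub_rev z Z, ← norm_mul]
      refine le_trans (le_of_eq ?_) (re_le_norm _)
      congr 1; ring
    have h7 : ‖B ^ (m + 1) * (starRingEnd ℂ) D‖ ≤ 1 + ‖B ^ (m + 2)‖ ^ 2 + ‖D‖ ^ 2 := by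
      rw [norm_mul, RCLike.norm_conj]
      have h8 : ‖B ^ (m + 1)‖ ^ 2 ≤ 1 + ‖B ^ (m + 2)‖ ^ 2 := by
        rw [norm_pow, norm_pow, ← pow_mul, ← pow_mul]
        rcases le_total ‖B‖ 1 with hB | hB
        · have : ‖B‖ ^ ((m + 1) * 2) ≤ 1 := pow_le_one₀ (norm_nonneg _) hB
          have h9 : 0 ≤ ‖B‖ ^ ((m + 2) * 2) := by positivity
          linarith
        · have : ‖B‖ ^ ((m + 1) * 2) ≤ ‖B‖ ^ ((m + 2) * 2) := pow_le_pow_right₀ hB (by omega)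
          linarith
      nlinarith [sq_nonneg (‖B ^ (m + 1)‖ - ‖D‖), sq_nonneg ‖D‖, sq_nonneg ‖B ^ (m + 1)‖]
    have h10 : ‖(z - Z) * (B ^ (m + 1) * (starRingEnd ℂ) D)‖ ≤
        η * (1 + ‖B ^ (m + 2)‖ ^ 2 + ‖D‖ ^ 2) := by
      rw [norm_mul]
      gcongr
    linarith
  have h11 : 2 * ρ * ((Z * B ^ (m + 1) * (starRingEnd ℂ) D).re -
      η * (1 + ‖B ^ (m + 2)‖ ^ 2 + ‖D‖ ^ 2)) - ρ ^ 2 * ‖D‖ ^ 2 ≤ ‖z * B ^ (m + 1)‖ ^ 2 := by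
    have := mul_le_mul_of_nonneg_left h5 (by positivity : 0 ≤ 2 * ρ)
    linarith
  have h12 := mul_le_mul_of_nonneg_left h11 (by positivity : (0 : ℝ) ≤ (m + 2) * τ ^ (m + 1))
  nlinarith

end Pool.Agent.ZetaMoment
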