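import Pool.Agent.Lib_MP_112ba8.Profile

/-!
Evaluation and comparison of the constants.
-/

namespace Pool.Agent.ZetaMoment

open Finset Filter Topology MeasureTheory

lemma el_one (κ y : ℝ) : el κ 1 y =
    - ∫ u in Set.Ioi (0 : ℝ), Real.exp (-u) * Real.log (y + κ * u) := by
  rw [el, if_neg one_ne_zero]
  simp

lemma el_two (κ y : ℝ) : el κ 2 y =
    - ∫ u in Set.Ioi (0 : ℝ), (u * Real.exp (-u)) * Real.log (y + κ * u) := by
  rw [el, if_neg two_ne_zero]
  have h1 : ((2 : ℕ) : ℝ) - 1 = 1 := by norm_num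
  have h2 : Real.Gamma ((2 : ℕ) : ℝ) = 1 := by
    have := Real.Gamma_nat_eq_factorial 1
    norm_num at this ⊢
  simp only [h1, h2, Real.rpow_one, div_one]

lemma int_exp (a : ℝ) (ha : 0 < a) :
    IntegrableOn (fun u : ℝ => u ^ (a - 1) * Real.exp (-u)) (Set.Ioi 0) := by
  have := Real.GammaIntegral_convergent ha
  refine this.congr_fun (fun u _ => ?_) measurableSet_Ioi
  ring

lemma int_e0 : IntegrableOn (fun u : ℝ => Real.exp (-u)) (Set.Ioi 0) := by
  have := int_exp 1 one_pos
  simpa using this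

lemma int_e1 : IntegrableOn (fun u : ℝ => u * Real.exp (-u)) (Set.Ioi 0) := by
  have := int_exp 2 two_pos
  refine this.congr_fun (fun u _ => ?_) measurableSet_Ioi
  have : (2 : ℝ) - 1 = 1 := by norm_num
  simp only [this, Real.rpow_one]

lemma int_e2 : IntegrableOn (fun u : ℝ => u * (u * Real.exp (-u))) (Set.Ioi 0) := by
  have := int_exp 3 three_pos
  refine this.congr_fun (fun u _ => ?_) measurableSet_Ioi
  have : (3 : ℝ) - 1 = ((2 : ℕ) : ℝ) := by norm_num
  simp only [this, Real.rpow_natCast]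
  ring

lemma int_e0_eq : ∫ u in Set.Ioi (0 : ℝ), Real.exp (-u) = 1 := integral_exp_neg_Ioi_zero

lemma int_e1_eq : ∫ u in Set.Ioi (0 : ℝ), u * Real.exp (-u) = 1 := by
  have := Real.integral_rpow_mul_exp_neg_mul_Ioi (a := 2) (r := 1) two_pos one_pos
  have h1 : (2 : ℝ) - 1 = 1 := by norm_num
  have h2 : Real.Gamma 2 = 1 := by
    have := Real.Gamma_nat_eq_factorial 1
    norm_num at this ⊢
  simp only [h1, Real.rpow_one, one_mul, div_one, Real.one_rpow, h2] at this
  exact this

lemma abs_log_affine {y κ u : ℝ} (hy : 0 < y) (hκ : 0 ≤ κ) (hu : 0 < u) :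
    |Real.log (y + κ * u)| ≤ |Real.log y| + κ / y * u := by
  have e1 : y + κ * u = y * (1 + κ / y * u) := by field_simp
  have e2 : 0 ≤ κ / y * u := by positivity
  rw [e1, Real.log_mul hy.ne' (by positivity)]
  refine (abs_add_le _ _).trans ?_
  gcongr
  rw [abs_of_nonneg (Real.log_nonneg (by linarith))]
  have := Real.log_le_sub_one_of_pos (show 0 < 1 + κ / y * u by positivity)
  linarith

lemma int_log {ω : ℝ → ℝ} {y κ : ℝ} (hω0 : ∀ u ∈ Set.Ioi (0 : ℝ), 0 ≤ ω u)
    (hω1 : IntegrableOn ω (Set.Ioi 0)) (hω2 : IntegrableOn (fun u => u * ω u) (Set.Ioi 0))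
    (hy : 0 < y) (hκ : 0 ≤ κ) :
    IntegrableOn (fun u => ω u * Real.log (y + κ * u)) (Set.Ioi 0) := by
  have hb : IntegrableOn (fun u => |Real.log y| * ω u + κ / y * (u * ω u)) (Set.Ioi 0) :=
    (hω1.const_mul _).add (hω2.const_mul _)
  refine Integrable.mono' hb (hω1.aestronglyMeasurable.mul
    (Real.measurable_log.comp (by fun_prop : Measurable fun u : ℝ => y + κ * u)).aestronglyMeasurable) ?_
  filter_upwards [ae_restrict_mem measurableSet_Ioi] with u hu
  rw [norm_mul, Real.norm_of_nonneg (hω0 u hu), Real.norm_eq_abs]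
  have h3 := abs_log_affine hy hκ hu
  have h4 := hω0 u hu
  nlinarith

lemma log_diff_le {a h : ℝ} (hh : 0 ≤ h) (ha : h < a) : Real.log a - Real.log (a - h) ≤ h / (a - h) := by
  have h1 : 0 < a - h := by linarith
  have h2 : 0 < a := by linarith
  rw [← Real.log_div h2.ne' h1.ne']
  have h3 := Real.log_le_sub_one_of_pos (show 0 < a / (a - h) by positivity)
  have h4 : a / (a - h) - 1 = h / (a - h) := by field_simp; ring
  linarith

lemma el1_diff {κ y h : ℝ} (hκ : 0 ≤ κ) (hh : 0 ≤ h) (hy : h < y) :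
    el κ 1 (y - h) - el κ 1 y ≤ h / (y - h) := by
  have hy0 : 0 < y := by linarith
  have hyh : 0 < y - h := by linarith
  rw [el_one, el_one, neg_sub_neg]
  have i1 := int_log (ω := fun u => Real.exp (-u)) (y := y) (κ := κ) (fun u _ => (Real.exp_pos _).le)
    int_e0 int_e1 hy0 hκ
  have i2 := int_log (ω := fun u => Real.exp (-u)) (y := y - h) (κ := κ) (fun u _ => (Real.exp_pos _).le)
    int_e0 int_e1 hyh hκ
  rw [← integral_sub i1 i2]
  have i3 : IntegrableOn (fun u : ℝ => Real.exp (-u) * (h / (y - h))) (Set.Ioi 0) := int_e0.mul_const _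
  calc ∫ u in Set.Ioi (0 : ℝ), (Real.exp (-u) * Real.log (y + κ * u) -
        Real.exp (-u) * Real.log (y - h + κ * u))
      ≤ ∫ u in Set.Ioi (0 : ℝ), Real.exp (-u) * (h / (y - h)) := by
        refine setIntegral_mono_on (i1.sub i2) i3 measurableSet_Ioi fun u hu => ?_
        have hu' : (0 : ℝ) < u := hu
        have hku : 0 ≤ κ * u := by positivity
        have h1 := log_diff_le (a := y + κ * u) hh (by linarith)
        have h2 : h / (y + κ * u - h) ≤ h / (y - h) := by gcongr; linarith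
        have h3 : y + κ * u - h = y - h + κ * u := by ring
        rw [h3] at h1 h2
        rw [← mul_sub]
        exact mul_le_mul_of_nonneg_left (h1.trans h2) (Real.exp_pos _).le
    _ = h / (y - h) := by rw [integral_mul_const, int_e0_eq, one_mul]

/-- the constant `∫ u e^{-u} / (u + δ)` -/
noncomputable def Id (δ : ℝ) : ℝ := ∫ u in Set.Ioi (0 : ℝ), u * Real.exp (-u) / (u + δ)

lemma Id_integrable {δ : ℝ} (hδ : 0 < δ) :
    IntegrableOn (fun u : ℝ => u * Real.exp (-u) / (u + δ)) (Set.Ioi 0) := by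
  refine Integrable.mono' int_e0 ?_ ?_
  · exact (by fun_prop : Measurable fun u : ℝ => u * Real.exp (-u) / (u + δ)).aestronglyMeasurable
  · filter_upwards [ae_restrict_mem measurableSet_Ioi] with u hu
    have hu' : (0 : ℝ) < u := hu
    rw [Real.norm_of_nonneg (by positivity), div_le_iff₀ (by positivity)]
    nlinarith [Real.exp_pos (-u)]

lemma Id_lt_one {δ : ℝ} (hδ : 0 < δ) : Id δ < 1 := by
  have h1 : 0 < ∫ u in Set.Ioi (0 : ℝ), (Real.exp (-u) - u * Real.exp (-u) / (u + δ)) := by
    rw [setIntegral_pos_iff_support_of_nonneg_ae]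
    · have : Function.support (fun u : ℝ => Real.exp (-u) - u * Real.exp (-u) / (u + δ)) ∩ Set.Ioi 0 =
          Set.Ioi 0 := by
        apply Set.inter_eq_right.mpr
        intro u hu
        have hu' : (0 : ℝ) < u := hu
        rw [Function.mem_support]
        have h2 : Real.exp (-u) - u * Real.exp (-u) / (u + δ) = Real.exp (-u) * (δ / (u + δ)) := by
          field_simp; ring
        rw [h2]
        positivity
      rw [this]
      simp
    · filter_upwards [ae_restrict_mem measurableSet_Ioi] with u hu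
      have hu' : (0 : ℝ) < u := hu
      have h2 : Real.exp (-u) - u * Real.exp (-u) / (u + δ) = Real.exp (-u) * (δ / (u + δ)) := by
        field_simp; ring
      simp only [Pi.zero_apply]
      rw [h2]
      positivity
    · exact int_e0.sub (Id_integrable hδ)
  rw [integral_sub int_e0 (Id_integrable hδ), int_e0_eq] at h1
  unfold Id
  linarith

lemma Id_nonneg {δ : ℝ} (hδ : 0 < δ) : 0 ≤ Id δ := by
  refine setIntegral_nonneg measurableSet_Ioi fun u hu => ?_
  have hu' : (0 : ℝ) < u := hu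
  positivity

lemma el2_diff {κ y h δ : ℝ} (hκ : 0 < κ) (hδ : 0 < δ) (hh : 0 ≤ h) (hy : κ * δ ≤ y - h) :
    el κ 2 (y - h) - el κ 2 y ≤ h / κ * Id δ := by
  have hκδ : 0 < κ * δ := by positivity
  have hyh : 0 < y - h := by linarith
  have hy0 : 0 < y := by linarith
  rw [el_two, el_two, neg_sub_neg]
  have hω : ∀ u ∈ Set.Ioi (0 : ℝ), 0 ≤ u * Real.exp (-u) := fun u hu =>
    mul_nonneg (le_of_lt hu) (Real.exp_pos _).le
  have i1 := int_log (ω := fun u => u * Real.exp (-u)) (y := y) (κ := κ) hω int_e1 int_e2 hy0 hκ.le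
  have i2 := int_log (ω := fun u => u * Real.exp (-u)) (y := y - h) (κ := κ) hω int_e1 int_e2 hyh hκ.le
  rw [← integral_sub i1 i2]
  have i3 : IntegrableOn (fun u : ℝ => h / κ * (u * Real.exp (-u) / (u + δ))) (Set.Ioi 0) :=
    (Id_integrable hδ).const_mul _
  calc ∫ u in Set.Ioi (0 : ℝ), ((u * Real.exp (-u)) * Real.log (y + κ * u) -
        (u * Real.exp (-u)) * Real.log (y - h + κ * u))
      ≤ ∫ u in Set.Ioi (0 : ℝ), h / κ * (u * Real.exp (-u) / (u + δ)) := by
        refine setIntegral_mono_on (i1.sub i2) i3 measurableSet_Ioi fun u hu => ?_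
        have hu' : (0 : ℝ) < u := hu
        have hku : 0 < κ * u := by positivity
        have h1 := log_diff_le (a := y + κ * u) hh (by linarith)
        have h3 : y + κ * u - h = y - h + κ * u := by ring
        rw [h3] at h1
        have h2 : h / (y - h + κ * u) ≤ h / κ * (1 / (u + δ)) := by
          rw [div_mul_div_comm, mul_one]
          gcongr
          nlinarith
        rw [← mul_sub]
        calc u * Real.exp (-u) * (Real.log (y + κ * u) - Real.log (y - h + κ * u))
            ≤ u * Real.exp (-u) * (h / κ * (1 / (u + δ))) :=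
              mul_le_mul_of_nonneg_left (h1.trans h2) (by positivity)
          _ = _ := by ring
    _ = h / κ * Id δ := by rw [integral_const_mul, Id]


lemma abs_log_le_pow {u : ℝ} (hu : 0 < u) : |Real.log u| ≤ u + 2 * u ^ (-(1 / 2) : ℝ) := by
  have h0 : 0 ≤ 2 * u ^ (-(1 / 2) : ℝ) := by positivity
  have h1 := Real.log_le_sub_one_of_pos hu
  have h2 := Real.log_le_sub_one_of_pos (show 0 < u ^ (-(1 / 2) : ℝ) by positivity)
  rw [Real.log_rpow hu] at h2
  rw [abs_le]
  constructor
  · linarith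
  · linarith

lemma int_half : IntegrableOn (fun u : ℝ => Real.exp (-u) * u ^ (-(1 / 2) : ℝ)) (Set.Ioi 0) := by
  have := int_exp (1 / 2) (by norm_num)
  refine this.congr_fun (fun u _ => ?_) measurableSet_Ioi
  have : (1 / 2 : ℝ) - 1 = -(1 / 2) := by norm_num
  simp only [this]
  ring

lemma int_half_eq : ∫ u in Set.Ioi (0 : ℝ), Real.exp (-u) * u ^ (-(1 / 2) : ℝ) = Real.sqrt Real.pi := by
  have := Real.integral_rpow_mul_exp_neg_mul_Ioi (a := 1 / 2) (r := 1) (by norm_num) one_pos
  have h1 : (1 / 2 : ℝ) - 1 = -(1 / 2) := by norm_num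
  simp only [h1, one_mul, div_one, Real.one_rpow, Real.Gamma_one_half_eq] at this
  rw [← this]
  refine integral_congr_ae (ae_of_all _ fun u => ?_)
  ring

lemma int_half1 : IntegrableOn (fun u : ℝ => u * Real.exp (-u) * u ^ (-(1 / 2) : ℝ)) (Set.Ioi 0) := by
  have := int_exp (3 / 2) (by norm_num)
  refine this.congr_fun (fun u hu => ?_) measurableSet_Ioi
  have hu' : (0 : ℝ) < u := hu
  have h1 : u ^ ((3 / 2 : ℝ) - 1) = u * u ^ (-(1 / 2) : ℝ) := by
    nth_rw 2 [← Real.rpow_one u]
    rw [← Real.rpow_add hu']; norm_num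
  simp only [h1]
  ring

lemma int_log0 : IntegrableOn (fun u : ℝ => Real.exp (-u) * Real.log u) (Set.Ioi 0) := by
  refine Integrable.mono' (int_e1.add (int_half.const_mul 2)) ?_ ?_
  · exact (by fun_prop : Measurable fun u : ℝ => Real.exp (-u) * Real.log u).aestronglyMeasurable
  · filter_upwards [ae_restrict_mem measurableSet_Ioi] with u hu
    have h1 := abs_log_le_pow hu
    have h2 := Real.exp_pos (-u)
    rw [norm_mul, Real.norm_of_nonneg h2.le, Real.norm_eq_abs]
    simp only [Pi.add_apply]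
    nlinarith

lemma int_log1 : IntegrableOn (fun u : ℝ => u * Real.exp (-u) * Real.log u) (Set.Ioi 0) := by
  refine Integrable.mono' (int_e2.add (int_half1.const_mul 2)) ?_ ?_
  · exact (by fun_prop : Measurable fun u : ℝ => u * Real.exp (-u) * Real.log u).aestronglyMeasurable
  · filter_upwards [ae_restrict_mem measurableSet_Ioi] with u hu
    have hu' : (0 : ℝ) < u := hu
    have h1 := abs_log_le_pow hu
    have h2 : 0 < u * Real.exp (-u) := by positivity
    rw [norm_mul, Real.norm_of_nonneg h2.le, Real.norm_eq_abs]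
    simp only [Pi.add_apply]
    nlinarith

lemma int_log0_eq : ∫ u in Set.Ioi (0 : ℝ), Real.exp (-u) * Real.log u =
    -Real.eulerMascheroniConstant := by
  have h1 := Complex.hasDerivAt_GammaIntegral (s := 1) (by simp)
  have h2 : HasDerivAt Complex.Gamma (∫ t : ℝ in Set.Ioi 0, (t : ℂ) ^ ((1 : ℂ) - 1) *
      (Real.log t * Real.exp (-t))) 1 := by
    refine h1.congr_of_eventuallyEq ?_
    have : {s : ℂ | 0 < s.re} ∈ 𝓝 (1 : ℂ) :=
      (isOpen_lt continuous_const Complex.continuous_re).mem_nhds (by simp)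
    filter_upwards [this] with s hs using Complex.Gamma_eq_integral hs
  have h3 := h2.unique Complex.hasDerivAt_Gamma_one
  have h4 : (∫ t : ℝ in Set.Ioi 0, (t : ℂ) ^ ((1 : ℂ) - 1) * (Real.log t * Real.exp (-t))) =
      ((∫ u in Set.Ioi (0 : ℝ), Real.exp (-u) * Real.log u : ℝ) : ℂ) := by
    rw [← integral_complex_ofReal]
    refine integral_congr_ae (ae_of_all _ fun u => ?_)
    simp only [sub_self, Complex.cpow_zero, one_mul]
    push_cast
    ring
  rw [h4] at h3
  exact_mod_cast h3

lemma int_log1_eq : ∫ u in Set.Ioi (0 : ℝ), u * Real.exp (-u) * Real.log u =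
    1 - Real.eulerMascheroniConstant := by
  have h1 := Complex.hasDerivAt_GammaIntegral (s := 2) (by simp)
  have h2 : HasDerivAt Complex.Gamma (∫ t : ℝ in Set.Ioi 0, (t : ℂ) ^ ((2 : ℂ) - 1) *
      (Real.log t * Real.exp (-t))) 2 := by
    refine h1.congr_of_eventuallyEq ?_
    have : {s : ℂ | 0 < s.re} ∈ 𝓝 (2 : ℂ) :=
      (isOpen_lt continuous_const Complex.continuous_re).mem_nhds (by simp)
    filter_upwards [this] with s hs using Complex.Gamma_eq_integral hs
  have h0 := Complex.hasDerivAt_Gamma_nat 1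
  have e0 : (((1 : ℕ) : ℂ) + 1) = 2 := by norm_num
  rw [e0] at h0
  have h3 := h2.unique h0
  have h4 : (∫ t : ℝ in Set.Ioi 0, (t : ℂ) ^ ((2 : ℂ) - 1) * (Real.log t * Real.exp (-t))) =
      ((∫ u in Set.Ioi (0 : ℝ), u * Real.exp (-u) * Real.log u : ℝ) : ℂ) := by
    rw [← integral_complex_ofReal]
    refine integral_congr_ae (ae_of_all _ fun u => ?_)
    have : (2 : ℂ) - 1 = 1 := by norm_num
    simp only [this, Complex.cpow_one]
    push_cast
    ring
  rw [h4] at h3
  simp only [Nat.factorial_one, Nat.cast_one, one_mul, harmonic_succ, harmonic_zero] at h3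
  norm_num at h3
  have h5 : ((∫ u in Set.Ioi (0 : ℝ), u * Real.exp (-u) * Real.log u : ℝ) : ℂ) =
      ((1 - Real.eulerMascheroniConstant : ℝ) : ℂ) := by
    rw [h3]; push_cast; ring
  exact_mod_cast h5

lemma log_one_add_le {x : ℝ} (hx : 0 ≤ x) : Real.log (1 + x) ≤ 2 * Real.sqrt x := by
  have h1 : Real.log (1 + x) = 2 * Real.log (Real.sqrt (1 + x)) := by
    rw [Real.log_sqrt (by linarith)]; ring
  have h2 := Real.log_le_sub_one_of_pos (show 0 < Real.sqrt (1 + x) by positivity)
  have h3 : Real.sqrt (1 + x) ≤ 1 + Real.sqrt x := by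
    rw [Real.sqrt_le_left (by positivity)]
    nlinarith [Real.sq_sqrt hx, Real.sqrt_nonneg x]
  rw [h1]; linarith

lemma el1_value {κ δ : ℝ} (hκ : 0 < κ) (hδ : 0 < δ) :
    -Real.log κ + Real.eulerMascheroniConstant - 2 * Real.sqrt δ * Real.sqrt Real.pi ≤
      el κ 1 (κ * δ) := by
  rw [el_one]
  have i1 := int_log (ω := fun u => Real.exp (-u)) (y := κ * δ) (κ := κ) (fun u _ => (Real.exp_pos _).le)
    int_e0 int_e1 (by positivity) hκ.le
  have i2 : IntegrableOn (fun u : ℝ => Real.log κ * Real.exp (-u) + Real.exp (-u) * Real.log u +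
      2 * Real.sqrt δ * (Real.exp (-u) * u ^ (-(1 / 2) : ℝ))) (Set.Ioi 0) :=
    ((int_e0.const_mul _).add int_log0).add (int_half.const_mul _)
  have h1 : ∫ u in Set.Ioi (0 : ℝ), Real.exp (-u) * Real.log (κ * δ + κ * u) ≤
      ∫ u in Set.Ioi (0 : ℝ), (Real.log κ * Real.exp (-u) + Real.exp (-u) * Real.log u +
      2 * Real.sqrt δ * (Real.exp (-u) * u ^ (-(1 / 2) : ℝ))) := by
    refine setIntegral_mono_on i1 i2 measurableSet_Ioi fun u hu => ?_
    have hu' : (0 : ℝ) < u := hu
    have e1 : κ * δ + κ * u = κ * (u * (1 + δ / u)) := by field_simp; ring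
    rw [e1, Real.log_mul hκ.ne' (by positivity), Real.log_mul hu'.ne' (by positivity)]
    have h2 := log_one_add_le (x := δ / u) (by positivity)
    have h3 : Real.sqrt (δ / u) = Real.sqrt δ * u ^ (-(1 / 2) : ℝ) := by
      rw [Real.sqrt_div hδ.le, Real.rpow_neg hu'.le, ← Real.sqrt_eq_rpow]
      rfl
    rw [h3] at h2
    have h4 := Real.exp_pos (-u)
    nlinarith
  have h2 : ∫ u in Set.Ioi (0 : ℝ), (Real.log κ * Real.exp (-u) + Real.exp (-u) * Real.log u +
      2 * Real.sqrt δ * (Real.exp (-u) * u ^ (-(1 / 2) : ℝ))) =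
      Real.log κ - Real.eulerMascheroniConstant + 2 * Real.sqrt δ * Real.sqrt Real.pi := by
    have k1 : IntegrableOn (fun u : ℝ => Real.log κ * Real.exp (-u)) (Set.Ioi 0) := int_e0.const_mul _
    have k12 : IntegrableOn (fun u : ℝ => Real.log κ * Real.exp (-u) + Real.exp (-u) * Real.log u) (Set.Ioi 0) :=
      k1.add int_log0
    rw [integral_add k12 (int_half.const_mul _), integral_add k1 int_log0,
      integral_const_mul, integral_const_mul, int_e0_eq, int_half_eq, int_log0_eq]
    ring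
  linarith

lemma el2_value {κ δ : ℝ} (hκ : 0 < κ) (hδ : 0 < δ) :
    el κ 2 (κ * δ) ≤ -Real.log κ - (1 - Real.eulerMascheroniConstant) := by
  rw [el_two]
  have hω : ∀ u ∈ Set.Ioi (0 : ℝ), 0 ≤ u * Real.exp (-u) := fun u hu =>
    mul_nonneg (le_of_lt hu) (Real.exp_pos _).le
  have i1 := int_log (ω := fun u => u * Real.exp (-u)) (y := κ * δ) (κ := κ) hω int_e1 int_e2
    (by positivity) hκ.le
  have i2 : IntegrableOn (fun u : ℝ => Real.log κ * (u * Real.exp (-u)) + u * Real.exp (-u) * Real.log u)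
      (Set.Ioi 0) := (int_e1.const_mul _).add int_log1
  have h1 : ∫ u in Set.Ioi (0 : ℝ), (Real.log κ * (u * Real.exp (-u)) + u * Real.exp (-u) * Real.log u) ≤
      ∫ u in Set.Ioi (0 : ℝ), u * Real.exp (-u) * Real.log (κ * δ + κ * u) := by
    refine setIntegral_mono_on i2 i1 measurableSet_Ioi fun u hu => ?_
    have hu' : (0 : ℝ) < u := hu
    have e1 : κ * δ + κ * u = κ * (u + δ) := by ring
    rw [e1, Real.log_mul hκ.ne' (by positivity)]
    have h2 : Real.log u ≤ Real.log (u + δ) := Real.log_le_log hu' (by linarith)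
    have h3 : 0 ≤ u * Real.exp (-u) := by positivity
    nlinarith
  have h2 : ∫ u in Set.Ioi (0 : ℝ), (Real.log κ * (u * Real.exp (-u)) + u * Real.exp (-u) * Real.log u) =
      Real.log κ + (1 - Real.eulerMascheroniConstant) := by
    rw [integral_add (int_e1.const_mul _) int_log1, integral_const_mul, int_e1_eq, int_log1_eq]
    ring
  linarith

end Pool.Agent.ZetaMoment
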