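import Pool.Agent.Lib_MP_112ba8.Sigma

/-!
Euler products of correlation sums of shifted divisor functions, and their limits.
-/

namespace Pool.Agent.ZetaMoment

open Finset Filter Topology ArithmeticFunction

variable {ι : Type} [Fintype ι]

/-- local factor at `p` -/
noncomputable def lf (x y : ι → ℝ) (p : ℕ) : ℝ :=
  ∑' e : ℕ, sg x (p ^ e) * sg y (p ^ e) / (p : ℝ) ^ e

/-- normalised local factor at `p` -/
noncomputable def Rf (x y : ι → ℝ) (p : ℕ) : ℝ :=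
  lf x y p * ∏ q : ι × ι, (1 - (p : ℝ) ^ (-(1 + x q.1 + y q.2)))

/-- the correlation sum -/
noncomputable def FF (x y : ι → ℝ) : ℝ := ∑' n : ℕ, sg x n * sg y n / n

lemma summable_choose_sq (k : ℕ) :
    Summable fun e : ℕ => ((e + k - 1).choose e : ℝ) ^ 2 * (1 / 2 : ℝ) ^ e := by
  have h1 : Summable fun e : ℕ => ((e + k : ℕ) : ℝ) ^ (2 * k) * (1 / 2 : ℝ) ^ (e + k) := by
    have := summable_pow_mul_geometric_of_norm_lt_one (2 * k) (r := (1 / 2 : ℝ))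
      (by rw [Real.norm_of_nonneg (by norm_num)]; norm_num)
    exact (summable_nat_add_iff (f := fun n : ℕ => (n : ℝ) ^ (2 * k) * (1 / 2 : ℝ) ^ n) k).mpr this
  refine Summable.of_nonneg_of_le (fun e => by positivity) (fun e => ?_) (h1.mul_left (2 ^ k))
  have hc : ((e + k - 1).choose e : ℝ) ≤ ((e + k : ℕ) : ℝ) ^ k := by
    rcases Nat.eq_zero_or_pos k with hk | hk
    · subst hk
      rcases Nat.eq_zero_or_pos e with he | he
      · simp [he]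
      · rw [Nat.choose_eq_zero_of_lt (by omega)]; simp
    · have h2 : (e + k - 1).choose e = (e + k - 1).choose (k - 1) := by
        rw [← Nat.choose_symm_of_eq_add]; omega
      rw [h2]
      have h3 : (e + k - 1).choose (k - 1) ≤ (e + k) ^ k := by
        calc (e + k - 1).choose (k - 1) ≤ (e + k - 1) ^ (k - 1) := Nat.choose_le_pow _ _
          _ ≤ (e + k) ^ (k - 1) := Nat.pow_le_pow_left (by omega) _
          _ ≤ (e + k) ^ k := Nat.pow_le_pow_right (by omega) (by omega)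
      exact_mod_cast h3
  have h4 : (2 : ℝ) ^ k * (((e + k : ℕ) : ℝ) ^ (2 * k) * (1 / 2 : ℝ) ^ (e + k))
      = (((e + k : ℕ) : ℝ) ^ k) ^ 2 * (1 / 2 : ℝ) ^ e := by
    rw [pow_add, ← pow_mul, mul_comm k 2]
    have : (2 : ℝ) ^ k * (1 / 2 : ℝ) ^ k = 1 := by rw [← mul_pow]; norm_num
    calc _ = ((2 : ℝ) ^ k * (1 / 2 : ℝ) ^ k) * (((e + k : ℕ) : ℝ) ^ (2 * k) * (1 / 2 : ℝ) ^ e) := by ring
      _ = _ := by rw [this, one_mul]
  rw [h4]
  gcongr

/-- The constant `∑ C(e+k-1,e)^2 2^{-e}`. -/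
noncomputable def Cc (k : ℕ) : ℝ := ∑' e : ℕ, ((e + k - 1).choose e : ℝ) ^ 2 * (1 / 2 : ℝ) ^ e

lemma Cc_nonneg (k : ℕ) : 0 ≤ Cc k := tsum_nonneg fun e => by positivity

lemma inv_pow_le {p : ℕ} (hp : p.Prime) (e : ℕ) : 1 / (p : ℝ) ^ e ≤ (1 / 2) ^ e := by
  rw [one_div_pow]
  have h2 : (2 : ℝ) ≤ p := by exact_mod_cast hp.two_le
  gcongr

lemma lf_term_nonneg (x y : ι → ℝ) (p e : ℕ) : 0 ≤ sg x (p ^ e) * sg y (p ^ e) / (p : ℝ) ^ e :=
  div_nonneg (mul_nonneg (sg_nonneg _ _) (sg_nonneg _ _)) (by positivity)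

lemma lf_term_le {x y : ι → ℝ} (hx : ∀ i, 0 ≤ x i) (hy : ∀ i, 0 ≤ y i) {p : ℕ} (hp : p.Prime)
    (e : ℕ) : sg x (p ^ e) * sg y (p ^ e) / (p : ℝ) ^ e
      ≤ ((e + Fintype.card ι - 1).choose e : ℝ) ^ 2 * (1 / (p : ℝ) ^ e) := by
  rw [div_eq_mul_one_div, sq]
  gcongr
  · exact sg_nonneg _ _
  · exact sg_prime_pow_le hx hp e
  · exact sg_prime_pow_le hy hp e

lemma lf_term_le' {x y : ι → ℝ} (hx : ∀ i, 0 ≤ x i) (hy : ∀ i, 0 ≤ y i) {p : ℕ} (hp : p.Prime)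
    (e : ℕ) : sg x (p ^ e) * sg y (p ^ e) / (p : ℝ) ^ e
      ≤ ((e + Fintype.card ι - 1).choose e : ℝ) ^ 2 * (1 / 2) ^ e :=
  (lf_term_le hx hy hp e).trans (by gcongr; exact inv_pow_le hp e)

lemma lf_summable {x y : ι → ℝ} (hx : ∀ i, 0 ≤ x i) (hy : ∀ i, 0 ≤ y i) {p : ℕ} (hp : p.Prime) :
    Summable fun e : ℕ => sg x (p ^ e) * sg y (p ^ e) / (p : ℝ) ^ e :=
  Summable.of_nonneg_of_le (fun e => lf_term_nonneg x y p e) (fun e => lf_term_le' hx hy hp e)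
    (summable_choose_sq _)

lemma lf_expand {x y : ι → ℝ} (hx : ∀ i, 0 ≤ x i) (hy : ∀ i, 0 ≤ y i) {p : ℕ} (hp : p.Prime) :
    ∃ E : ℝ, 0 ≤ E ∧ E ≤ 4 * Cc (Fintype.card ι) / (p : ℝ) ^ 2 ∧
      lf x y p = 1 + ∑ q : ι × ι, (p : ℝ) ^ (-(1 + x q.1 + y q.2)) + E := by
  have hp0 : (0 : ℝ) < p := by exact_mod_cast hp.pos
  have hs := lf_summable hx hy hp
  refine ⟨∑' e : ℕ, sg x (p ^ (e + 2)) * sg y (p ^ (e + 2)) / (p : ℝ) ^ (e + 2), ?_, ?_, ?_⟩
  · exact tsum_nonneg fun e => lf_term_nonneg x y p (e + 2)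
  · have hs2 : Summable fun e : ℕ => sg x (p ^ (e + 2)) * sg y (p ^ (e + 2)) / (p : ℝ) ^ (e + 2) :=
      (summable_nat_add_iff (f := fun e : ℕ => sg x (p ^ e) * sg y (p ^ e) / (p : ℝ) ^ e) 2).mpr hs
    have hc := summable_choose_sq (Fintype.card ι)
    have hc2 := (summable_nat_add_iff (f := fun e : ℕ =>
      ((e + Fintype.card ι - 1).choose e : ℝ) ^ 2 * (1 / 2 : ℝ) ^ e) 2).mpr hc
    calc ∑' e : ℕ, sg x (p ^ (e + 2)) * sg y (p ^ (e + 2)) / (p : ℝ) ^ (e + 2)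
        ≤ ∑' e : ℕ, 4 / (p : ℝ) ^ 2 *
          (((e + 2 + Fintype.card ι - 1).choose (e + 2) : ℝ) ^ 2 * (1 / 2 : ℝ) ^ (e + 2)) := by
          refine Summable.tsum_le_tsum (fun e => ?_) hs2 (hc2.mul_left _)
          refine (lf_term_le hx hy hp (e + 2)).trans ?_
          have h1 := inv_pow_le hp e
          have h2 : 1 / (p : ℝ) ^ (e + 2) ≤ 4 / (p : ℝ) ^ 2 * (1 / 2) ^ (e + 2) := by
            calc 1 / (p : ℝ) ^ (e + 2) = 1 / (p : ℝ) ^ 2 * (1 / (p : ℝ) ^ e) := by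
                  rw [pow_add]; field_simp
              _ ≤ 1 / (p : ℝ) ^ 2 * (1 / 2) ^ e := by gcongr
              _ = _ := by rw [pow_add]; ring
          calc ((e + 2 + Fintype.card ι - 1).choose (e + 2) : ℝ) ^ 2 * (1 / (p : ℝ) ^ (e + 2))
              ≤ ((e + 2 + Fintype.card ι - 1).choose (e + 2) : ℝ) ^ 2
                * (4 / (p : ℝ) ^ 2 * (1 / 2) ^ (e + 2)) := by gcongr
            _ = _ := by ring
      _ = 4 / (p : ℝ) ^ 2 * ∑' e : ℕ,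
          (((e + 2 + Fintype.card ι - 1).choose (e + 2) : ℝ) ^ 2 * (1 / 2 : ℝ) ^ (e + 2)) :=
          tsum_mul_left
      _ ≤ 4 / (p : ℝ) ^ 2 * Cc (Fintype.card ι) := by
          gcongr
          rw [Cc, ← hc.sum_add_tsum_nat_add 2]
          have : 0 ≤ ∑ i ∈ range 2, ((i + Fintype.card ι - 1).choose i : ℝ) ^ 2 * (1 / 2 : ℝ) ^ i :=
            Finset.sum_nonneg fun i _ => by positivity
          linarith
      _ = _ := by ring
  · rw [lf, ← hs.sum_add_tsum_nat_add 2]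
    congr 1
    rw [Finset.sum_range_succ, Finset.sum_range_one, pow_zero, (sg_mult x).1, (sg_mult y).1, pow_one,
      sg_apply_prime x hp, sg_apply_prime y hp, pow_zero, pow_one, Finset.sum_mul_sum,
      Fintype.sum_prod_type, Finset.sum_div]
    simp only [Finset.sum_div]
    norm_num
    refine Finset.sum_congr rfl fun i _ => Finset.sum_congr rfl fun j _ => ?_
    rw [← Real.rpow_add hp0, div_eq_mul_inv, ← Real.rpow_neg_one (p : ℝ), ← Real.rpow_add hp0]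
    congr 1; ring

lemma prod_one_sub_bounds {κ : Type} (s : Finset κ) (u : κ → ℝ) (h0 : ∀ a, 0 ≤ u a)
    (h1 : ∀ a, u a ≤ 1) :
    0 ≤ ∏ a ∈ s, (1 - u a) ∧ ∏ a ∈ s, (1 - u a) ≤ 1 ∧ 1 - ∑ a ∈ s, u a ≤ ∏ a ∈ s, (1 - u a) ∧
      ∏ a ∈ s, (1 - u a) ≤ 1 - ∑ a ∈ s, u a + (∑ a ∈ s, u a) ^ 2 := by
  classical
  induction s using Finset.induction_on with
  | empty => simp
  | insert a s ha ih =>
    obtain ⟨i0, i1, i2, i3⟩ := ih
    rw [Finset.prod_insert ha, Finset.sum_insert ha]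
    set P := ∏ a ∈ s, (1 - u a)
    set S := ∑ a ∈ s, u a
    have hS : 0 ≤ S := Finset.sum_nonneg fun a _ => h0 a
    have hu0 := h0 a
    have hu1 := h1 a
    refine ⟨mul_nonneg (by linarith) i0, ?_, ?_, ?_⟩
    · nlinarith
    · nlinarith
    · have : (1 - u a) * P ≤ (1 - u a) * (1 - S + S ^ 2) :=
        mul_le_mul_of_nonneg_left i3 (by linarith)
      nlinarith [mul_nonneg hu0 hS, mul_nonneg hu0 (sq_nonneg S), sq_nonneg (u a)]

lemma abs_log_le {r a : ℝ} (ha : 0 < a) (ha1 : a ≤ 1) (h : a ≤ r) : |Real.log r| ≤ |r - 1| / a := by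
  have hr : 0 < r := lt_of_lt_of_le ha h
  have h1 : |r - 1| ≤ |r - 1| / a := by
    rw [le_div_iff₀ ha]
    nlinarith [abs_nonneg (r - 1)]
  rw [abs_le]
  constructor
  · have h2 : Real.log r⁻¹ ≤ r⁻¹ - 1 := Real.log_le_sub_one_of_pos (inv_pos.mpr hr)
    rw [Real.log_inv] at h2
    have h3 : r⁻¹ - 1 = (1 - r) / r := by field_simp
    have h4 : (1 - r) / r ≤ |r - 1| / a := by
      calc (1 - r) / r ≤ |r - 1| / r := by
            gcongr
            rw [abs_sub_comm]; exact le_abs_self _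
        _ ≤ |r - 1| / a := by gcongr
    linarith
  · have h2 := Real.log_le_sub_one_of_pos hr
    have h3 := le_abs_self (r - 1)
    linarith

lemma rpow_neg_le_half {p : ℕ} (hp : p.Prime) {s : ℝ} (hs : 1 ≤ s) : (p : ℝ) ^ (-s) ≤ 1 / 2 := by
  have h2 : (2 : ℝ) ≤ p := by exact_mod_cast hp.two_le
  calc (p : ℝ) ^ (-s) ≤ (p : ℝ) ^ (-(1 : ℝ)) :=
        Real.rpow_le_rpow_of_exponent_le (by linarith) (by linarith)
    _ = 1 / p := by rw [Real.rpow_neg_one, one_div]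
    _ ≤ 1 / 2 := by gcongr

lemma rpow_neg_le_inv {p : ℕ} (hp : p.Prime) {s : ℝ} (hs : 1 ≤ s) : (p : ℝ) ^ (-s) ≤ 1 / p := by
  have h2 : (1 : ℝ) ≤ p := by exact_mod_cast hp.one_lt.le
  calc (p : ℝ) ^ (-s) ≤ (p : ℝ) ^ (-(1 : ℝ)) :=
        Real.rpow_le_rpow_of_exponent_le (by linarith) (by linarith)
    _ = 1 / p := by rw [Real.rpow_neg_one, one_div]

/-- the constant in the bound for the logarithm of the local factors -/
noncomputable def Kc (k : ℕ) : ℝ :=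
  2 ^ (k * k) * ((2 + (k : ℝ) * k) * ((k : ℝ) * k) ^ 2 + 4 * Cc k)

lemma Rf_ge {x y : ι → ℝ} (hx : ∀ i, 0 ≤ x i) (hy : ∀ i, 0 ≤ y i) {p : ℕ} (hp : p.Prime) :
    (1 / 2) ^ (Fintype.card ι * Fintype.card ι) ≤ Rf x y p := by
  obtain ⟨E, hE0, _, hE⟩ := lf_expand hx hy hp
  have hU : 0 ≤ ∑ q : ι × ι, (p : ℝ) ^ (-(1 + x q.1 + y q.2)) :=
    Finset.sum_nonneg fun q _ => by positivity
  have h1 : 1 ≤ lf x y p := by rw [hE]; linarith
  have h2 : (1 / 2 : ℝ) ^ (Fintype.card ι * Fintype.card ι)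
      ≤ ∏ q : ι × ι, (1 - (p : ℝ) ^ (-(1 + x q.1 + y q.2))) := by
    calc (1 / 2 : ℝ) ^ (Fintype.card ι * Fintype.card ι) = ∏ q : ι × ι, (1 / 2 : ℝ) := by
          rw [Finset.prod_const, Finset.card_univ, Fintype.card_prod]
      _ ≤ _ := by
          refine Finset.prod_le_prod (fun q _ => by norm_num) fun q _ => ?_
          have := rpow_neg_le_half hp (s := 1 + x q.1 + y q.2) (by linarith [hx q.1, hy q.2])
          linarith
  calc (1 / 2 : ℝ) ^ (Fintype.card ι * Fintype.card ι)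
      = 1 * (1 / 2 : ℝ) ^ (Fintype.card ι * Fintype.card ι) := by ring
    _ ≤ _ := mul_le_mul h1 h2 (by positivity) (by linarith)

lemma Rf_pos {x y : ι → ℝ} (hx : ∀ i, 0 ≤ x i) (hy : ∀ i, 0 ≤ y i) {p : ℕ} (hp : p.Prime) :
    0 < Rf x y p := lt_of_lt_of_le (by positivity) (Rf_ge hx hy hp)

lemma abs_log_Rf_le {x y : ι → ℝ} (hx : ∀ i, 0 ≤ x i) (hy : ∀ i, 0 ≤ y i) {p : ℕ}
    (hp : p.Prime) : |Real.log (Rf x y p)| ≤ Kc (Fintype.card ι) * (1 / (p : ℝ) ^ 2) := by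
  obtain ⟨E, hE0, hE1, hE⟩ := lf_expand hx hy hp
  have hp2 : (2 : ℝ) ≤ p := by exact_mod_cast hp.two_le
  have hp0 : (0 : ℝ) < p := by linarith
  set k := Fintype.card ι with hk
  have hb := prod_one_sub_bounds (Finset.univ : Finset (ι × ι))
    (fun q => (p : ℝ) ^ (-(1 + x q.1 + y q.2))) (fun q => by positivity)
    (fun q => (rpow_neg_le_half hp (by linarith [hx q.1, hy q.2])).trans (by norm_num))
  obtain ⟨b0, b1, b2, b3⟩ := hb
  set U := ∑ q : ι × ι, (p : ℝ) ^ (-(1 + x q.1 + y q.2)) with hUdef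
  have hU0 : 0 ≤ U := Finset.sum_nonneg fun q _ => by positivity
  have hU1 : U ≤ (k : ℝ) * k / p := by
    calc U ≤ ∑ q : ι × ι, 1 / (p : ℝ) :=
          Finset.sum_le_sum fun q _ => rpow_neg_le_inv hp (by linarith [hx q.1, hy q.2])
      _ = (k : ℝ) * k / p := by
          rw [Finset.sum_const, Finset.card_univ, Fintype.card_prod, nsmul_eq_mul, ← hk]
          push_cast; ring
  have hU2 : U ≤ (k : ℝ) * k := hU1.trans (div_le_self (by positivity) (by linarith))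
  have hR : |Rf x y p - 1| ≤ ((2 + (k : ℝ) * k) * ((k : ℝ) * k) ^ 2 + 4 * Cc k) * (1 / (p : ℝ) ^ 2) := by
    have e1 : Rf x y p - 1 = (1 + U) * (∏ q : ι × ι, (1 - (p : ℝ) ^ (-(1 + x q.1 + y q.2))) - (1 - U))
        - U ^ 2 + E * ∏ q : ι × ι, (1 - (p : ℝ) ^ (-(1 + x q.1 + y q.2))) := by
      rw [Rf, hE]; ring
    set P := ∏ q : ι × ι, (1 - (p : ℝ) ^ (-(1 + x q.1 + y q.2)))
    have hEP0 : 0 ≤ E * P := mul_nonneg hE0 b0
    have hEP1 : E * P ≤ E := by nlinarith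
    have hF0 : 0 ≤ P - (1 - U) := by linarith
    have hF1 : P - (1 - U) ≤ U ^ 2 := by linarith
    have hA0 : 0 ≤ (1 + U) * (P - (1 - U)) := mul_nonneg (by linarith) hF0
    have hA1 : (1 + U) * (P - (1 - U)) ≤ (1 + U) * U ^ 2 :=
      mul_le_mul_of_nonneg_left hF1 (by linarith)
    have hUsq : U ^ 2 ≤ ((k : ℝ) * k) ^ 2 * (1 / (p : ℝ) ^ 2) := by
      calc U ^ 2 ≤ ((k : ℝ) * k / p) ^ 2 := by gcongr
        _ = _ := by ring
    have h5 : |Rf x y p - 1| ≤ (2 + U) * U ^ 2 + E := by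
      rw [e1, abs_le]
      constructor
      · nlinarith [sq_nonneg U, mul_nonneg hU0 (sq_nonneg U)]
      · nlinarith [sq_nonneg U, mul_nonneg hU0 (sq_nonneg U)]
    calc |Rf x y p - 1| ≤ (2 + U) * U ^ 2 + E := h5
      _ ≤ (2 + (k : ℝ) * k) * (((k : ℝ) * k) ^ 2 * (1 / (p : ℝ) ^ 2)) + 4 * Cc k / (p : ℝ) ^ 2 := by
          gcongr
      _ = _ := by ring
  have h6 := abs_log_le (a := (1 / 2 : ℝ) ^ (k * k)) (by positivity)
    (pow_le_one₀ (by norm_num) (by norm_num)) (Rf_ge hx hy hp)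
  refine h6.trans ?_
  rw [div_le_iff₀ (by positivity), Kc]
  have h7 : (2 : ℝ) ^ (k * k) * (1 / 2 : ℝ) ^ (k * k) = 1 := by rw [← mul_pow]; norm_num
  calc |Rf x y p - 1| ≤ ((2 + (k : ℝ) * k) * ((k : ℝ) * k) ^ 2 + 4 * Cc k) * (1 / (p : ℝ) ^ 2) := hR
    _ = (2 : ℝ) ^ (k * k) * (1 / 2 : ℝ) ^ (k * k) *
      (((2 + (k : ℝ) * k) * ((k : ℝ) * k) ^ 2 + 4 * Cc k) * (1 / (p : ℝ) ^ 2)) := by rw [h7, one_mul]
    _ = _ := by ring

lemma primes_summable : Summable fun p : Nat.Primes => 1 / ((p : ℕ) : ℝ) ^ 2 :=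
  (Real.summable_one_div_nat_pow.mpr (by norm_num : 1 < 2)).comp_injective
    (i := fun p : Nat.Primes => (p : ℕ)) Nat.Primes.coe_nat_injective

/-- value of the convergent Euler product of the normalised local factors -/
noncomputable def rf (x y : ι → ℝ) : ℝ := Real.exp (∑' p : Nat.Primes, Real.log (Rf x y p))

lemma rf_pos (x y : ι → ℝ) : 0 < rf x y := Real.exp_pos _

lemma rf_hasProd {x y : ι → ℝ} (hx : ∀ i, 0 ≤ x i) (hy : ∀ i, 0 ≤ y i) :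
    HasProd (fun p : Nat.Primes => Rf x y p) (rf x y) := by
  refine Real.hasProd_of_hasSum_log (fun p => Rf_pos hx hy p.2) (Summable.hasSum ?_)
  refine Summable.of_norm_bounded (primes_summable.mul_left (Kc (Fintype.card ι))) fun p => ?_
  rw [Real.norm_eq_abs]
  exact abs_log_Rf_le hx hy p.2

end Pool.Agent.ZetaMoment
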