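import Pool.Agent.Lib_MP_112ba8.EulerLim

/-!
Euler products of correlation sums: summability, factorisation, limits.
-/

namespace Pool.Agent.ZetaMoment

open Finset Filter Topology ArithmeticFunction

variable {ι : Type} [Fintype ι]

/-- real zeta sum -/
noncomputable def zr (s : ℝ) : ℝ := ∑' n : ℕ, (n : ℝ) ^ (-s)

/-- `n ↦ n ^ (-s)` as a monoid-with-zero hom -/
noncomputable def powHom (s : ℝ) (hs : 0 < s) : ℕ →*₀ ℝ where
  toFun n := (n : ℝ) ^ (-s)
  map_zero' := by simp [Real.zero_rpow (neg_ne_zero.mpr hs.ne')]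
  map_one' := by simp
  map_mul' m n := by push_cast; rw [Real.mul_rpow (by positivity) (by positivity)]

lemma zr_summable {s : ℝ} (hs : 1 < s) : Summable fun n : ℕ => (n : ℝ) ^ (-s) :=
  Real.summable_nat_rpow.mpr (by linarith)

lemma zr_hasProd {s : ℝ} (hs : 1 < s) :
    HasProd (fun p : Nat.Primes => (1 - ((p : ℕ) : ℝ) ^ (-s))⁻¹) (zr s) := by
  have h := EulerProduct.eulerProduct_completely_multiplicative_hasProd
    (f := powHom s (by linarith)) (by
      have := zr_summable hs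
      refine this.congr fun n => ?_
      have h0 : (0 : ℝ) ≤ (n : ℝ) ^ (-s) := by positivity
      exact (Real.norm_of_nonneg h0).symm)
  exact h

lemma zr_pos {s : ℝ} (hs : 1 < s) : 0 < zr s := by
  have h := (zr_summable hs).le_tsum 1 (fun j _ => by positivity)
  have : (0:ℝ) < ((1 : ℕ) : ℝ) ^ (-s) := by simp
  exact lt_of_lt_of_le this h

/-- the terms of the correlation sum -/
noncomputable def tm (x y : ι → ℝ) (n : ℕ) : ℝ := sg x n * sg y n / n

lemma tm_nonneg (x y : ι → ℝ) (n : ℕ) : 0 ≤ tm x y n :=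
  div_nonneg (mul_nonneg (sg_nonneg _ _) (sg_nonneg _ _)) (by positivity)

lemma tm_one (x y : ι → ℝ) : tm x y 1 = 1 := by
  simp [tm, (sg_mult x).1, (sg_mult y).1]

lemma tm_mul (x y : ι → ℝ) {m n : ℕ} (h : m.Coprime n) : tm x y (m * n) = tm x y m * tm x y n := by
  simp only [tm]
  rw [(sg_mult x).2 h, (sg_mult y).2 h]
  push_cast
  rw [mul_comm (m : ℝ) n]
  ring

lemma tm_prime_pow (x y : ι → ℝ) (p e : ℕ) :
    tm x y (p ^ e) = sg x (p ^ e) * sg y (p ^ e) / (p : ℝ) ^ e := by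
  simp only [tm]; push_cast; rfl

lemma lf_eq (x y : ι → ℝ) (p : ℕ) : ∑' e : ℕ, tm x y (p ^ e) = lf x y p := by
  simp only [tm_prime_pow, lf]

lemma one_le_lf {x y : ι → ℝ} (hx : ∀ i, 0 ≤ x i) (hy : ∀ i, 0 ≤ y i) {p : ℕ} (hp : p.Prime) :
    1 ≤ lf x y p := by
  obtain ⟨E, hE0, _, hE⟩ := lf_expand hx hy hp
  have hU : 0 ≤ ∑ q : ι × ι, (p : ℝ) ^ (-(1 + x q.1 + y q.2)) :=
    Finset.sum_nonneg fun q _ => by positivity
  rw [hE]; linarith

lemma lf_hasProd {x y : ι → ℝ} (hx : ∀ i, 0 ≤ x i) (hy : ∀ i, 0 ≤ y i)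
    (hxy : ∀ i j, 0 < x i + y j) :
    HasProd (fun p : Nat.Primes => lf x y p) (rf x y * ∏ q : ι × ι, zr (1 + x q.1 + y q.2)) := by
  have h1 := rf_hasProd hx hy
  have h2 : HasProd (fun p : Nat.Primes => ∏ q : ι × ι, (1 - ((p : ℕ) : ℝ) ^ (-(1 + x q.1 + y q.2)))⁻¹)
      (∏ q : ι × ι, zr (1 + x q.1 + y q.2)) :=
    hasProd_prod fun q _ => zr_hasProd (by linarith [hxy q.1 q.2])
  have h3 := h1.mul h2
  have h4 : (fun p : Nat.Primes => lf x y p) = fun p : Nat.Primes => Rf x y p *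
      ∏ q : ι × ι, (1 - ((p : ℕ) : ℝ) ^ (-(1 + x q.1 + y q.2)))⁻¹ := by
    funext p
    rw [Rf, mul_assoc, ← Finset.prod_mul_distrib, Finset.prod_eq_one, mul_one]
    intro q _
    have := rpow_neg_le_half p.2 (s := 1 + x q.1 + y q.2) (by linarith [hx q.1, hy q.2])
    exact mul_inv_cancel₀ (by linarith)
  rw [h4]
  exact h3

lemma tm_summable {x y : ι → ℝ} (hx : ∀ i, 0 ≤ x i) (hy : ∀ i, 0 ≤ y i)
    (hxy : ∀ i j, 0 < x i + y j) : Summable (tm x y) := by
  classical
  have hP := lf_hasProd hx hy hxy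
  set V := rf x y * ∏ q : ι × ι, zr (1 + x q.1 + y q.2)
  have hmono : Monotone fun s : Finset Nat.Primes => ∏ p ∈ s, lf x y p := by
    intro s t hst
    exact Finset.prod_le_prod_of_subset_of_one_le hst (fun p _ => zero_le_one.trans (one_le_lf hx hy p.2))
      (fun p _ _ => one_le_lf hx hy p.2)
  have hle : ∀ s : Finset Nat.Primes, ∏ p ∈ s, lf x y p ≤ V := fun s => hmono.ge_of_tendsto hP s
  refine summable_of_sum_range_le (c := V) (tm_nonneg x y) fun N => ?_
  have hsum : ∀ {p : ℕ}, p.Prime → Summable fun e : ℕ => ‖tm x y (p ^ e)‖ := by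
    intro p hp
    simp only [tm_prime_pow, Real.norm_of_nonneg (lf_term_nonneg _ _ _ _)]
    exact lf_summable hx hy hp
  have hsm := EulerProduct.summable_and_hasSum_smoothNumbers_prod_primesBelow_tsum
    (f := tm x y) (tm_one x y) (fun h => tm_mul x y h) hsum N
  have h1 : ∑ n ∈ range N, tm x y n ≤ ∏ p ∈ N.primesBelow, ∑' e : ℕ, tm x y (p ^ e) := by
    rw [← hsm.2.tsum_eq]
    have h2 : ∑ n ∈ range N, tm x y n = ∑ n ∈ (range N).filter (fun n => n ∈ N.smoothNumbers), tm x y n := by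
      rw [Finset.sum_filter_of_ne]
      intro n hn h0
      have hn0 : 0 < n := by
        rcases Nat.eq_zero_or_pos n with h | h
        · exfalso; apply h0; simp [tm, h]
        · exact h
      exact Nat.mem_smoothNumbers_of_lt hn0 (Finset.mem_range.mp hn)
    rw [h2]
    have hs3 : Summable fun m : N.smoothNumbers => tm x y m := hsm.2.summable
    have h4 := hs3.sum_le_tsum (((range N).filter (fun n => n ∈ N.smoothNumbers)).subtype (fun n => n ∈ N.smoothNumbers))
      (fun m _ => tm_nonneg x y m)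
    refine le_trans (le_of_eq ?_) h4
    rw [Finset.sum_subtype_of_mem (fun n => tm x y n)]
    intro n hn
    exact (Finset.mem_filter.mp hn).2
  refine h1.trans ?_
  have h5 : ∏ p ∈ N.primesBelow, ∑' e : ℕ, tm x y (p ^ e)
      = ∏ p ∈ N.primesBelow.subtype Nat.Prime, lf x y p := by
    rw [Finset.prod_subtype_of_mem (fun p => lf x y p)]
    · exact Finset.prod_congr rfl fun p _ => lf_eq x y p
    · intro p hp; exact Nat.prime_of_mem_primesBelow hp
  rw [h5]
  exact hle _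

lemma FF_eq {x y : ι → ℝ} (hx : ∀ i, 0 ≤ x i) (hy : ∀ i, 0 ≤ y i)
    (hxy : ∀ i j, 0 < x i + y j) : FF x y = rf x y * ∏ q : ι × ι, zr (1 + x q.1 + y q.2) := by
  have hs := tm_summable hx hy hxy
  have h1 : HasProd (fun p : Nat.Primes => ∑' e, tm x y ((p : ℕ) ^ e)) (∑' n, tm x y n) :=
    EulerProduct.eulerProduct_hasProd (f := tm x y) (tm_one x y) (fun h => tm_mul x y h)
      (hs.congr fun n => (Real.norm_of_nonneg (tm_nonneg x y n)).symm) (by simp [tm])
  simp only [lf_eq] at h1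
  exact h1.unique (lf_hasProd hx hy hxy)

lemma sg_scale_tendsto (x : ι → ℝ) (n : ℕ) :
    Tendsto (fun L : ℝ => sg (fun i => x i / L) n) atTop (𝓝 (sg (fun _ : ι => (0 : ℝ)) n)) := by
  have h1 : Tendsto (fun L : ℝ => fun i => x i / L) atTop (𝓝 (fun _ : ι => (0 : ℝ))) := by
    rw [tendsto_pi_nhds]
    intro i
    exact tendsto_const_nhds.div_atTop tendsto_id
  exact ((sg_continuous n).tendsto _).comp h1

lemma lf_scale_tendsto {x y : ι → ℝ} (hx : ∀ i, 0 ≤ x i) (hy : ∀ i, 0 ≤ y i) {p : ℕ}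
    (hp : p.Prime) :
    Tendsto (fun L : ℝ => lf (fun i => x i / L) (fun i => y i / L) p) atTop
      (𝓝 (lf (fun _ : ι => 0) (fun _ => 0) p)) := by
  unfold lf
  refine tendsto_tsum_of_dominated_convergence (summable_choose_sq (Fintype.card ι)) (fun e => ?_) ?_
  · exact ((sg_scale_tendsto x _).mul (sg_scale_tendsto y _)).div_const _
  · filter_upwards [eventually_gt_atTop (0 : ℝ)] with L hL e
    rw [Real.norm_of_nonneg (lf_term_nonneg _ _ _ _)]
    exact lf_term_le' (fun i => div_nonneg (hx i) hL.le) (fun i => div_nonneg (hy i) hL.le) hp e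

lemma Rf_scale_tendsto {x y : ι → ℝ} (hx : ∀ i, 0 ≤ x i) (hy : ∀ i, 0 ≤ y i) {p : ℕ}
    (hp : p.Prime) :
    Tendsto (fun L : ℝ => Rf (fun i => x i / L) (fun i => y i / L) p) atTop
      (𝓝 (Rf (fun _ : ι => 0) (fun _ => 0) p)) := by
  unfold Rf
  refine (lf_scale_tendsto hx hy hp).mul (tendsto_finsetProd _ fun q _ => ?_)
  refine tendsto_const_nhds.sub ?_
  have hp0 : (p : ℝ) ≠ 0 := by exact_mod_cast hp.ne_zero
  refine Tendsto.rpow tendsto_const_nhds ?_ (Or.inl hp0)
  refine Tendsto.neg ((tendsto_const_nhds.add ?_).add ?_)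
  · exact tendsto_const_nhds.div_atTop tendsto_id
  · exact tendsto_const_nhds.div_atTop tendsto_id

lemma rf_scale_tendsto {x y : ι → ℝ} (hx : ∀ i, 0 ≤ x i) (hy : ∀ i, 0 ≤ y i) :
    Tendsto (fun L : ℝ => rf (fun i => x i / L) (fun i => y i / L)) atTop
      (𝓝 (rf (fun _ : ι => 0) (fun _ => 0))) := by
  unfold rf
  refine (Real.continuous_exp.tendsto _).comp ?_
  refine tendsto_tsum_of_dominated_convergence (primes_summable.mul_left (Kc (Fintype.card ι)))
    (fun p => ?_) ?_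
  · exact (Rf_scale_tendsto hx hy p.2).log (Rf_pos (fun _ => le_rfl) (fun _ => le_rfl) p.2).ne'
  · filter_upwards [eventually_gt_atTop (0 : ℝ)] with L hL p
    rw [Real.norm_eq_abs]
    exact abs_log_Rf_le (fun i => div_nonneg (hx i) hL.le) (fun i => div_nonneg (hy i) hL.le) p.2

lemma zr_scale_tendsto {z : ℝ} (hz : 0 < z) :
    Tendsto (fun L : ℝ => zr (1 + z / L) / L) atTop (𝓝 z⁻¹) := by
  have h1 : Tendsto (fun L : ℝ => 1 + z / L) atTop (𝓝[>] 1) := by
    refine tendsto_nhdsWithin_iff.mpr ⟨?_, ?_⟩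
    · have : Tendsto (fun L : ℝ => z / L) atTop (𝓝 0) := tendsto_const_nhds.div_atTop tendsto_id
      simpa using tendsto_const_nhds.add this
    · filter_upwards [eventually_gt_atTop (0 : ℝ)] with L hL
      have : 0 < z / L := by positivity
      simp only [Set.mem_Ioi]; linarith
  have h2 := (tendsto_sub_mul_tsum_nat_rpow.comp h1).mul_const z⁻¹
  rw [one_mul] at h2
  refine h2.congr' ?_
  filter_upwards [eventually_gt_atTop (0 : ℝ)] with L hL
  simp only [Function.comp_apply, zr]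
  have : ∀ n : ℕ, 1 / (n : ℝ) ^ (1 + z / L) = (n : ℝ) ^ (-(1 + z / L)) := by
    intro n
    rw [Real.rpow_neg (by positivity), one_div]
  simp only [this]
  field_simp
  ring

/-- The arithmetic factor `a_k`, attached to the index type. -/
noncomputable def ak (ι : Type) [Fintype ι] : ℝ := rf (fun _ : ι => 0) (fun _ => 0)

lemma ak_pos (ι : Type) [Fintype ι] : 0 < ak ι := rf_pos _ _

/-- Main limit lemma. -/
theorem FF_tendsto {x y : ι → ℝ} (hx : ∀ i, 0 ≤ x i) (hy : ∀ i, 0 ≤ y i)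
    (hxy : ∀ i j, 0 < x i + y j) :
    Tendsto (fun L : ℝ => FF (fun i => x i / L) (fun i => y i / L) /
      L ^ (Fintype.card ι * Fintype.card ι)) atTop
      (𝓝 (ak ι * ∏ q : ι × ι, (x q.1 + y q.2)⁻¹)) := by
  have h1 := (rf_scale_tendsto hx hy).mul
    (tendsto_finsetProd (Finset.univ : Finset (ι × ι)) fun q _ => zr_scale_tendsto (hxy q.1 q.2))
  refine h1.congr' ?_
  filter_upwards [eventually_gt_atTop (0 : ℝ)] with L hL
  rw [FF_eq (fun i => div_nonneg (hx i) hL.le) (fun i => div_nonneg (hy i) hL.le)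
    (fun i j => by rw [← add_div]; exact div_pos (hxy i j) hL), Finset.prod_div_distrib,
    Finset.prod_const, Finset.card_univ, Fintype.card_prod, mul_div_assoc]
  simp only [add_div, add_assoc]

end Pool.Agent.ZetaMoment
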