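import Pool.Agent.Lib_MP_112ba8.Param

/-!
The final lower bound and the product formula for the arithmetic factor.
-/

namespace Pool.Agent.ZetaMoment

open Finset Filter Topology MeasureTheory ArithmeticFunction

lemma exp_small {b : ℝ} (hb : 0 < b) : ∀ᶠ k : ℝ in atTop, k * Real.exp (1 - k * b) ≤ 1 / 4 := by
  have h1 := Real.tendsto_pow_mul_exp_neg_atTop_nhds_zero 1
  have h2 : Tendsto (fun k : ℝ => k * b) atTop atTop := tendsto_id.atTop_mul_const hb
  have h3 := (h1.comp h2).const_mul (Real.exp 1 / b)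
  rw [mul_zero] at h3
  have h4 := h3.eventually (gt_mem_nhds (show (0 : ℝ) < 1 / 4 by norm_num))
  filter_upwards [h4] with k hk
  refine le_trans (le_of_eq ?_) hk.le
  simp only [Function.comp_apply, pow_one]
  rw [sub_eq_add_neg, Real.exp_add]
  field_simp

/-- lower bound with all parameters chosen -/
theorem bound_m {η : ℝ} (hη : 0 < η) : ∀ᶠ k : ℝ in atTop, ∀ m : ℕ, k = m + 2 →
    ∀ᶠ T : ℝ in atTop, aG (Fin (m + 2)) * Real.exp (k ^ 2 * (1 + Real.eulerMascheroniConstant - η -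
      Real.log (k ^ 2))) * Real.log T ^ ((m + 2) * (m + 2)) ≤
      (1 / T) * ∫ t in (0 : ℝ)..T, ‖riemannZeta (1 / 2 + t * Complex.I)‖ ^ (2 * (m + 2)) := by
  -- choice of δ
  obtain ⟨δ, hδ, hδη⟩ : ∃ δ : ℝ, 0 < δ ∧ 4 * Real.sqrt δ * Real.sqrt Real.pi ≤ η / 2 := by
    refine ⟨(η / (8 * Real.sqrt Real.pi)) ^ 2, by positivity, ?_⟩
    rw [Real.sqrt_sq (by positivity)]
    have : 0 < Real.sqrt Real.pi := by positivity
    refine le_of_eq ?_
    field_simp
    ring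
  have hI1 := Id_lt_one hδ
  have hI0 := Id_nonneg hδ
  obtain ⟨D, hD⟩ : ∃ D : ℝ, D = 1 - Id δ := ⟨_, rfl⟩
  have hD0 : 0 < D := by linarith
  have hD1 : D ≤ 1 := by linarith
  obtain ⟨h₂, hh₂⟩ : ∃ h₂ : ℝ, h₂ = 8 / D := ⟨_, rfl⟩
  have hh20 : 0 < h₂ := by rw [hh₂]; positivity
  set G := 1 + Real.eulerMascheroniConstant - 4 * Real.sqrt δ * Real.sqrt Real.pi with hG
  set C1 := |Real.log (2 * (2 * h₂))| + |G| with hC1
  set C2 := |Real.log Wm| with hC2
  filter_upwards [eventually_ge_atTop (3 * h₂ / δ), eventually_ge_atTop (2 * (C1 + C2 + 1) / η),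
    exp_small (show 0 < δ * D / 4 by positivity)] with k k1 k2 k3
  intro m hk
  have hk2 : 2 ≤ k := by rw [hk]; linarith [Nat.cast_nonneg (α := ℝ) m]
  have hk0 : 0 < k := by linarith
  obtain ⟨κ, hκ⟩ : ∃ κ : ℝ, κ = k ^ 2 := ⟨_, rfl⟩
  have hκ0 : 0 < κ := by rw [hκ]; positivity
  have hκ1 : 1 ≤ κ := by rw [hκ]; nlinarith
  have c2 : 3 * h₂ ≤ k * δ := by rwa [div_le_iff₀ hδ] at k1
  have c3 : ((m : ℝ) + 1) * Real.exp (1 - k * (δ * D / 4)) ≤ 1 / 4 := by
    refine le_trans ?_ k3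
    gcongr
    linarith
  have hn := nn_lower m hk hκ hδ hD hD0 hh₂ c2 c3
  have hyh : 6 * h₂ ≤ κ * δ := by
    have : κ * δ = k * (k * δ) := by rw [hκ]; ring
    rw [this]; nlinarith
  have hy0 : 0 < κ * δ := by positivity
  rw [← hκ]
  refine value_lower m hκ0.le (show 0 < D / 2 by positivity) (by linarith) hy0
    (show 0 < 2 * h₂ by positivity) (show 0 ≤ κ * δ / 2 by positivity) (by linarith) hh20.le
    (by linarith) (by linarith) hn ?_
  have hA : 0 < aG (Fin (m + 2)) := Real.exp_pos _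
  refine mul_lt_mul_of_pos_left ?_ hA
  -- the exponents
  have e1 := el1_value hκ0 hδ
  have e2 : el κ 2 (κ * δ + κ * δ) ≤ -Real.log κ - (1 - Real.eulerMascheroniConstant) := by
    have := el2_value (δ := 2 * δ) hκ0 (by positivity)
    have h3 : κ * (2 * δ) = κ * δ + κ * δ := by ring
    rwa [h3] at this
  have e3 : (k : ℝ) * (2 * SS κ (E0 m (κ * δ)) (EY m (2 * h₂) (κ * δ)) -
      SS κ (EY m (2 * h₂) (κ * δ)) (EY m (2 * h₂) (κ * δ))) -
      (m + 1) * SS κ (EV m (κ * δ)) (EV m (κ * δ)) =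
      k * (2 * el κ 0 (2 * h₂) - el κ 0 (2 * h₂ + 2 * h₂)) +
      k * (k - 1) * (2 * el κ 1 (κ * δ) - el κ 2 (κ * δ + κ * δ)) := by
    rw [SS_E0_EY, SS_EY_EY, SS_EV_EV]
    have : (m : ℝ) = k - 2 := by rw [hk]; ring
    rw [this]
    ring
  have e4 : 2 * el κ 0 (2 * h₂) - el κ 0 (2 * h₂ + 2 * h₂) = Real.log 4 - Real.log (2 * (2 * h₂)) := by
    rw [el, el, if_pos rfl, if_pos rfl]
    have h4 : (2 * h₂ + 2 * h₂) = 2 * (2 * h₂) := by ring
    have h5 : (4 : ℝ) = 2 * 2 := by norm_num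
    have h6 : Real.log (2 * (2 * h₂)) = Real.log 2 + (Real.log 2 + Real.log h₂) := by
      rw [Real.log_mul two_ne_zero (by positivity), Real.log_mul two_ne_zero hh20.ne']
    rw [h4, h5, h6, Real.log_mul two_ne_zero hh20.ne', Real.log_mul two_ne_zero two_ne_zero]
    ring
  have e5 : G - Real.log κ ≤ 2 * el κ 1 (κ * δ) - el κ 2 (κ * δ + κ * δ) := by
    rw [hG]; linarith
  rw [← hk, e3, e4]
  have hlogκ : 0 ≤ Real.log κ := Real.log_nonneg hκ1
  have e6 : k ^ 2 * (1 + Real.eulerMascheroniConstant - η - Real.log κ) <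
      Real.log Wm + (-(k * Real.log 4)) + (k * (Real.log 4 - Real.log (2 * (2 * h₂))) +
      k * (k - 1) * (2 * el κ 1 (κ * δ) - el κ 2 (κ * δ + κ * δ))) := by
    have f1 : k * (k - 1) * (G - Real.log κ) ≤
        k * (k - 1) * (2 * el κ 1 (κ * δ) - el κ 2 (κ * δ + κ * δ)) :=
      mul_le_mul_of_nonneg_left e5 (mul_nonneg hk0.le (by linarith))
    have f2 : k * (C1 + C2 + 1) ≤ k ^ 2 * (η / 2) := by
      rw [div_le_iff₀ hη] at k2
      nlinarith
    have f3 : k ^ 2 * (1 + Real.eulerMascheroniConstant - η) ≤ k ^ 2 * (G - η / 2) := by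
      apply mul_le_mul_of_nonneg_left _ (by positivity)
      rw [hG]; linarith
    have f4 : -(k * C1) ≤ -(k * Real.log (2 * (2 * h₂))) - k * G := by
      have g1 := le_abs_self (Real.log (2 * (2 * h₂)))
      have g2 := le_abs_self G
      rw [hC1]; nlinarith
    have f5 : -(C2) ≤ Real.log Wm := neg_abs_le _
    have f6 : 0 ≤ k * Real.log κ := mul_nonneg hk0.le hlogκ
    have f7 : C2 < k * (C2 + 1) := by
      have : 0 ≤ C2 := abs_nonneg _
      nlinarith
    nlinarith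
  rw [← hκ] at e6
  have e7 : Real.exp (κ * (1 + Real.eulerMascheroniConstant - η - Real.log κ)) <
      Real.exp (Real.log Wm + (-(k * Real.log 4)) + (k * (Real.log 4 - Real.log (2 * (2 * h₂))) +
      k * (k - 1) * (2 * el κ 1 (κ * δ) - el κ 2 (κ * δ + κ * δ)))) := Real.exp_lt_exp.mpr e6
  refine e7.trans_le (le_of_eq ?_)
  rw [Real.exp_add, Real.exp_add, Real.exp_log Wm_pos, mul_assoc]
  congr 2
  have h4 : Real.exp (-(k * Real.log 4)) = (1 / 4 : ℝ) ^ (m + 2) := by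
    have h5 : -(k * Real.log 4) = ((m + 2 : ℕ) : ℝ) * Real.log (1 / 4) := by
      rw [hk, one_div, Real.log_inv]; push_cast; ring
    rw [h5, Real.exp_nat_mul, Real.exp_log (by norm_num)]
  exact h4

/-- product formula for the arithmetic factor -/
theorem aG_hasProd (k : ℕ) : HasProd (fun p : Nat.Primes => (1 - 1 / ((p : ℕ) : ℝ)) ^ (k ^ 2) *
    ∑' m : ℕ, ((m + k - 1).choose m : ℝ) ^ 2 / ((p : ℕ) : ℝ) ^ m) (aG (Fin k)) := by
  have hg : ∀ _ : Fin k, Good (pw 0) := fun _ => pw_good le_rfl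
  have hC : HasSum (fun p : Nat.Primes => (Real.log (1 - 1 / ((p : ℕ) : ℝ)) + 1 / ((p : ℕ) : ℝ))) C0 := by
    have : Summable fun p : Nat.Primes => (Real.log (1 - 1 / ((p : ℕ) : ℝ)) + 1 / ((p : ℕ) : ℝ)) := by
      have := Dr_summable (s := 0) le_rfl
      refine this.congr fun p => ?_
      have : ((p : ℕ) : ℝ) ^ (-(1 + 0) : ℝ) = 1 / ((p : ℕ) : ℝ) := by
        rw [add_zero, Real.rpow_neg_one, one_div]
      rw [this]
    exact this.hasSum
  have h1 := ((hC.mul_left ((Fintype.card (Fin k) : ℝ) * Fintype.card (Fin k))).add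
    (rho_summable hg hg).hasSum).rexp
  have h2 : (fun p : Nat.Primes => (1 - 1 / ((p : ℕ) : ℝ)) ^ (k ^ 2) *
      ∑' m : ℕ, ((m + k - 1).choose m : ℝ) ^ 2 / ((p : ℕ) : ℝ) ^ m) =
      Real.exp ∘ fun p : Nat.Primes => (Fintype.card (Fin k) : ℝ) * Fintype.card (Fin k) *
        (Real.log (1 - 1 / ((p : ℕ) : ℝ)) + 1 / ((p : ℕ) : ℝ)) +
        rho (fun _ : Fin k => pw 0) (fun _ => pw 0) p := by
    funext p
    have hp2 : (2 : ℝ) ≤ ((p : ℕ) : ℝ) := by exact_mod_cast p.2.two_le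
    have hp0 : (0 : ℝ) < 1 - 1 / ((p : ℕ) : ℝ) := by
      have : 1 / ((p : ℕ) : ℝ) ≤ 1 / 2 := by gcongr
      linarith
    have e1 : ∑' m : ℕ, ((m + k - 1).choose m : ℝ) ^ 2 / ((p : ℕ) : ℝ) ^ m =
        lfG (fun _ : Fin k => pw 0) (fun _ => pw 0) p := by
      unfold lfG
      refine tsum_congr fun m => ?_
      have : pr (fun _ : Fin k => pw 0) ((p : ℕ) ^ m) = ((m + k - 1).choose m : ℝ) := by
        rw [pr, Finset.prod_const, Finset.card_univ, Fintype.card_fin, pw_zero_pow_apply _ p.2]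
      rw [this, sq]
    have e2 : UG (fun _ : Fin k => pw 0) (fun _ => pw 0) (p : ℕ) = (k : ℝ) * k / ((p : ℕ) : ℝ) := by
      unfold UG
      simp only [pw_apply_of_ne p.2.ne_zero, neg_zero, Real.rpow_zero, mul_one]
      rw [Finset.sum_const, Finset.card_univ, Fintype.card_prod, Fintype.card_fin, nsmul_eq_mul]
      push_cast; ring
    have e3 : (1 - 1 / ((p : ℕ) : ℝ)) ^ (k ^ 2) =
        Real.exp ((k : ℝ) * k * Real.log (1 - 1 / ((p : ℕ) : ℝ))) := by
      rw [← Real.rpow_natCast, Real.rpow_def_of_pos hp0]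
      congr 1; push_cast; ring
    rw [e1, lfG_eq_exp hg hg p.2, e2, e3, ← Real.exp_add]
    simp only [Function.comp_apply, Fintype.card_fin]
    congr 1
    ring
  rw [h2]
  exact h1

end Pool.Agent.ZetaMoment
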