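import Pool.Agent.Lib_MP_112ba8.EulerLim2

/-!
Correlation sums of convolution products of general multiplicative functions with values in
`[0,1]`: Euler product and limits.
-/

namespace Pool.Agent.ZetaMoment

open Finset Filter Topology ArithmeticFunction

/-- multiplicative functions with values between `0` and `1` -/
structure Good (f : ArithmeticFunction ℝ) : Prop where
  mult : f.IsMultiplicative
  nonneg : ∀ n, 0 ≤ f n
  le : ∀ n, f n ≤ pw 0 n

lemma pw_good {x : ℝ} (hx : 0 ≤ x) : Good (pw x) := ⟨pw_mult x, pw_nonneg x, pw_anti hx⟩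

variable {ι : Type} [Fintype ι]

/-- Dirichlet convolution of a family -/
noncomputable def pr (f : ι → ArithmeticFunction ℝ) : ArithmeticFunction ℝ := ∏ i, f i

lemma pr_nonneg {f : ι → ArithmeticFunction ℝ} (hf : ∀ i, Good (f i)) (n : ℕ) : 0 ≤ pr f n :=
  prod_nonneg' _ (fun i n => (hf i).nonneg n) n

lemma pr_mult {f : ι → ArithmeticFunction ℝ} (hf : ∀ i, Good (f i)) : (pr f).IsMultiplicative :=
  prod_mult _ fun i => (hf i).mult

lemma pr_prime {f : ι → ArithmeticFunction ℝ} (hf : ∀ i, Good (f i)) {p : ℕ} (hp : p.Prime) :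
    pr f p = ∑ i, f i p :=
  prod_apply_prime _ (fun i => (hf i).mult) hp

lemma pr_le {f : ι → ArithmeticFunction ℝ} (hf : ∀ i, Good (f i)) (n : ℕ) :
    pr f n ≤ ((pw 0) ^ (Fintype.card ι)) n := by
  have := prod_le_prod' (Finset.univ : Finset ι) (f := f) (g := fun _ => pw 0)
    (fun i n => (hf i).nonneg n) (fun i n => (hf i).le n) n
  rwa [Finset.prod_const, Finset.card_univ] at this

lemma pr_prime_pow_le {f : ι → ArithmeticFunction ℝ} (hf : ∀ i, Good (f i)) {p : ℕ}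
    (hp : p.Prime) (e : ℕ) : pr f (p ^ e) ≤ ((e + Fintype.card ι - 1).choose e : ℝ) := by
  rw [← pw_zero_pow_apply _ hp]
  exact pr_le hf _

lemma prod_tendsto {α κ : Type} {l : Filter α} (s : Finset κ) {f : α → κ → ArithmeticFunction ℝ}
    {g : κ → ArithmeticFunction ℝ} (h : ∀ i n, Tendsto (fun a => f a i n) l (𝓝 (g i n))) (n : ℕ) :
    Tendsto (fun a => (∏ i ∈ s, f a i) n) l (𝓝 ((∏ i ∈ s, g i) n)) := by
  classical
  induction s using Finset.induction_on generalizing n with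
  | empty => simpa using tendsto_const_nhds
  | insert a s ha ih =>
    simp only [Finset.prod_insert ha, ArithmeticFunction.mul_apply]
    exact tendsto_finsetSum _ fun q _ => (h a q.1).mul (ih q.2)

lemma pr_tendsto {α : Type} {l : Filter α} {f : α → ι → ArithmeticFunction ℝ}
    (h : ∀ i n, Tendsto (fun a => f a i n) l (𝓝 (pw 0 n))) (n : ℕ) :
    Tendsto (fun a => pr (f a) n) l (𝓝 (pr (fun _ : ι => pw 0) n)) :=
  prod_tendsto _ h n

/-- local factor -/
noncomputable def lfG (f g : ι → ArithmeticFunction ℝ) (p : ℕ) : ℝ :=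
  ∑' e : ℕ, pr f (p ^ e) * pr g (p ^ e) / (p : ℝ) ^ e

/-- first order term of the local factor -/
noncomputable def UG (f g : ι → ArithmeticFunction ℝ) (p : ℕ) : ℝ :=
  ∑ q : ι × ι, f q.1 p * g q.2 p / p

/-- remainder of the logarithm of the local factor -/
noncomputable def rho (f g : ι → ArithmeticFunction ℝ) (p : ℕ) : ℝ :=
  Real.log (lfG f g p) - UG f g p

lemma lfG_term_nonneg {f g : ι → ArithmeticFunction ℝ} (hf : ∀ i, Good (f i))
    (hg : ∀ i, Good (g i)) (p e : ℕ) : 0 ≤ pr f (p ^ e) * pr g (p ^ e) / (p : ℝ) ^ e :=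
  div_nonneg (mul_nonneg (pr_nonneg hf _) (pr_nonneg hg _)) (by positivity)

lemma lfG_term_le {f g : ι → ArithmeticFunction ℝ} (hf : ∀ i, Good (f i))
    (hg : ∀ i, Good (g i)) {p : ℕ} (hp : p.Prime) (e : ℕ) :
    pr f (p ^ e) * pr g (p ^ e) / (p : ℝ) ^ e
      ≤ ((e + Fintype.card ι - 1).choose e : ℝ) ^ 2 * (1 / (p : ℝ) ^ e) := by
  rw [div_eq_mul_one_div, sq]
  gcongr
  · exact pr_nonneg hg _
  · exact pr_prime_pow_le hf hp e
  · exact pr_prime_pow_le hg hp e

lemma lfG_term_le' {f g : ι → ArithmeticFunction ℝ} (hf : ∀ i, Good (f i))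
    (hg : ∀ i, Good (g i)) {p : ℕ} (hp : p.Prime) (e : ℕ) :
    pr f (p ^ e) * pr g (p ^ e) / (p : ℝ) ^ e
      ≤ ((e + Fintype.card ι - 1).choose e : ℝ) ^ 2 * (1 / 2) ^ e :=
  (lfG_term_le hf hg hp e).trans (by gcongr; exact inv_pow_le hp e)

lemma lfG_summable {f g : ι → ArithmeticFunction ℝ} (hf : ∀ i, Good (f i))
    (hg : ∀ i, Good (g i)) {p : ℕ} (hp : p.Prime) :
    Summable fun e : ℕ => pr f (p ^ e) * pr g (p ^ e) / (p : ℝ) ^ e :=
  Summable.of_nonneg_of_le (fun e => lfG_term_nonneg hf hg p e) (fun e => lfG_term_le' hf hg hp e)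
    (summable_choose_sq _)

lemma good_prime_le_one {f : ArithmeticFunction ℝ} (hf : Good f) {p : ℕ} (hp : p.Prime) :
    f p ≤ 1 := by
  have := hf.le p
  rwa [pw_apply_of_ne hp.ne_zero, neg_zero, Real.rpow_zero] at this

lemma UG_nonneg {f g : ι → ArithmeticFunction ℝ} (hf : ∀ i, Good (f i))
    (hg : ∀ i, Good (g i)) (p : ℕ) : 0 ≤ UG f g p :=
  Finset.sum_nonneg fun q _ => div_nonneg (mul_nonneg ((hf _).nonneg _) ((hg _).nonneg _))
    (by positivity)

lemma UG_le {f g : ι → ArithmeticFunction ℝ} (hf : ∀ i, Good (f i))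
    (hg : ∀ i, Good (g i)) {p : ℕ} (hp : p.Prime) :
    UG f g p ≤ (Fintype.card ι : ℝ) * Fintype.card ι / p := by
  calc UG f g p ≤ ∑ q : ι × ι, 1 / (p : ℝ) := by
        refine Finset.sum_le_sum fun q _ => ?_
        have h1 := good_prime_le_one (hf q.1) hp
        have h2 := good_prime_le_one (hg q.2) hp
        have h3 := (hf q.1).nonneg p
        have h4 := (hg q.2).nonneg p
        have : f q.1 p * g q.2 p ≤ 1 := by nlinarith
        gcongr
    _ = _ := by
        rw [Finset.sum_const, Finset.card_univ, Fintype.card_prod, nsmul_eq_mul]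
        push_cast; ring

lemma lfG_expand {f g : ι → ArithmeticFunction ℝ} (hf : ∀ i, Good (f i))
    (hg : ∀ i, Good (g i)) {p : ℕ} (hp : p.Prime) :
    ∃ E : ℝ, 0 ≤ E ∧ E ≤ 4 * Cc (Fintype.card ι) / (p : ℝ) ^ 2 ∧
      lfG f g p = 1 + UG f g p + E := by
  have hp0 : (0 : ℝ) < p := by exact_mod_cast hp.pos
  have hs := lfG_summable hf hg hp
  refine ⟨∑' e : ℕ, pr f (p ^ (e + 2)) * pr g (p ^ (e + 2)) / (p : ℝ) ^ (e + 2), ?_, ?_, ?_⟩
  · exact tsum_nonneg fun e => lfG_term_nonneg hf hg p (e + 2)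
  · have hs2 : Summable fun e : ℕ => pr f (p ^ (e + 2)) * pr g (p ^ (e + 2)) / (p : ℝ) ^ (e + 2) :=
      (summable_nat_add_iff (f := fun e : ℕ => pr f (p ^ e) * pr g (p ^ e) / (p : ℝ) ^ e) 2).mpr hs
    have hc := summable_choose_sq (Fintype.card ι)
    have hc2 := (summable_nat_add_iff (f := fun e : ℕ =>
      ((e + Fintype.card ι - 1).choose e : ℝ) ^ 2 * (1 / 2 : ℝ) ^ e) 2).mpr hc
    calc ∑' e : ℕ, pr f (p ^ (e + 2)) * pr g (p ^ (e + 2)) / (p : ℝ) ^ (e + 2)
        ≤ ∑' e : ℕ, 4 / (p : ℝ) ^ 2 *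
          (((e + 2 + Fintype.card ι - 1).choose (e + 2) : ℝ) ^ 2 * (1 / 2 : ℝ) ^ (e + 2)) := by
          refine Summable.tsum_le_tsum (fun e => ?_) hs2 (hc2.mul_left _)
          refine (lfG_term_le hf hg hp (e + 2)).trans ?_
          have h1 := inv_pow_le hp e
          have h2 : 1 / (p : ℝ) ^ (e + 2) ≤ 4 / (p : ℝ) ^ 2 * (1 / 2) ^ (e + 2) := by
            calc 1 / (p : ℝ) ^ (e + 2) = 1 / (p : ℝ) ^ 2 * (1 / (p : ℝ) ^ e) := by
                  rw [pow_add]; field_simp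
              _ ≤ 1 / (p : ℝ) ^ 2 * (1 / 2) ^ e := by gcongr
              _ = _ := by rw [pow_add]; ring
          calc ((e + 2 + Fintype.card ι - 1).choose (e + 2) : ℝ) ^ 2 * (1 / (p : ℝ) ^ (e + 2))
              ≤ ((e + 2 + Fintype.card ι - 1).choose (e + 2) : ℝ) ^ 2
                * (4 / (p : ℝ) ^ 2 * (1 / 2) ^ (e + 2)) := by gcongr
            _ = _ := by ring
      _ = 4 / (p : ℝ) ^ 2 * ∑' e : ℕ,
          (((e + 2 + Fintype.card ι - 1).choose (e + 2) : ℝ) ^ 2 * (1 / 2 : ℝ) ^ (e + 2)) :=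
          tsum_mul_left
      _ ≤ 4 / (p : ℝ) ^ 2 * Cc (Fintype.card ι) := by
          gcongr
          rw [Cc, ← hc.sum_add_tsum_nat_add 2]
          have : 0 ≤ ∑ i ∈ range 2, ((i + Fintype.card ι - 1).choose i : ℝ) ^ 2 * (1 / 2 : ℝ) ^ i :=
            Finset.sum_nonneg fun i _ => by positivity
          linarith
      _ = _ := by ring
  · rw [lfG, ← hs.sum_add_tsum_nat_add 2]
    congr 1
    rw [Finset.sum_range_succ, Finset.sum_range_one, pow_zero, (pr_mult hf).1, (pr_mult hg).1, pow_one,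
      pr_prime hf hp, pr_prime hg hp, pow_zero, pow_one, Finset.sum_mul_sum, UG,
      Fintype.sum_prod_type, Finset.sum_div]
    simp only [Finset.sum_div]
    norm_num

/-- constant in the bound for `rho` -/
noncomputable def Kr (k : ℕ) : ℝ := ((k : ℝ) * k + 4 * Cc k) ^ 2 + 4 * Cc k

lemma rho_bound {f g : ι → ArithmeticFunction ℝ} (hf : ∀ i, Good (f i))
    (hg : ∀ i, Good (g i)) {p : ℕ} (hp : p.Prime) :
    |rho f g p| ≤ Kr (Fintype.card ι) * (1 / (p : ℝ) ^ 2) := by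
  obtain ⟨E, hE0, hE1, hE⟩ := lfG_expand hf hg hp
  have hp1 : (1 : ℝ) ≤ p := by exact_mod_cast hp.one_lt.le
  have hp0 : (0 : ℝ) < p := by linarith
  set k := Fintype.card ι
  have hU0 := UG_nonneg hf hg p
  have hU1 := UG_le hf hg hp
  set U := UG f g p with hU
  have hC := Cc_nonneg k
  have hy0 : 0 ≤ U + E := by linarith
  have hE2 : 4 * Cc k / (p : ℝ) ^ 2 ≤ 4 * Cc k / p := by
    apply div_le_div_of_nonneg_left (by positivity) hp0
    nlinarith
  have hy1 : U + E ≤ ((k : ℝ) * k + 4 * Cc k) / p := by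
    rw [add_div]; linarith
  have hy2 : (U + E) ^ 2 ≤ ((k : ℝ) * k + 4 * Cc k) ^ 2 / (p : ℝ) ^ 2 := by
    rw [← div_pow]; gcongr
  have hlog1 : Real.log (1 + (U + E)) ≤ U + E := by
    have := Real.log_le_sub_one_of_pos (show 0 < 1 + (U + E) by linarith)
    linarith
  have hlog2 : (U + E) - (U + E) ^ 2 ≤ Real.log (1 + (U + E)) := by
    have h1 := Real.one_sub_inv_le_log_of_pos (show 0 < 1 + (U + E) by linarith)
    refine le_trans ?_ h1
    have h2 : 1 - (1 + (U + E))⁻¹ = (U + E) / (1 + (U + E)) := by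
      have : (1 + (U + E)) ≠ 0 := by linarith
      field_simp
      ring
    rw [h2, le_div_iff₀ (by linarith)]
    nlinarith [pow_nonneg hy0 3]
  have e1 : rho f g p = Real.log (1 + (U + E)) - U := by
    rw [rho, hE, ← hU]; ring_nf
  rw [e1, abs_le]
  have e2 : Kr k * (1 / (p : ℝ) ^ 2) = ((k : ℝ) * k + 4 * Cc k) ^ 2 / (p : ℝ) ^ 2 +
      4 * Cc k / (p : ℝ) ^ 2 := by rw [Kr]; ring
  rw [e2]
  have h9 : 0 ≤ 4 * Cc k / (p : ℝ) ^ 2 := by positivity
  constructor
  · linarith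
  · linarith [sq_nonneg (U + E)]

lemma lfG_pos {f g : ι → ArithmeticFunction ℝ} (hf : ∀ i, Good (f i))
    (hg : ∀ i, Good (g i)) {p : ℕ} (hp : p.Prime) : 1 ≤ lfG f g p := by
  obtain ⟨E, hE0, _, hE⟩ := lfG_expand hf hg hp
  rw [hE]
  linarith [UG_nonneg hf hg p]

lemma lfG_eq_exp {f g : ι → ArithmeticFunction ℝ} (hf : ∀ i, Good (f i))
    (hg : ∀ i, Good (g i)) {p : ℕ} (hp : p.Prime) :
    lfG f g p = Real.exp (UG f g p + rho f g p) := by
  rw [rho, add_sub_cancel, Real.exp_log]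
  linarith [lfG_pos hf hg hp]

lemma rho_summable {f g : ι → ArithmeticFunction ℝ} (hf : ∀ i, Good (f i))
    (hg : ∀ i, Good (g i)) : Summable fun p : Nat.Primes => rho f g p :=
  Summable.of_norm_bounded (primes_summable.mul_left (Kr (Fintype.card ι))) fun p => by
    rw [Real.norm_eq_abs]; exact rho_bound hf hg p.2

/-- pairwise summability -/
def PSum (f g : ι → ArithmeticFunction ℝ) : Prop :=
  ∀ i j, Summable fun p : Nat.Primes => f i p * g j p / ((p : ℕ) : ℝ)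

lemma UG_summable {f g : ι → ArithmeticFunction ℝ} (h : PSum f g) :
    Summable fun p : Nat.Primes => UG f g p :=
  summable_sum fun q _ => h q.1 q.2

lemma UG_tsum {f g : ι → ArithmeticFunction ℝ} (h : PSum f g) :
    ∑' p : Nat.Primes, UG f g p = ∑ q : ι × ι, ∑' p : Nat.Primes, f q.1 p * g q.2 p / ((p : ℕ) : ℝ) :=
  Summable.tsum_finsetSum fun q _ => h q.1 q.2

lemma lfG_hasProd {f g : ι → ArithmeticFunction ℝ} (hf : ∀ i, Good (f i))
    (hg : ∀ i, Good (g i)) (h : PSum f g) :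
    HasProd (fun p : Nat.Primes => lfG f g p)
      (Real.exp (∑' p : Nat.Primes, UG f g p + ∑' p : Nat.Primes, rho f g p)) := by
  have h1 := ((UG_summable h).hasSum.add (rho_summable hf hg).hasSum).rexp
  have h2 : (fun p : Nat.Primes => lfG f g p) =
      Real.exp ∘ fun p : Nat.Primes => UG f g p + rho f g p := by
    funext p
    exact lfG_eq_exp hf hg p.2
  rw [h2]
  exact h1

/-- the terms of the correlation sum -/
noncomputable def tG (f g : ι → ArithmeticFunction ℝ) (n : ℕ) : ℝ := pr f n * pr g n / n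

/-- the correlation sum -/
noncomputable def FG (f g : ι → ArithmeticFunction ℝ) : ℝ := ∑' n : ℕ, tG f g n

lemma tG_nonneg {f g : ι → ArithmeticFunction ℝ} (hf : ∀ i, Good (f i))
    (hg : ∀ i, Good (g i)) (n : ℕ) : 0 ≤ tG f g n :=
  div_nonneg (mul_nonneg (pr_nonneg hf _) (pr_nonneg hg _)) (by positivity)

lemma tG_zero (f g : ι → ArithmeticFunction ℝ) : tG f g 0 = 0 := by simp [tG]

lemma tG_one {f g : ι → ArithmeticFunction ℝ} (hf : ∀ i, Good (f i))
    (hg : ∀ i, Good (g i)) : tG f g 1 = 1 := by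
  simp [tG, (pr_mult hf).1, (pr_mult hg).1]

lemma tG_mul {f g : ι → ArithmeticFunction ℝ} (hf : ∀ i, Good (f i))
    (hg : ∀ i, Good (g i)) {m n : ℕ} (h : m.Coprime n) :
    tG f g (m * n) = tG f g m * tG f g n := by
  simp only [tG]
  rw [(pr_mult hf).2 h, (pr_mult hg).2 h]
  push_cast
  rw [mul_comm (m : ℝ) n]
  ring

lemma tG_prime_pow (f g : ι → ArithmeticFunction ℝ) (p e : ℕ) :
    tG f g (p ^ e) = pr f (p ^ e) * pr g (p ^ e) / (p : ℝ) ^ e := by
  simp only [tG]; push_cast; rfl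

lemma lfG_eq (f g : ι → ArithmeticFunction ℝ) (p : ℕ) :
    ∑' e : ℕ, tG f g (p ^ e) = lfG f g p := by
  simp only [tG_prime_pow, lfG]

lemma tG_summable {f g : ι → ArithmeticFunction ℝ} (hf : ∀ i, Good (f i))
    (hg : ∀ i, Good (g i)) (h : PSum f g) : Summable (tG f g) := by
  classical
  have hP := lfG_hasProd hf hg h
  set V := Real.exp (∑' p : Nat.Primes, UG f g p + ∑' p : Nat.Primes, rho f g p)
  have hmono : Monotone fun s : Finset Nat.Primes => ∏ p ∈ s, lfG f g p := by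
    intro s t hst
    exact Finset.prod_le_prod_of_subset_of_one_le hst
      (fun p _ => zero_le_one.trans (lfG_pos hf hg p.2)) (fun p _ _ => lfG_pos hf hg p.2)
  have hle : ∀ s : Finset Nat.Primes, ∏ p ∈ s, lfG f g p ≤ V := fun s => hmono.ge_of_tendsto hP s
  refine summable_of_sum_range_le (c := V) (tG_nonneg hf hg) fun N => ?_
  have hsum : ∀ {p : ℕ}, p.Prime → Summable fun e : ℕ => ‖tG f g (p ^ e)‖ := by
    intro p hp
    simp only [tG_prime_pow, Real.norm_of_nonneg (lfG_term_nonneg hf hg _ _)]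
    exact lfG_summable hf hg hp
  have hsm := EulerProduct.summable_and_hasSum_smoothNumbers_prod_primesBelow_tsum
    (f := tG f g) (tG_one hf hg) (fun h => tG_mul hf hg h) hsum N
  have h1 : ∑ n ∈ range N, tG f g n ≤ ∏ p ∈ N.primesBelow, ∑' e : ℕ, tG f g (p ^ e) := by
    rw [← hsm.2.tsum_eq]
    have h2 : ∑ n ∈ range N, tG f g n = ∑ n ∈ (range N).filter (fun n => n ∈ N.smoothNumbers), tG f g n := by
      rw [Finset.sum_filter_of_ne]
      intro n hn h0
      have hn0 : 0 < n := by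
        rcases Nat.eq_zero_or_pos n with h | h
        · exfalso; apply h0; simp [tG, h]
        · exact h
      exact Nat.mem_smoothNumbers_of_lt hn0 (Finset.mem_range.mp hn)
    rw [h2]
    have hs3 : Summable fun m : N.smoothNumbers => tG f g m := hsm.2.summable
    have h4 := hs3.sum_le_tsum (((range N).filter (fun n => n ∈ N.smoothNumbers)).subtype (fun n => n ∈ N.smoothNumbers))
      (fun m _ => tG_nonneg hf hg m)
    refine le_trans (le_of_eq ?_) h4
    rw [Finset.sum_subtype_of_mem (fun n => tG f g n)]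
    intro n hn
    exact (Finset.mem_filter.mp hn).2
  refine h1.trans ?_
  have h5 : ∏ p ∈ N.primesBelow, ∑' e : ℕ, tG f g (p ^ e)
      = ∏ p ∈ N.primesBelow.subtype Nat.Prime, lfG f g p := by
    rw [Finset.prod_subtype_of_mem (fun p => lfG f g p)]
    · exact Finset.prod_congr rfl fun p _ => lfG_eq f g p
    · intro p hp; exact Nat.prime_of_mem_primesBelow hp
  rw [h5]
  exact hle _

lemma FG_eq {f g : ι → ArithmeticFunction ℝ} (hf : ∀ i, Good (f i))
    (hg : ∀ i, Good (g i)) (h : PSum f g) :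
    FG f g = Real.exp (∑' p : Nat.Primes, UG f g p + ∑' p : Nat.Primes, rho f g p) := by
  have hs := tG_summable hf hg h
  have h1 : HasProd (fun p : Nat.Primes => ∑' e, tG f g ((p : ℕ) ^ e)) (∑' n, tG f g n) :=
    EulerProduct.eulerProduct_hasProd (f := tG f g) (tG_one hf hg) (fun h => tG_mul hf hg h)
      (hs.congr fun n => (Real.norm_of_nonneg (tG_nonneg hf hg n)).symm) (tG_zero f g)
  simp only [lfG_eq] at h1
  exact h1.unique (lfG_hasProd hf hg h)

/-- Mertens-type constant -/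
noncomputable def C0 : ℝ :=
  ∑' p : Nat.Primes, (Real.log (1 - 1 / ((p : ℕ) : ℝ)) + 1 / ((p : ℕ) : ℝ))

/-- the arithmetic factor -/
noncomputable def aG (ι : Type) [Fintype ι] : ℝ :=
  Real.exp ((Fintype.card ι : ℝ) * Fintype.card ι * C0 +
    ∑' p : Nat.Primes, rho (fun _ : ι => pw 0) (fun _ => pw 0) p)

lemma lfG_tendsto {f g : ℝ → ι → ArithmeticFunction ℝ} {l : Filter ℝ}
    (hf : ∀ᶠ L in l, ∀ i, Good (f L i)) (hg : ∀ᶠ L in l, ∀ i, Good (g L i))
    (hf' : ∀ i n, Tendsto (fun L => f L i n) l (𝓝 (pw 0 n)))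
    (hg' : ∀ i n, Tendsto (fun L => g L i n) l (𝓝 (pw 0 n))) {p : ℕ} (hp : p.Prime) :
    Tendsto (fun L => lfG (f L) (g L) p) l (𝓝 (lfG (fun _ : ι => pw 0) (fun _ => pw 0) p)) := by
  unfold lfG
  refine tendsto_tsum_of_dominated_convergence (summable_choose_sq (Fintype.card ι)) (fun e => ?_) ?_
  · exact ((pr_tendsto hf' _).mul (pr_tendsto hg' _)).div_const _
  · filter_upwards [hf, hg] with L h1 h2 e
    rw [Real.norm_of_nonneg (lfG_term_nonneg h1 h2 _ _)]
    exact lfG_term_le' h1 h2 hp e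

lemma rho_tendsto {f g : ℝ → ι → ArithmeticFunction ℝ} {l : Filter ℝ}
    (hf : ∀ᶠ L in l, ∀ i, Good (f L i)) (hg : ∀ᶠ L in l, ∀ i, Good (g L i))
    (hf' : ∀ i n, Tendsto (fun L => f L i n) l (𝓝 (pw 0 n)))
    (hg' : ∀ i n, Tendsto (fun L => g L i n) l (𝓝 (pw 0 n))) {p : ℕ} (hp : p.Prime) :
    Tendsto (fun L => rho (f L) (g L) p) l (𝓝 (rho (fun _ : ι => pw 0) (fun _ => pw 0) p)) := by
  unfold rho
  have h0 : ∀ _ : ι, Good (pw 0) := fun _ => pw_good le_rfl
  refine Tendsto.sub ?_ ?_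
  · refine (lfG_tendsto hf hg hf' hg' hp).log ?_
    have := lfG_pos h0 h0 hp
    linarith
  · unfold UG
    exact tendsto_finsetSum _ fun q _ => ((hf' _ _).mul (hg' _ _)).div_const _

lemma rho_tsum_tendsto {f g : ℝ → ι → ArithmeticFunction ℝ} {l : Filter ℝ}
    (hf : ∀ᶠ L in l, ∀ i, Good (f L i)) (hg : ∀ᶠ L in l, ∀ i, Good (g L i))
    (hf' : ∀ i n, Tendsto (fun L => f L i n) l (𝓝 (pw 0 n)))
    (hg' : ∀ i n, Tendsto (fun L => g L i n) l (𝓝 (pw 0 n))) :
    Tendsto (fun L => ∑' p : Nat.Primes, rho (f L) (g L) p) l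
      (𝓝 (∑' p : Nat.Primes, rho (fun _ : ι => pw 0) (fun _ => pw 0) p)) := by
  refine tendsto_tsum_of_dominated_convergence (primes_summable.mul_left (Kr (Fintype.card ι)))
    (fun p => rho_tendsto hf hg hf' hg' p.2) ?_
  filter_upwards [hf, hg] with L h1 h2 p
  rw [Real.norm_eq_abs]
  exact rho_bound h1 h2 p.2

/-- Main limit lemma, general version. -/
theorem FG_tendsto {f g : ℝ → ι → ArithmeticFunction ℝ} {ℓ : ι → ι → ℝ}
    (hf : ∀ᶠ L in atTop, ∀ i, Good (f L i)) (hg : ∀ᶠ L in atTop, ∀ i, Good (g L i))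
    (hf' : ∀ i n, Tendsto (fun L => f L i n) atTop (𝓝 (pw 0 n)))
    (hg' : ∀ i n, Tendsto (fun L => g L i n) atTop (𝓝 (pw 0 n)))
    (hs : ∀ᶠ L in atTop, PSum (f L) (g L))
    (hℓ : ∀ i j, Tendsto (fun L : ℝ => (∑' p : Nat.Primes, f L i p * g L j p / ((p : ℕ) : ℝ)) -
      Real.log L) atTop (𝓝 (C0 + ℓ i j))) :
    Tendsto (fun L : ℝ => FG (f L) (g L) / L ^ (Fintype.card ι * Fintype.card ι)) atTop
      (𝓝 (aG ι * Real.exp (∑ q : ι × ι, ℓ q.1 q.2))) := by
  have h1 : Tendsto (fun L : ℝ => ∑ q : ι × ι, ((∑' p : Nat.Primes, f L q.1 p * g L q.2 p /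
      ((p : ℕ) : ℝ)) - Real.log L)) atTop (𝓝 (∑ q : ι × ι, (C0 + ℓ q.1 q.2))) :=
    tendsto_finsetSum _ fun q _ => hℓ q.1 q.2
  have h2 := (h1.add (rho_tsum_tendsto hf hg hf' hg')).rexp
  have h3 : aG ι * Real.exp (∑ q : ι × ι, ℓ q.1 q.2) = Real.exp (∑ q : ι × ι, (C0 + ℓ q.1 q.2) +
      ∑' p : Nat.Primes, rho (fun _ : ι => pw 0) (fun _ => pw 0) p) := by
    rw [aG, ← Real.exp_add, Finset.sum_add_distrib, Finset.sum_const, Finset.card_univ,
      Fintype.card_prod, nsmul_eq_mul]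
    push_cast
    congr 1; ring
  rw [h3]
  refine h2.congr' ?_
  filter_upwards [hf, hg, hs, eventually_gt_atTop (0 : ℝ)] with L e1 e2 e3 hL
  rw [FG_eq e1 e2 e3, UG_tsum e3, Finset.sum_sub_distrib, Finset.sum_const, Finset.card_univ,
    Fintype.card_prod, nsmul_eq_mul, sub_add_eq_add_sub, Real.exp_sub]
  congr 1
  rw [mul_comm, Real.exp_mul, Real.exp_log hL, Real.rpow_natCast]

end Pool.Agent.ZetaMoment
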