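import Pool.Agent.Lib_MP_112ba8.Lower
import Pool.Agent.Lib_MP_112ba8.Consts

/-!
The limit of the lower bound as `T → ∞`.
-/

namespace Pool.Agent.ZetaMoment

open Finset Filter Topology MeasureTheory Complex

/-- sum of the logarithmic constants -/
noncomputable def SS {ι : Type} [Fintype ι] (κ : ℝ) (E F : ι → ℕ × ℝ) : ℝ :=
  ∑ q : ι × ι, el κ ((E q.1).1 + (F q.2).1) ((E q.1).2 + (F q.2).2)

/-- limit of the mixed main term -/
noncomputable def nn (m : ℕ) (κ ε y ν h h₂ : ℝ) : ℝ :=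
  Real.exp (SS κ (E0 m y) (EY m ν y)) -
    Real.exp (-((1 - ε) * h₂)) * Real.exp (SS κ (E0 m y) (EY m (ν - h₂) (y - h₂))) -
    (m + 1) * Real.exp (-((1 - ε) * h / (m + 2))) * Real.exp (SS κ (E1 m y (y - h)) (EY m ν y))

theorem limit_lower (m : ℕ) {κ ε y ν h h₂ ρ τ B : ℝ} (hκ : 0 ≤ κ) (hε : 0 < ε) (hε1 : ε < 1)
    (hy : 0 < y) (hν : 0 < ν) (hh : 0 ≤ h) (hhy : h ≤ y) (hh₂ : 0 ≤ h₂) (hh₂ν : h₂ < ν)
    (hh₂y : h₂ < y) (hρ : 0 ≤ ρ) (hτ : 0 ≤ τ)
    (hB : B < aG (Fin (m + 2)) * Wm * ((m + 2) * τ ^ (m + 1) * (2 * ρ * nn m κ ε y ν h h₂ -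
      ρ ^ 2 * Real.exp (SS κ (EY m ν y) (EY m ν y))) -
      (m + 1) * τ ^ (m + 2) * Real.exp (SS κ (EV m y) (EV m y)))) : ∀ᶠ T : ℝ in atTop,
    B * Real.log T ^ ((m + 2) * (m + 2)) ≤
      (1 / T) * ∫ t in (0 : ℝ)..T, ‖riemannZeta (1 / 2 + t * I)‖ ^ (2 * (m + 2)) := by
  set A := aG (Fin (m + 2)) with hA
  have p0 : ∀ i, 0 ≤ (E0 m y i).2 := E0_forall (P := fun e => 0 ≤ e.2) le_rfl hy.le
  have p1 : ∀ i, 0 ≤ (E1 m y (y - h) i).2 :=
    E1_forall (P := fun e => 0 ≤ e.2) le_rfl hy.le (sub_nonneg.mpr hhy)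
  have pY : ∀ i, 0 < (EY m ν y i).2 := EY_forall (P := fun e => 0 < e.2) hν hy
  have pY2 : ∀ i, 0 < (EY m (ν - h₂) (y - h₂) i).2 :=
    EY_forall (P := fun e => 0 < e.2) (sub_pos.mpr hh₂ν) (sub_pos.mpr hh₂y)
  have pV : ∀ i, 0 < (EV m y i).2 := fun _ => hy
  have t1 := fam_tendsto hκ p0 (fun i => (pY i).le) (fun i j => by linarith [p0 i, pY j])
  have t2 := fam_tendsto hκ p0 (fun i => (pY2 i).le) (fun i j => by linarith [p0 i, pY2 j])
  have t3 := fam_tendsto hκ p1 (fun i => (pY i).le) (fun i j => by linarith [p1 i, pY j])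
  have t4 := fam_tendsto hκ (fun i => (pV i).le) (fun i => (pV i).le) (fun i j => add_pos (pV i) (pV j))
  have t5 := fam_tendsto hκ (fun i => (pY i).le) (fun i => (pY i).le) (fun i j => add_pos (pY i) (pY j))
  simp only [Fintype.card_fin] at t1 t2 t3 t4 t5
  -- in terms of `L`
  set K := (m + 2) * (m + 2) with hK
  have hK0 : K ≠ 0 := by positivity
  have tN : Tendsto (fun L : ℝ => NL m κ ε y ν h h₂ L / L ^ K) atTop
      (𝓝 (A * nn m κ ε y ν h h₂)) := by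
    have := (t1.sub (t2.const_mul (Real.exp (-((1 - ε) * h₂))))).sub
      (t3.const_mul ((m + 1) * Real.exp (-((1 - ε) * h / (m + 2)))))
    refine (this.congr fun L => ?_).trans (le_of_eq ?_)
    · rw [NL]; ring
    · congr 1
      rw [nn, SS, SS, SS]; ring
  have tV : Tendsto (fun L : ℝ => VL m κ y L / L ^ K) atTop
      (𝓝 (A * Real.exp (SS κ (EV m y) (EV m y)))) := t4
  have tQ : Tendsto (fun L : ℝ => QL m κ y ν L / L ^ K) atTop
      (𝓝 (A * Real.exp (SS κ (EY m ν y) (EY m ν y)))) := t5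
  have tinv : Tendsto (fun L : ℝ => 1 / L ^ K) atTop (𝓝 0) := by
    have := (tendsto_pow_atTop (α := ℝ) hK0).inv_tendsto_atTop
    exact this.congr fun L => by simp
  have tlog := Real.tendsto_log_atTop
  have tη : Tendsto (fun T : ℝ => 21 * T ^ (-(1 / 4) : ℝ)) atTop (𝓝 0) := by
    have := (tendsto_rpow_neg_atTop (show (0 : ℝ) < 1 / 4 by norm_num)).const_mul 21
    simpa using this
  -- in terms of `T`
  have uI : Tendsto (fun T : ℝ => Wm * (NL m κ ε y ν h h₂ (Real.log T) / Real.log T ^ K) -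
      1 / Real.log T ^ K) atTop (𝓝 (Wm * (A * nn m κ ε y ν h h₂) - 0)) :=
    ((tN.comp tlog).const_mul Wm).sub (tinv.comp tlog)
  have uV : Tendsto (fun T : ℝ => Wm * (VL m κ y (Real.log T) / Real.log T ^ K) +
      1 / Real.log T ^ K) atTop (𝓝 (Wm * (A * Real.exp (SS κ (EV m y) (EV m y))) + 0)) :=
    ((tV.comp tlog).const_mul Wm).add (tinv.comp tlog)
  have uQ : Tendsto (fun T : ℝ => Wm * (QL m κ y ν (Real.log T) / Real.log T ^ K) +
      1 / Real.log T ^ K) atTop (𝓝 (Wm * (A * Real.exp (SS κ (EY m ν y) (EY m ν y))) + 0)) :=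
    ((tQ.comp tlog).const_mul Wm).add (tinv.comp tlog)
  have uW : Tendsto (fun T : ℝ => Wm * (1 / Real.log T ^ K)) atTop (𝓝 (Wm * 0)) :=
    (tinv.comp tlog).const_mul Wm
  have uE := ((((uI.sub (tη.mul ((uW.add uV).add uQ))).const_mul (2 * ρ)).sub
    (uQ.const_mul (ρ ^ 2))).const_mul ((m + 2) * τ ^ (m + 1))).sub
    (uV.const_mul ((m + 1) * τ ^ (m + 2)))
  have hlim : ((m : ℝ) + 2) * τ ^ (m + 1) * (2 * ρ * (Wm * (A * nn m κ ε y ν h h₂) - 0 -
      0 * (Wm * 0 + (Wm * (A * Real.exp (SS κ (EV m y) (EV m y))) + 0) +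
      (Wm * (A * Real.exp (SS κ (EY m ν y) (EY m ν y))) + 0))) -
      ρ ^ 2 * (Wm * (A * Real.exp (SS κ (EY m ν y) (EY m ν y))) + 0)) -
      (m + 1) * τ ^ (m + 2) * (Wm * (A * Real.exp (SS κ (EV m y) (EV m y))) + 0) =
      A * Wm * ((m + 2) * τ ^ (m + 1) * (2 * ρ * nn m κ ε y ν h h₂ -
      ρ ^ 2 * Real.exp (SS κ (EY m ν y) (EY m ν y))) -
      (m + 1) * τ ^ (m + 2) * Real.exp (SS κ (EV m y) (EV m y))) := by ring
  rw [hlim] at uE
  have hev := uE.eventually (lt_mem_nhds hB)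
  filter_upwards [hev, lower_T m hκ hε hε1 hy hν hh hhy hh₂ hh₂ν hh₂y hρ hτ,
    eventually_gt_atTop (1 : ℝ)] with T h1 h2 hT
  have hL : 0 < Real.log T := Real.log_pos hT
  have hP : 0 < Real.log T ^ K := by positivity
  refine le_trans ?_ h2
  have h3 := (mul_lt_mul_of_pos_right h1 hP).le
  refine h3.trans (le_of_eq ?_)
  rw [EE]
  field_simp

end Pool.Agent.ZetaMoment
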