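import Pool.Agent.Lib_MP_112ba8.Rankin2

/-!
The lower bound at height `T`, general weights, and its limit.
-/

namespace Pool.Agent.ZetaMoment

open Finset Filter Topology MeasureTheory Complex

/-- the lower-bound expression -/
noncomputable def EE (m : ℕ) (ρ τ η I V Q : ℝ) : ℝ :=
  (m + 2) * τ ^ (m + 1) * (2 * ρ * (I - η * (Wm + V + Q)) - ρ ^ 2 * Q) - (m + 1) * τ ^ (m + 2) * V

lemma EE_mono (m : ℕ) {ρ τ η I V Q I' V' Q' : ℝ} (hρ : 0 ≤ ρ) (hτ : 0 ≤ τ) (hη : 0 ≤ η)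
    (hI : I' ≤ I) (hV : V ≤ V') (hQ : Q ≤ Q') : EE m ρ τ η I' V' Q' ≤ EE m ρ τ η I V Q := by
  unfold EE
  gcongr

/-- main term of the mixed sum -/
noncomputable def NL (m : ℕ) (κ ε y ν h h₂ L : ℝ) : ℝ :=
  FG (fam κ (E0 m y) L) (fam κ (EY m ν y) L) -
    Real.exp (-((1 - ε) * h₂)) * FG (fam κ (E0 m y) L) (fam κ (EY m (ν - h₂) (y - h₂)) L) -
    (m + 1) * Real.exp (-((1 - ε) * h / (m + 2))) *
      FG (fam κ (E1 m y (y - h)) L) (fam κ (EY m ν y) L)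

noncomputable def VL (m : ℕ) (κ y L : ℝ) : ℝ := FG (fam κ (EV m y) L) (fam κ (EV m y) L)

noncomputable def QL (m : ℕ) (κ y ν L : ℝ) : ℝ := FG (fam κ (EY m ν y) L) (fam κ (EY m ν y) L)

lemma rpow_exp_eq {T a z : ℝ} (hT : 1 < T) : (T ^ a) ^ (-(z / Real.log T)) = Real.exp (-(a * z)) := by
  have hT0 : 0 < T := by linarith
  have hL : 0 < Real.log T := Real.log_pos hT
  rw [← Real.rpow_mul hT0.le, Real.rpow_def_of_pos hT0]
  congr 1
  field_simp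

theorem lower_T (m : ℕ) {κ ε y ν h h₂ ρ τ : ℝ} (hκ : 0 ≤ κ) (hε : 0 < ε) (hε1 : ε < 1) (hy : 0 < y)
    (hν : 0 < ν) (hh : 0 ≤ h) (hhy : h ≤ y) (hh₂ : 0 ≤ h₂) (hh₂ν : h₂ < ν) (hh₂y : h₂ < y)
    (hρ : 0 ≤ ρ) (hτ : 0 ≤ τ) : ∀ᶠ T : ℝ in atTop,
    EE m ρ τ (21 * T ^ (-(1 / 4) : ℝ)) (Wm * NL m κ ε y ν h h₂ (Real.log T) - 1)
      (Wm * VL m κ y (Real.log T) + 1) (Wm * QL m κ y ν (Real.log T) + 1) ≤
      (1 / T) * ∫ t in (0 : ℝ)..T, ‖riemannZeta (1 / 2 + t * I)‖ ^ (2 * (m + 2)) := by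
  filter_upwards [mv_asymp (m + 2) hε hε1, eventually_ge_atTop (4 : ℝ)] with T hmv hT4
  have hT0 : 0 < T := by linarith
  have hT1 : 1 < T := by linarith
  have hT1' : 1 ≤ T := by linarith
  have hL : 0 < Real.log T := Real.log_pos hT1
  set L := Real.log T with hLdef
  set N : ℕ := ⌊T ^ ((1 - ε) / (m + 2))⌋₊ with hN
  set X : ℕ := ⌊T ^ (1 - ε)⌋₊ with hX
  set M : ℕ := ⌈T ^ (3 / 2 : ℝ)⌉₊ with hM
  set a := bb κ (1, y) L with ha
  have hag : Good a := bb_good hκ hy.le hL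
  set b := tr N a with hb
  set f1 : ArithmeticFunction ℝ := tr M (pw 0) * b ^ (m + 1) with hf1
  set Y := pr (fam κ (EY m ν y) L) with hYdef
  have pY : ∀ i, 0 < (EY m ν y i).2 := EY_forall (P := fun e => 0 < e.2) hν hy
  have pV : ∀ i, 0 < (EV m y i).2 := fun _ => hy
  have gY := fam_good hκ (fun i => (pY i).le) hL
  have gV := fam_good hκ (fun i => (pV i).le) hL
  have hbsupp : Supp b N := tr_supp N _
  have hb0 : ∀ n, 0 ≤ b n := fun n => tr_nonneg hag.nonneg n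
  have hble : ∀ n, b n ≤ a n := fun n => tr_le hag.nonneg n
  have hble0 : ∀ n, b n ≤ pw 0 n := fun n => (hble n).trans (hag.le n)
  -- sizes
  have hm2 : (0 : ℝ) < (m : ℝ) + 2 := by positivity
  have hNr : (N : ℝ) ≤ T ^ ((1 - ε) / (m + 2)) := Nat.floor_le (by positivity)
  have hXr : (X : ℝ) ≤ T ^ (1 - ε) := Nat.floor_le (by positivity)
  have hN1 : 1 ≤ N := Nat.le_floor (by
    rw [Nat.cast_one]
    exact Real.one_le_rpow hT1' (div_nonneg (by linarith) hm2.le))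
  have hX1 : 1 ≤ X := Nat.le_floor (by
    rw [Nat.cast_one]
    exact Real.one_le_rpow hT1' (by linarith))
  have h32 : (1 : ℝ) ≤ T ^ (3 / 2 : ℝ) := Real.one_le_rpow hT1' (by norm_num)
  have hMlo : T ^ (3 / 2 : ℝ) ≤ M := Nat.le_ceil _
  have hMhi : (M : ℝ) ≤ 2 * T ^ (3 / 2 : ℝ) := by
    have := (Nat.ceil_lt_add_one (by positivity : 0 ≤ T ^ (3 / 2 : ℝ))).le
    linarith
  have hXM : X ≤ M := by
    have : (X : ℝ) ≤ M := by
      calc (X : ℝ) ≤ T ^ (1 - ε) := hXr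
        _ ≤ T ^ (3 / 2 : ℝ) := Real.rpow_le_rpow_of_exponent_le hT1' (by linarith)
        _ ≤ M := hMlo
    exact_mod_cast this
  have hXM1 : X ≤ M * N ^ (m + 1) := hXM.trans (Nat.le_mul_of_pos_right _ (by positivity))
  have hNk : ((N ^ (m + 2) : ℕ) : ℝ) ≤ T ^ (1 - ε) := by
    push_cast
    calc (N : ℝ) ^ (m + 2) ≤ (T ^ ((1 - ε) / (m + 2))) ^ (m + 2) := by gcongr
      _ = T ^ (1 - ε) := by
          rw [← Real.rpow_natCast, ← Real.rpow_mul hT0.le]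
          congr 1
          push_cast
          field_simp
  have hNk3 : ((N ^ (m + 2) : ℕ) : ℝ) ≤ T ^ (3 : ℝ) :=
    hNk.trans (Real.rpow_le_rpow_of_exponent_le hT1' (by linarith))
  have hX3 : (X : ℝ) ≤ T ^ (3 : ℝ) :=
    hXr.trans (Real.rpow_le_rpow_of_exponent_le hT1' (by linarith))
  have hMN : ((M * N ^ (m + 1) : ℕ) : ℝ) ≤ T ^ (3 : ℝ) := by
    have h1 : ((N ^ (m + 1) : ℕ) : ℝ) ≤ T := by
      have h2 : N ^ (m + 1) ≤ N ^ (m + 2) := Nat.pow_le_pow_right hN1 (by omega)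
      have h3 : ((N ^ (m + 1) : ℕ) : ℝ) ≤ ((N ^ (m + 2) : ℕ) : ℝ) := by exact_mod_cast h2
      calc ((N ^ (m + 1) : ℕ) : ℝ) ≤ T ^ (1 - ε) := h3.trans hNk
        _ ≤ T ^ (1 : ℝ) := Real.rpow_le_rpow_of_exponent_le hT1' (by linarith)
        _ = T := Real.rpow_one T
    have h2 : (2 : ℝ) ≤ T ^ (1 / 2 : ℝ) := by
      calc (2 : ℝ) = (4 : ℝ) ^ (1 / 2 : ℝ) := by
            rw [show (4 : ℝ) = 2 ^ (2 : ℝ) by norm_num, ← Real.rpow_mul (by norm_num)]; norm_num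
        _ ≤ T ^ (1 / 2 : ℝ) := by gcongr
    have h3 : ((M * N ^ (m + 1) : ℕ) : ℝ) ≤ (2 * T ^ (3 / 2 : ℝ)) * T := by
      rw [Nat.cast_mul]
      gcongr
    refine h3.trans ?_
    calc (2 * T ^ (3 / 2 : ℝ)) * T ≤ (T ^ (1 / 2 : ℝ) * T ^ (3 / 2 : ℝ)) * T ^ (1 : ℝ) := by
          rw [Real.rpow_one]; gcongr
      _ = T ^ (3 : ℝ) := by rw [← Real.rpow_add hT0, ← Real.rpow_add hT0]; norm_num
  -- coefficient bounds
  have hbk0 : ∀ j n, 0 ≤ (b ^ j) n := fun j n => pow_nonneg'' hb0 j n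
  have hbk1 : ∀ j n, (b ^ j) n ≤ (pw 0 ^ j) n := fun j n => pow_le_pow'' hb0 hble0 j n
  have hbk : ∀ n ∈ Icc 1 (N ^ (m + 2)), |(b ^ (m + 2)) n| ≤ (n : ℝ) ^ (m + 2) := by
    intro n _
    rw [abs_of_nonneg (hbk0 _ n)]
    exact (hbk1 _ n).trans (dk_le _ n)
  have htr0 : ∀ n, 0 ≤ tr M (pw 0) n := fun n => tr_nonneg (pw_nonneg 0) n
  have hf1b : ∀ n ∈ Icc 1 (M * N ^ (m + 1)), |f1 n| ≤ (n : ℝ) ^ (m + 2) := by
    intro n _
    have h0 : 0 ≤ f1 n := mul_nonneg' htr0 (hbk0 _) n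
    rw [abs_of_nonneg h0]
    have h1 : f1 n ≤ (pw 0 * pw 0 ^ (m + 1) : ArithmeticFunction ℝ) n :=
      mul_le_mul' htr0 (hbk0 _) (fun n => tr_le (pw_nonneg 0) n) (hbk1 _) n
    rw [← pow_succ'] at h1
    exact h1.trans (dk_le _ n)
  have hyb : ∀ n ∈ Icc 1 X, |Y n| ≤ (n : ℝ) ^ (m + 2) := by
    intro n _
    rw [abs_of_nonneg (pr_nonneg gY _)]
    have h1 := pr_le gY n
    rw [Fintype.card_fin] at h1
    exact h1.trans (dk_le _ n)
  -- the three mean values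
  have mvV := hmv (b ^ (m + 2) : ArithmeticFunction ℝ) (b ^ (m + 2) : ArithmeticFunction ℝ)
    (N ^ (m + 2)) (N ^ (m + 2)) hbk hbk hNk3 hNk
  have mvQ := hmv Y Y X X hyb hyb hX3 hXr
  have mvI := hmv f1 Y (M * N ^ (m + 1)) X hf1b hyb hMN hXr
  rw [min_self] at mvV mvQ
  rw [min_eq_right hXM1] at mvI
  -- V
  have hV : (1 / T) * (∫ t : ℝ, wt (t / T) * ‖DP b N t ^ (m + 2)‖ ^ 2) ≤ Wm * VL m κ y L + 1 := by
    rw [real_of_sq, ← ofReal_sub, norm_real, Real.norm_eq_abs] at mvV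
    have h1 := (abs_le.mp mvV).2
    have h2 : ∑ n ∈ Icc 1 (N ^ (m + 2)), (b ^ (m + 2) : ArithmeticFunction ℝ) n *
        (b ^ (m + 2) : ArithmeticFunction ℝ) n / n ≤ VL m κ y L := by
      refine le_trans (Finset.sum_le_sum fun n _ => ?_) (rankinG_upper gV gV
        (fam_psum hκ (fun i j => add_pos (pV i) (pV j)) hL) (N ^ (m + 2)))
      have h3 : (b ^ (m + 2) : ArithmeticFunction ℝ) n ≤ pr (fam κ (EV m y) L) n := by
        rw [pr_fam_EV]; exact pow_le_pow'' hb0 hble _ n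
      have h4 := hbk0 (m + 2) n
      unfold tG
      gcongr
      exact pr_nonneg gV _
    have h3 := mul_le_mul_of_nonneg_left h2 Wm_pos.le
    have h4 : ∀ t : ℝ, DP (b ^ (m + 2) : ArithmeticFunction ℝ) (N ^ (m + 2)) t = DP b N t ^ (m + 2) :=
      fun t => DP_pow hbsupp (m + 2) t
    simp only [h4] at h1
    linarith
  have hQ : (1 / T) * (∫ t : ℝ, wt (t / T) * ‖DP Y X t‖ ^ 2) ≤ Wm * QL m κ y ν L + 1 := by
    rw [real_of_sq, ← ofReal_sub, norm_real, Real.norm_eq_abs] at mvQ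
    have h1 := (abs_le.mp mvQ).2
    have h2 : ∑ n ∈ Icc 1 X, Y n * Y n / n ≤ QL m κ y ν L :=
      rankinG_upper gY gY (fam_psum hκ (fun i j => add_pos (pY i) (pY j)) hL) X
    have h3 := mul_le_mul_of_nonneg_left h2 Wm_pos.le
    linarith
  have hIc : Wm * NL m κ ε y ν h h₂ L - 1 ≤ (1 / T) * (∫ t : ℝ, wt (t / T) *
      (DP (fun _ => 1) M t * DP b N t ^ (m + 1) * (starRingEnd ℂ) (DP Y X t)).re) := by
    have h4 : ∀ t : ℝ, DP f1 (M * N ^ (m + 1)) t = DP (fun _ => 1) M t * DP b N t ^ (m + 1) := by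
      intro t
      rw [hf1, DP_mul (tr_supp M _) (hbsupp.pow _), DP_pow hbsupp]
      congr 1
      unfold DP
      refine Finset.sum_congr rfl fun n hn => ?_
      have hn' := Finset.mem_Icc.mp hn
      rw [tr_apply, if_pos hn'.2, pw_apply_of_ne (by omega)]
      simp
    simp only [h4] at mvI
    have h5 : Continuous fun t : ℝ => DP (fun _ => 1) M t * DP b N t ^ (m + 1) *
        (starRingEnd ℂ) (DP Y X t) :=
      ((DP_cont _ _).mul ((DP_cont _ _).pow _)).mul (continuous_conj.comp (DP_cont _ _))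
    rw [← re_of_pair hT0 h5]
    have h6 := (abs_le.mp ((abs_re_le_norm _).trans mvI)).1
    rw [sub_re, ofReal_re] at h6
    have h7 : NL m κ ε y ν h h₂ L ≤ ∑ n ∈ Icc 1 X, f1 n * Y n / n := by
      have h8 := numG_lower (m := m) (κ := κ) (y := y) (ν := ν) (h := h) (h₂ := h₂) (L := L)
        (Nr := T ^ ((1 - ε) / (m + 2))) (Xr := T ^ (1 - ε)) (N := N) (M := M) (X := X)
        hκ hL hy hν hh hhy hh₂ hh₂ν hh₂y
        (by positivity) (fun n hn => (Nat.lt_of_floor_lt hn).le) (by positivity)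
        (fun n hn => (Nat.lt_of_floor_lt hn).le) hXM
      rw [rpow_exp_eq hT1, rpow_exp_eq hT1] at h8
      have h9 : (1 - ε) / ((m : ℝ) + 2) * h = (1 - ε) * h / (m + 2) := by ring
      rw [h9] at h8
      exact h8
    have h8 := mul_le_mul_of_nonneg_left h7 Wm_pos.le
    linarith
  have hint := integrated m (ρ := ρ) (τ := τ) (η := 21 * T ^ (-(1 / 4) : ℝ)) hT0 hρ hτ
    (by positivity) (DP_cont (fun _ => 1) M) (DP_cont b N) (DP_cont Y X)
    (fun t ht => zeta_approx_asymp hT1' ht)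
  refine le_trans ?_ hint
  exact EE_mono m hρ hτ (by positivity) hIc hV hQ

end Pool.Agent.ZetaMoment
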