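import Pool.Agent.Lib_MP_112ba8.Analytic

/-!
Assembly of the lower bound.
-/

namespace Pool.Agent.ZetaMoment

open Finset Filter Topology MeasureTheory Complex

/-- product of inverse sums -/
noncomputable def PP {ι : Type} [Fintype ι] (x y : ι → ℝ) : ℝ :=
  ∏ q : ι × ι, (x q.1 + y q.2)⁻¹

lemma lin4 {u1 u2 u3 u4 : ℝ → ℝ} (h1 : Integrable u1) (h2 : Integrable u2) (h3 : Integrable u3)
    (h4 : Integrable u4) (a1 a2 a3 a4 : ℝ) :
    (Integrable fun t => a1 * u1 t + a2 * u2 t + a3 * u3 t + a4 * u4 t) ∧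
    ∫ t, (a1 * u1 t + a2 * u2 t + a3 * u3 t + a4 * u4 t) =
      a1 * (∫ t, u1 t) + a2 * (∫ t, u2 t) + a3 * (∫ t, u3 t) + a4 * (∫ t, u4 t) := by
  have k1 := h1.const_mul a1
  have k2 := h2.const_mul a2
  have k3 := h3.const_mul a3
  have k4 := h4.const_mul a4
  have k12 : Integrable fun t => a1 * u1 t + a2 * u2 t := k1.add k2
  have k123 : Integrable fun t => a1 * u1 t + a2 * u2 t + a3 * u3 t := k12.add k3
  refine ⟨k123.add k4, ?_⟩
  rw [integral_add k123 k4, integral_add k12 k3, integral_add k1 k2, integral_const_mul,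
    integral_const_mul, integral_const_mul, integral_const_mul]

lemma integrated (m : ℕ) {T ρ τ η : ℝ} (hT : 0 < T) (hρ : 0 ≤ ρ) (hτ : 0 ≤ τ) (hη : 0 ≤ η)
    {Z B D : ℝ → ℂ} (hZ : Continuous Z) (hB : Continuous B) (hD : Continuous D)
    (happ : ∀ t ∈ Set.Icc (T / 4) T, ‖riemannZeta (1 / 2 + t * I) - Z t‖ ≤ η) :
    (m + 2) * τ ^ (m + 1) * (2 * ρ * ((1 / T) * (∫ t : ℝ, wt (t / T) *
      (Z t * B t ^ (m + 1) * (starRingEnd ℂ) (D t)).re) -
      η * (Wm + (1 / T) * (∫ t : ℝ, wt (t / T) * ‖B t ^ (m + 2)‖ ^ 2) +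
        (1 / T) * (∫ t : ℝ, wt (t / T) * ‖D t‖ ^ 2))) -
      ρ ^ 2 * ((1 / T) * ∫ t : ℝ, wt (t / T) * ‖D t‖ ^ 2)) -
      (m + 1) * τ ^ (m + 2) * ((1 / T) * ∫ t : ℝ, wt (t / T) * ‖B t ^ (m + 2)‖ ^ 2) ≤
      (1 / T) * ∫ t in (0 : ℝ)..T, ‖riemannZeta (1 / 2 + t * I)‖ ^ (2 * (m + 2)) := by
  set f : ℝ → ℝ := fun t => ‖riemannZeta (1 / 2 + t * I)‖ ^ (2 * (m + 2)) with hf
  have hfc : Continuous f := (zeta_cont.norm).pow _
  have hf0 : ∀ t, 0 ≤ f t := fun t => by positivity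
  have j1 : Integrable fun t => wt (t / T) * (Z t * B t ^ (m + 1) * (starRingEnd ℂ) (D t)).re :=
    integrable_w_real hT (continuous_re.comp ((hZ.mul (hB.pow _)).mul (continuous_conj.comp hD)))
  have j2 : Integrable fun t => wt (t / T) * (1 : ℝ) := integrable_w_real hT continuous_const
  have j3 : Integrable fun t => wt (t / T) * ‖B t ^ (m + 2)‖ ^ 2 :=
    integrable_w_real hT (((hB.pow _).norm).pow 2)
  have j4 : Integrable fun t => wt (t / T) * ‖D t‖ ^ 2 := integrable_w_real hT ((hD.norm).pow 2)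
  have j5 : Integrable fun t => wt (t / T) * f t := integrable_w_real hT hfc
  set i1 := ∫ t : ℝ, wt (t / T) * (Z t * B t ^ (m + 1) * (starRingEnd ℂ) (D t)).re
  set i3 := ∫ t : ℝ, wt (t / T) * ‖B t ^ (m + 2)‖ ^ 2
  set i4 := ∫ t : ℝ, wt (t / T) * ‖D t‖ ^ 2
  have i2 : ∫ t : ℝ, wt (t / T) * (1 : ℝ) = T * Wm := by
    simp only [mul_one]
    rw [Measure.integral_comp_div (fun x => wt x) T, abs_of_pos hT, smul_eq_mul]; rfl
  set a1 := ((m : ℝ) + 2) * τ ^ (m + 1) * (2 * ρ) with ha1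
  set a2 := -(((m : ℝ) + 2) * τ ^ (m + 1) * (2 * ρ * η)) with ha2
  set a3 := -(((m : ℝ) + 2) * τ ^ (m + 1) * (2 * ρ * η)) - (m + 1) * τ ^ (m + 2) with ha3
  set a4 := -(((m : ℝ) + 2) * τ ^ (m + 1) * (2 * ρ * η + ρ ^ 2)) with ha4
  have hpt : ∀ t : ℝ, a1 * (wt (t / T) * (Z t * B t ^ (m + 1) * (starRingEnd ℂ) (D t)).re) +
      a2 * (wt (t / T) * 1) + a3 * (wt (t / T) * ‖B t ^ (m + 2)‖ ^ 2) +
      a4 * (wt (t / T) * ‖D t‖ ^ 2) ≤ wt (t / T) * f t := by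
    intro t
    by_cases ht : t ∈ Set.Icc (T / 4) T
    · have h1 := pointwise m hρ hτ hη (B := B t) (D := D t) (happ t ht)
      have h2 := mul_le_mul_of_nonneg_left h1 (wt_nonneg (t / T))
      refine le_trans (le_of_eq ?_) h2
      rw [ha1, ha2, ha3, ha4]; ring
    · rw [wt_scale_zero hT ht]; simp
  have hint : a1 * i1 + a2 * (T * Wm) + a3 * i3 + a4 * i4 ≤ ∫ t : ℝ, wt (t / T) * f t := by
    have h1 := lin4 j1 j2 j3 j4 a1 a2 a3 a4
    rw [i2] at h1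
    rw [← h1.2]
    exact integral_mono h1.1 j5 hpt
  have hle : ∫ t : ℝ, wt (t / T) * f t ≤ ∫ t in (0 : ℝ)..T, f t := by
    rw [intervalIntegral.integral_of_le hT.le]
    have h1 : ∫ t in Set.Ioc 0 T, wt (t / T) * f t = ∫ t : ℝ, wt (t / T) * f t := by
      refine setIntegral_eq_integral_of_forall_compl_eq_zero fun t ht => ?_
      have : t ∉ Set.Icc (T / 4) T := by
        intro h; apply ht
        exact ⟨lt_of_lt_of_le (by positivity) h.1, h.2⟩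
      rw [wt_scale_zero hT this, zero_mul]
    rw [← h1]
    refine setIntegral_mono_on j5.integrableOn ?_ measurableSet_Ioc fun t _ => ?_
    · exact (hfc.integrableOn_Icc (a := 0) (b := T)).mono_set Set.Ioc_subset_Icc_self
    · have := wt_le_one (t / T)
      nlinarith [hf0 t]
  have hfin := mul_le_mul_of_nonneg_left (hint.trans hle) (by positivity : 0 ≤ 1 / T)
  refine le_trans (le_of_eq ?_) hfin
  rw [ha1, ha2, ha3, ha4]
  have : (1 / T) * (T * Wm) = Wm := by field_simp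
  have h3 : Wm = (1 / T) * (T * Wm) := this.symm
  calc _ = (↑m + 2) * τ ^ (m + 1) * (2 * ρ * (1 / T * i1 - η * ((1 / T) * (T * Wm) + 1 / T * i3 + 1 / T * i4))
      - ρ ^ 2 * (1 / T * i4)) - (↑m + 1) * τ ^ (m + 2) * (1 / T * i3) := by rw [this]
    _ = _ := by ring

lemma real_of_sq {T : ℝ} (F : ℝ → ℂ) :
    (1 / T : ℂ) * (∫ t : ℝ, (wt (t / T) : ℂ) * (F t * (starRingEnd ℂ) (F t))) =
      (((1 / T) * ∫ t : ℝ, wt (t / T) * ‖F t‖ ^ 2 : ℝ) : ℂ) := by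
  have h1 : ∀ t : ℝ, (wt (t / T) : ℂ) * (F t * (starRingEnd ℂ) (F t)) =
      ((wt (t / T) * ‖F t‖ ^ 2 : ℝ) : ℂ) := by
    intro t
    rw [Complex.mul_conj, Complex.normSq_eq_norm_sq]
    push_cast; ring
  rw [integral_congr_ae (ae_of_all _ h1), integral_complex_ofReal]
  push_cast; ring

lemma re_of_pair {T : ℝ} (hT : 0 < T) {F : ℝ → ℂ} (hF : Continuous F) :
    ((1 / T : ℂ) * (∫ t : ℝ, (wt (t / T) : ℂ) * F t)).re =
      (1 / T) * ∫ t : ℝ, wt (t / T) * (F t).re := by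
  have h1 : (1 / T : ℂ) = ((1 / T : ℝ) : ℂ) := by push_cast; ring
  rw [h1, re_ofReal_mul]
  congr 1
  have h2 := (reCLM.integral_comp_comm (integrable_w hT hF)).symm
  simp only [reCLM_apply] at h2
  rw [h2]
  refine integral_congr_ae (ae_of_all _ fun t => ?_)
  exact re_ofReal_mul _ _

end Pool.Agent.ZetaMoment
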