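import Mathlib

/-!
A smooth weight and the mean value lemma for Dirichlet polynomials.
-/

namespace Pool.Agent.ZetaMoment

open Finset Filter Topology MeasureTheory FourierTransform Complex

/-- the bump -/
noncomputable def wB : ContDiffBump (5 / 8 : ℝ) := ⟨1 / 8, 3 / 8, by norm_num, by norm_num⟩

/-- the weight -/
noncomputable def wt (x : ℝ) : ℝ := wB x

lemma wt_nonneg (x : ℝ) : 0 ≤ wt x := wB.nonneg

lemma wt_le_one (x : ℝ) : wt x ≤ 1 := wB.le_one

lemma wt_cont : Continuous wt := wB.continuous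

lemma wt_zero {x : ℝ} (h : x ≤ 1 / 4 ∨ 1 ≤ x) : wt x = 0 := by
  apply wB.zero_of_le_dist
  rw [Real.dist_eq]
  change (3 / 8 : ℝ) ≤ _
  rcases h with h | h
  · rw [abs_sub_comm]
    exact le_trans (by linarith) (le_abs_self _)
  · exact le_trans (by linarith) (le_abs_self _)

/-- total mass of the weight -/
noncomputable def Wm : ℝ := ∫ x, wt x

lemma Wm_pos : 0 < Wm := wB.integral_pos

/-- the weight as a Schwartz function -/
noncomputable def wS : SchwartzMap ℝ ℂ :=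
  HasCompactSupport.toSchwartzMap (f := fun x => (wt x : ℂ))
    (wB.hasCompactSupport.comp_left (g := fun x : ℝ => (x : ℂ)) (by simp))
    (Complex.ofRealCLM.contDiff.comp wB.contDiff)

lemma wS_apply (x : ℝ) : wS x = (wt x : ℂ) := rfl

lemma fourier_decay (A : ℕ) : ∃ C : ℝ, 0 < C ∧ ∀ ξ : ℝ, |ξ| ^ A * ‖𝓕 (fun x : ℝ => (wt x : ℂ)) ξ‖ ≤ C := by
  obtain ⟨C, hC, h⟩ := (𝓕 wS : SchwartzMap ℝ ℂ).decay A 0
  refine ⟨C, hC, fun ξ => ?_⟩
  have := h ξ
  rw [norm_iteratedFDeriv_zero, Real.norm_eq_abs] at this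
  exact this

lemma wt_scale_zero {T : ℝ} (hT : 0 < T) {t : ℝ} (h : t ∉ Set.Icc (T / 4) T) : wt (t / T) = 0 := by
  apply wt_zero
  rw [Set.mem_Icc, not_and_or] at h
  rcases h with h | h
  · left
    rw [div_le_iff₀ hT]; linarith
  · right
    rw [le_div_iff₀ hT]; linarith

lemma integrable_w {T : ℝ} (hT : 0 < T) {h : ℝ → ℂ} (hh : Continuous h) :
    Integrable fun t => (wt (t / T) : ℂ) * h t := by
  refine Continuous.integrable_of_hasCompactSupport ?_ ?_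
  · exact (continuous_ofReal.comp (wt_cont.comp (continuous_id.div_const T))).mul hh
  · refine HasCompactSupport.intro (isCompact_Icc (a := T / 4) (b := T)) fun t ht => ?_
    rw [wt_scale_zero hT ht]; simp

lemma integrable_w_real {T : ℝ} (hT : 0 < T) {h : ℝ → ℝ} (hh : Continuous h) :
    Integrable fun t => wt (t / T) * h t := by
  refine Continuous.integrable_of_hasCompactSupport ?_ ?_
  · exact (wt_cont.comp (continuous_id.div_const T)).mul hh
  · refine HasCompactSupport.intro (isCompact_Icc (a := T / 4) (b := T)) fun t ht => ?_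
    rw [wt_scale_zero hT ht]; simp

lemma osc_eq {T : ℝ} (hT : 0 < T) (u : ℝ) :
    ∫ t : ℝ, (wt (t / T) : ℂ) * cexp (-(t * u * I)) =
      T * 𝓕 (fun x : ℝ => (wt x : ℂ)) (T * u / (2 * Real.pi)) := by
  have h1 := Measure.integral_comp_div (fun x : ℝ => (wt x : ℂ) * cexp (-((T * x : ℝ) * u * I))) T
  rw [Real.fourier_real_eq_integral_exp_smul]
  have h2 : ∀ t : ℝ, (wt (t / T) : ℂ) * cexp (-(t * u * I)) =
      (wt (t / T) : ℂ) * cexp (-((T * (t / T) : ℝ) * u * I)) := by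
    intro t
    rw [mul_div_cancel₀ _ hT.ne']
  rw [integral_congr_ae (ae_of_all _ h2), h1, abs_of_pos hT, real_smul]
  congr 1
  refine integral_congr_ae (ae_of_all _ fun x => ?_)
  simp only [smul_eq_mul]
  rw [mul_comm]
  congr 2
  push_cast
  have : (Real.pi : ℂ) ≠ 0 := by exact_mod_cast Real.pi_ne_zero
  field_simp

lemma osc_zero {T : ℝ} (hT : 0 < T) :
    ∫ t : ℝ, (wt (t / T) : ℂ) = T * Wm := by
  have h1 := Measure.integral_comp_div (fun x : ℝ => (wt x : ℂ)) T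
  rw [h1, abs_of_pos hT, real_smul, Wm, integral_complex_ofReal]

lemma log_gap {m n : ℕ} (hm : 0 < m) (hn : 0 < n) (h : m ≠ n) :
    1 / ((n : ℝ) + 1) ≤ |Real.log m - Real.log n| := by
  have hm' : (0 : ℝ) < m := by exact_mod_cast hm
  have hn' : (0 : ℝ) < n := by exact_mod_cast hn
  rcases lt_or_gt_of_ne h with h | h
  · have h1 : (m : ℝ) + 1 ≤ n := by exact_mod_cast h
    have h2 := Real.one_sub_inv_le_log_of_pos (x := (n : ℝ) / m) (by positivity)
    rw [Real.log_div hn'.ne' hm'.ne', inv_div] at h2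
    rw [abs_sub_comm]
    refine le_trans ?_ (le_abs_self _)
    refine le_trans ?_ h2
    rw [div_le_iff₀ (by positivity), sub_mul, one_mul, div_mul_eq_mul_div, le_sub_comm,
      div_le_iff₀ hn']
    nlinarith
  · have h1 : (n : ℝ) + 1 ≤ m := by exact_mod_cast h
    have h2 := Real.one_sub_inv_le_log_of_pos (x := (m : ℝ) / n) (by positivity)
    rw [Real.log_div hm'.ne' hn'.ne', inv_div] at h2
    refine le_trans ?_ (le_abs_self _)
    refine le_trans ?_ h2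
    rw [div_le_iff₀ (by positivity), sub_mul, one_mul, div_mul_eq_mul_div, le_sub_comm,
      div_le_iff₀ hm']
    nlinarith

/-- Dirichlet polynomial on the critical line -/
noncomputable def DP (f : ℕ → ℝ) (M : ℕ) (t : ℝ) : ℂ :=
  ∑ n ∈ Icc 1 M, (f n : ℂ) * (n : ℂ) ^ (-(1 / 2 + t * I) : ℂ)

lemma DP_cont (f : ℕ → ℝ) (M : ℕ) : Continuous (DP f M) := by
  unfold DP
  refine continuous_finsetSum _ fun n hn => ?_
  have hn0 : (n : ℂ) ≠ 0 := by
    have := (Finset.mem_Icc.mp hn).1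
    exact_mod_cast (by omega : n ≠ 0)
  refine continuous_const.mul ?_
  refine Continuous.const_cpow ?_ (Or.inl hn0)
  fun_prop

lemma pow_term {n : ℕ} (hn : 0 < n) (t : ℝ) :
    (n : ℂ) ^ (-(1 / 2 + t * I) : ℂ) = ((n : ℝ) ^ (-(1 / 2) : ℝ) : ℝ) * cexp (-(t * Real.log n * I)) := by
  have hn0 : (n : ℂ) ≠ 0 := by exact_mod_cast hn.ne'
  have hn1 : (0 : ℝ) < n := by exact_mod_cast hn
  rw [neg_add, cpow_add _ _ hn0]
  congr 1
  · rw [ofReal_cpow hn1.le]; push_cast; rfl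
  · rw [cpow_def_of_ne_zero hn0, ← natCast_log]
    congr 1; ring

lemma pow_term_norm {n : ℕ} (hn : 0 < n) (t : ℝ) :
    ‖(n : ℂ) ^ (-(1 / 2 + t * I) : ℂ)‖ ≤ 1 := by
  have hn1 : (1 : ℝ) ≤ n := by exact_mod_cast hn
  rw [norm_natCast_cpow_of_pos hn]
  apply Real.rpow_le_one_of_one_le_of_nonpos hn1
  simp

lemma pair_eq {m n : ℕ} (hm : 0 < m) (hn : 0 < n) (t : ℝ) :
    (m : ℂ) ^ (-(1 / 2 + t * I) : ℂ) * (starRingEnd ℂ) ((n : ℂ) ^ (-(1 / 2 + t * I) : ℂ)) =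
      ((((m : ℝ) ^ (-(1 / 2) : ℝ)) * ((n : ℝ) ^ (-(1 / 2) : ℝ)) : ℝ) : ℂ) *
        cexp (-(t * (Real.log m - Real.log n : ℝ) * I)) := by
  rw [pow_term hm, pow_term hn, map_mul, conj_ofReal, ← exp_conj]
  simp only [map_neg, map_mul, conj_ofReal, conj_I]
  rw [mul_mul_mul_comm, ← Complex.exp_add]
  push_cast
  congr 2
  ring

theorem mean_value (A : ℕ) : ∃ C : ℝ, 0 < C ∧ ∀ T : ℝ, 0 < T → ∀ (f g : ℕ → ℝ) (M₁ M₂ : ℕ),
    ‖(1 / T : ℂ) * (∫ t : ℝ, (wt (t / T) : ℂ) * (DP f M₁ t * (starRingEnd ℂ) (DP g M₂ t))) -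
      (Wm * ∑ n ∈ Icc 1 (min M₁ M₂), f n * g n / n : ℝ)‖ ≤
      C * ((M₂ + 1) / T) ^ A * ((∑ n ∈ Icc 1 M₁, |f n|) * ∑ n ∈ Icc 1 M₂, |g n|) := by
  obtain ⟨C, hC, hdec⟩ := fourier_decay A
  refine ⟨C * (2 * Real.pi) ^ A, by positivity, fun T hT f g M₁ M₂ => ?_⟩
  set J : ℕ → ℕ → ℂ := fun m n => ∫ t : ℝ, (wt (t / T) : ℂ) *
    ((m : ℂ) ^ (-(1 / 2 + t * I) : ℂ) * (starRingEnd ℂ) ((n : ℂ) ^ (-(1 / 2 + t * I) : ℂ))) with hJ
  have hexp : ∫ t : ℝ, (wt (t / T) : ℂ) * (DP f M₁ t * (starRingEnd ℂ) (DP g M₂ t)) =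
      ∑ m ∈ Icc 1 M₁, ∑ n ∈ Icc 1 M₂, ((f m * g n : ℝ) : ℂ) * J m n := by
    have h1 : ∀ t : ℝ, (wt (t / T) : ℂ) * (DP f M₁ t * (starRingEnd ℂ) (DP g M₂ t)) =
        ∑ m ∈ Icc 1 M₁, ∑ n ∈ Icc 1 M₂, ((f m * g n : ℝ) : ℂ) * ((wt (t / T) : ℂ) *
    ((m : ℂ) ^ (-(1 / 2 + t * I) : ℂ) * (starRingEnd ℂ) ((n : ℂ) ^ (-(1 / 2 + t * I) : ℂ)))) := by
      intro t
      rw [DP, DP, map_sum, Finset.sum_mul_sum, Finset.mul_sum]
      refine Finset.sum_congr rfl fun m _ => ?_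
      rw [Finset.mul_sum]
      refine Finset.sum_congr rfl fun n _ => ?_
      rw [map_mul, conj_ofReal]
      push_cast
      ring
    rw [integral_congr_ae (ae_of_all _ h1)]
    have hint : ∀ m ∈ Icc 1 M₁, ∀ n ∈ Icc 1 M₂, Integrable fun t : ℝ =>
        ((f m * g n : ℝ) : ℂ) * ((wt (t / T) : ℂ) *
    ((m : ℂ) ^ (-(1 / 2 + t * I) : ℂ) * (starRingEnd ℂ) ((n : ℂ) ^ (-(1 / 2 + t * I) : ℂ)))) := by
      intro m hm n hn
      refine (integrable_w hT ?_).const_mul _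
      have hm0 : (m : ℂ) ≠ 0 := by
        have := (Finset.mem_Icc.mp hm).1
        exact_mod_cast (by omega : m ≠ 0)
      have hn0 : (n : ℂ) ≠ 0 := by
        have := (Finset.mem_Icc.mp hn).1
        exact_mod_cast (by omega : n ≠ 0)
      refine (Continuous.const_cpow (by fun_prop) (Or.inl hm0)).mul ?_
      exact continuous_conj.comp (Continuous.const_cpow (by fun_prop) (Or.inl hn0))
    rw [integral_finsetSum]
    · refine Finset.sum_congr rfl fun m hm => ?_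
      rw [integral_finsetSum]
      · refine Finset.sum_congr rfl fun n hn => ?_
        rw [integral_const_mul]
      · exact fun n hn => hint m hm n hn
    · exact fun m hm => integrable_finsetSum _ fun n hn => hint m hm n hn
  have hJdiag : ∀ m, 0 < m → J m m = ((T * (Wm / m) : ℝ) : ℂ) := by
    intro m hm
    have hm1 : (0 : ℝ) < m := by exact_mod_cast hm
    simp only [hJ, pair_eq hm hm]
    simp only [sub_self, ofReal_zero, mul_zero, zero_mul, neg_zero, Complex.exp_zero, mul_one]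
    rw [integral_mul_const, osc_zero hT, ← Real.rpow_add hm1]
    have : (-(1 / 2) + -(1 / 2) : ℝ) = -1 := by norm_num
    rw [this, Real.rpow_neg_one]
    push_cast
    ring
  have hJoff : ∀ m n, 0 < m → 0 < n → n ≤ M₂ → m ≠ n →
      ‖J m n‖ ≤ T * (C * (2 * Real.pi) ^ A * ((M₂ + 1) / T) ^ A) := by
    intro m n hm hn hnM hmn
    have hm1 : (1 : ℝ) ≤ m := by exact_mod_cast hm
    have hn1 : (1 : ℝ) ≤ n := by exact_mod_cast hn
    simp only [hJ, pair_eq hm hn]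
    have h1 : ∀ t : ℝ, (wt (t / T) : ℂ) * (((((m : ℝ) ^ (-(1 / 2) : ℝ)) *
        ((n : ℝ) ^ (-(1 / 2) : ℝ)) : ℝ) : ℂ) * cexp (-(t * (Real.log m - Real.log n : ℝ) * I))) =
        ((((m : ℝ) ^ (-(1 / 2) : ℝ)) * ((n : ℝ) ^ (-(1 / 2) : ℝ)) : ℝ) : ℂ) *
        ((wt (t / T) : ℂ) * cexp (-(t * (Real.log m - Real.log n : ℝ) * I))) := by
      intro t; ring
    rw [integral_congr_ae (ae_of_all _ h1), integral_const_mul, osc_eq hT, norm_mul, norm_mul,
      norm_real, norm_real, Real.norm_of_nonneg (by positivity), Real.norm_of_nonneg hT.le]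
    have h2 : (m : ℝ) ^ (-(1 / 2) : ℝ) * (n : ℝ) ^ (-(1 / 2) : ℝ) ≤ 1 :=
      mul_le_one₀ (Real.rpow_le_one_of_one_le_of_nonpos hm1 (by norm_num)) (by positivity)
        (Real.rpow_le_one_of_one_le_of_nonpos hn1 (by norm_num))
    have h3 : ‖𝓕 (fun x : ℝ => (wt x : ℂ)) (T * (Real.log m - Real.log n) / (2 * Real.pi))‖
        ≤ C * (2 * Real.pi) ^ A * ((M₂ + 1) / T) ^ A := by
      set ξ := T * (Real.log m - Real.log n) / (2 * Real.pi) with hξ
      have hgap := log_gap hm hn hmn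
      have hnM' : (n : ℝ) ≤ M₂ := by exact_mod_cast hnM
      have hgap2 : 1 / ((M₂ : ℝ) + 1) ≤ |Real.log m - Real.log n| :=
        le_trans (by gcongr) hgap
      have hξ1 : T / ((2 * Real.pi) * (M₂ + 1)) ≤ |ξ| := by
        rw [hξ, abs_div, abs_mul, abs_of_pos hT, abs_of_pos (by positivity : 0 < 2 * Real.pi)]
        calc T / ((2 * Real.pi) * (M₂ + 1)) = T * (1 / ((M₂ : ℝ) + 1)) / (2 * Real.pi) := by
              field_simp
          _ ≤ _ := by gcongr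
      have hd := hdec ξ
      have hpos : 0 < T / ((2 * Real.pi) * (M₂ + 1)) := by positivity
      have h4 : (T / ((2 * Real.pi) * (M₂ + 1))) ^ A * ‖𝓕 (fun x : ℝ => (wt x : ℂ)) ξ‖ ≤ C :=
        le_trans (by gcongr) hd
      rw [← le_div_iff₀' (by positivity)] at h4
      refine h4.trans (le_of_eq ?_)
      rw [div_pow, div_pow, mul_pow]
      field_simp
    calc (m : ℝ) ^ (-(1 / 2) : ℝ) * (n : ℝ) ^ (-(1 / 2) : ℝ) *
          (T * ‖𝓕 (fun x : ℝ => (wt x : ℂ)) (T * (Real.log m - Real.log n) / (2 * Real.pi))‖)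
        ≤ 1 * (T * (C * (2 * Real.pi) ^ A * ((M₂ + 1) / T) ^ A)) := by gcongr
      _ = _ := one_mul _
  -- the diagonal
  have hdiag : ((Wm * ∑ n ∈ Icc 1 (min M₁ M₂), f n * g n / n : ℝ) : ℂ) =
      (1 / T : ℂ) * ∑ m ∈ Icc 1 M₁, ∑ n ∈ Icc 1 M₂,
        (if m = n then ((f m * g n : ℝ) : ℂ) * J m n else 0) := by
    have h1 : ∀ m ∈ Icc 1 M₁, (∑ n ∈ Icc 1 M₂, if m = n then ((f m * g n : ℝ) : ℂ) * J m n else 0)
        = if m ≤ M₂ then ((f m * g m * (T * (Wm / m)) : ℝ) : ℂ) else 0 := by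
      intro m hm
      have hm1 := (Finset.mem_Icc.mp hm).1
      rw [Finset.sum_ite_eq]
      simp only [Finset.mem_Icc]
      by_cases h : m ≤ M₂
      · rw [if_pos ⟨hm1, h⟩, if_pos h, hJdiag m (by omega)]
        push_cast; ring
      · rw [if_neg (fun h' => h h'.2), if_neg h]
    rw [Finset.sum_congr rfl h1, ← Finset.sum_filter]
    have h2 : (Icc 1 M₁).filter (fun m => m ≤ M₂) = Icc 1 (min M₁ M₂) := by
      ext m; simp only [Finset.mem_filter, Finset.mem_Icc, le_min_iff]; tauto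
    rw [h2]
    have hT' : (T : ℂ) ≠ 0 := by exact_mod_cast hT.ne'
    push_cast
    rw [Finset.mul_sum, Finset.mul_sum]
    refine Finset.sum_congr rfl fun n _ => ?_
    field_simp
  rw [hexp, hdiag, ← mul_sub, ← Finset.sum_sub_distrib]
  simp only [← Finset.sum_sub_distrib]
  rw [norm_mul]
  have hTn : ‖(1 / T : ℂ)‖ = 1 / T := by
    rw [norm_div, norm_one, norm_real, Real.norm_of_nonneg hT.le]
  rw [hTn]
  have hbound : ‖∑ m ∈ Icc 1 M₁, ∑ n ∈ Icc 1 M₂, (((f m * g n : ℝ) : ℂ) * J m n -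
      if m = n then ((f m * g n : ℝ) : ℂ) * J m n else 0)‖ ≤
      ∑ m ∈ Icc 1 M₁, ∑ n ∈ Icc 1 M₂, |f m| * |g n| *
        (T * (C * (2 * Real.pi) ^ A * ((M₂ + 1) / T) ^ A)) := by
    refine (norm_sum_le _ _).trans (Finset.sum_le_sum fun m hm => ?_)
    refine (norm_sum_le _ _).trans (Finset.sum_le_sum fun n hn => ?_)
    have hm1 := (Finset.mem_Icc.mp hm).1
    have hn1 := Finset.mem_Icc.mp hn
    by_cases h : m = n
    · rw [if_pos h, sub_self, norm_zero]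
      positivity
    · rw [if_neg h, sub_zero, norm_mul, norm_real, Real.norm_eq_abs, abs_mul]
      have := hJoff m n (by omega) (by omega) hn1.2 h
      gcongr
  calc 1 / T * ‖∑ m ∈ Icc 1 M₁, ∑ n ∈ Icc 1 M₂, (((f m * g n : ℝ) : ℂ) * J m n -
      if m = n then ((f m * g n : ℝ) : ℂ) * J m n else 0)‖
      ≤ 1 / T * ∑ m ∈ Icc 1 M₁, ∑ n ∈ Icc 1 M₂, |f m| * |g n| *
        (T * (C * (2 * Real.pi) ^ A * ((M₂ + 1) / T) ^ A)) := by gcongr
    _ = _ := by
        rw [Finset.sum_mul_sum]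
        simp only [Finset.mul_sum]
        refine Finset.sum_congr rfl fun m _ => Finset.sum_congr rfl fun n _ => ?_
        field_simp

end Pool.Agent.ZetaMoment
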