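import Pool.Agent.Lib_MP_112ba8.LimitThm

/-!
Choice of the parameters.
-/

namespace Pool.Agent.ZetaMoment

open Finset Filter Topology MeasureTheory

lemma SS_E0_EY (m : ℕ) (κ y ν z : ℝ) : SS κ (E0 m y) (EY m ν z) =
    el κ 0 ν + (m + 1) * el κ 1 z + (m + 1) * (el κ 1 (y + ν) + (m + 1) * el κ 2 (y + z)) := by
  simp [SS, E0, EY, Fintype.sum_prod_type, Fin.sum_univ_succ]
  ring

lemma SS_EY_EY (m : ℕ) (κ y ν : ℝ) : SS κ (EY m ν y) (EY m ν y) =
    el κ 0 (ν + ν) + (m + 1) * el κ 1 (y + ν) + (m + 1) * (el κ 1 (y + ν) + (m + 1) * el κ 2 (y + y)) := by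
  simp [SS, EY, Fintype.sum_prod_type, Fin.sum_univ_succ, add_comm ν y]
  ring

lemma SS_EV_EV (m : ℕ) (κ y : ℝ) : SS κ (EV m y) (EV m y) =
    ((m : ℝ) + 2) * ((m + 2) * el κ 2 (y + y)) := by
  simp [SS, EV]
  ring

lemma SS_E1_EY (m : ℕ) (κ y z ν : ℝ) : SS κ (E1 m y z) (EY m ν y) =
    el κ 0 ν + (m + 1) * el κ 1 y + (el κ 1 (z + ν) + (m + 1) * el κ 2 (z + y)) +
      m * (el κ 1 (y + ν) + (m + 1) * el κ 2 (y + y)) := by
  simp [SS, E1, EY, Fintype.sum_prod_type, Fin.sum_univ_succ]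
  ring

/-- optimisation over `ρ` and `τ` -/
theorem value_lower (m : ℕ) {κ ε y ν h h₂ B : ℝ} (hκ : 0 ≤ κ) (hε : 0 < ε) (hε1 : ε < 1)
    (hy : 0 < y) (hν : 0 < ν) (hh : 0 ≤ h) (hhy : h ≤ y) (hh₂ : 0 ≤ h₂) (hh₂ν : h₂ < ν)
    (hh₂y : h₂ < y)
    (hn : Real.exp (SS κ (E0 m y) (EY m ν y)) / 2 ≤ nn m κ ε y ν h h₂)
    (hB : B < aG (Fin (m + 2)) * (Wm * ((1 / 4) ^ (m + 2) *
      Real.exp ((m + 2) * (2 * SS κ (E0 m y) (EY m ν y) - SS κ (EY m ν y) (EY m ν y)) -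
        (m + 1) * SS κ (EV m y) (EV m y))))) : ∀ᶠ T : ℝ in atTop,
    B * Real.log T ^ ((m + 2) * (m + 2)) ≤
      (1 / T) * ∫ t in (0 : ℝ)..T, ‖riemannZeta (1 / 2 + t * Complex.I)‖ ^ (2 * (m + 2)) := by
  set s0 := SS κ (E0 m y) (EY m ν y) with hs0
  set sq := SS κ (EY m ν y) (EY m ν y) with hsq
  set sv := SS κ (EV m y) (EV m y) with hsv
  set N := nn m κ ε y ν h h₂ with hN
  have hN0 : 0 < N := lt_of_lt_of_le (by positivity) hn
  set S := N ^ 2 / Real.exp sq with hS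
  have hS0 : 0 < S := by positivity
  have hA : 0 < aG (Fin (m + 2)) := Real.exp_pos _
  refine limit_lower m (ρ := N / Real.exp sq) (τ := S / Real.exp sv) hκ hε hε1 hy hν hh hhy hh₂ hh₂ν
    hh₂y (by positivity) (by positivity) (lt_of_lt_of_le hB ?_)
  rw [mul_assoc]
  refine mul_le_mul_of_nonneg_left (mul_le_mul_of_nonneg_left ?_ Wm_pos.le) hA.le
  have e1 : 2 * (N / Real.exp sq) * N - (N / Real.exp sq) ^ 2 * Real.exp sq = S := by
    rw [hS]
    have := (Real.exp_pos sq).ne'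
    field_simp
    ring
  rw [← hN, ← hsq, ← hsv, e1]
  have e2 : ((m : ℝ) + 2) * (S / Real.exp sv) ^ (m + 1) * S -
      (m + 1) * (S / Real.exp sv) ^ (m + 2) * Real.exp sv = S ^ (m + 2) / Real.exp sv ^ (m + 1) := by
    have h1 := (Real.exp_pos sv).ne'
    have h2 : (S / Real.exp sv) ^ (m + 2) * Real.exp sv = (S / Real.exp sv) ^ (m + 1) * S := by
      rw [pow_succ (S / Real.exp sv) (m + 1), mul_assoc, div_mul_cancel₀ _ h1]
    rw [mul_assoc ((m : ℝ) + 1), h2, div_pow, pow_succ S (m + 1)]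
    field_simp
    ring
  rw [e2, le_div_iff₀ (by positivity)]
  have h3 : Real.exp (2 * s0 - sq) / 4 ≤ S := by
    rw [hS, Real.exp_sub, div_right_comm]
    have h4 : Real.exp (2 * s0) / 4 ≤ N ^ 2 := by
      have h5 : Real.exp (2 * s0) / 4 = (Real.exp s0 / 2) ^ 2 := by
        rw [two_mul, Real.exp_add]; ring
      rw [h5]
      gcongr
    gcongr
  calc (1 / 4) ^ (m + 2) * Real.exp ((m + 2) * (2 * s0 - sq) - (m + 1) * sv) * Real.exp sv ^ (m + 1)
      = (Real.exp (2 * s0 - sq) / 4) ^ (m + 2) := by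
        rw [Real.exp_sub, div_pow, div_pow]
        have h5 : Real.exp (((m : ℝ) + 2) * (2 * s0 - sq)) = Real.exp (2 * s0 - sq) ^ (m + 2) := by
          rw [← Real.exp_nat_mul]; push_cast; ring_nf
        have h6 : Real.exp (((m : ℝ) + 1) * sv) = Real.exp sv ^ (m + 1) := by
          rw [← Real.exp_nat_mul]; push_cast; ring_nf
        rw [h5, h6]
        have := (Real.exp_pos sv).ne'
        field_simp
        simp
    _ ≤ S ^ (m + 2) := by gcongr

/-- the comparison of the three exponential sums -/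
lemma nn_lower (m : ℕ) {k κ δ D h₂ : ℝ} (hk : k = m + 2) (hκ : κ = k ^ 2) (hδ : 0 < δ)
    (hD : D = 1 - Id δ) (hD0 : 0 < D) (hh₂ : h₂ = 8 / D) (c2 : 3 * h₂ ≤ k * δ)
    (c3 : ((m : ℝ) + 1) * Real.exp (1 - k * (δ * D / 4)) ≤ 1 / 4) :
    Real.exp (SS κ (E0 m (κ * δ)) (EY m (2 * h₂) (κ * δ))) / 2 ≤
      nn m κ (D / 2) (κ * δ) (2 * h₂) (κ * δ / 2) h₂ := by
  have hk2 : 2 ≤ k := by rw [hk]; linarith [Nat.cast_nonneg (α := ℝ) m]
  have hk0 : 0 < k := by linarith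
  have hκ0 : 0 < κ := by rw [hκ]; positivity
  have hκk : k ≤ κ := by rw [hκ]; nlinarith
  have hh20 : 0 < h₂ := by rw [hh₂]; positivity
  have hI0 : 0 ≤ Id δ := Id_nonneg hδ
  set y := κ * δ with hy
  have hy0 : 0 < y := by positivity
  have hyk : k * (k * δ) = y := by rw [hy, hκ]; ring
  have hyh : 6 * h₂ ≤ y := by rw [← hyk]; nlinarith
  set s0 := SS κ (E0 m y) (EY m (2 * h₂) y) with hs0
  have hm1 : ((m : ℝ) + 1) ≤ k := by rw [hk]; linarith
  have hm10 : (0 : ℝ) ≤ (m : ℝ) + 1 := by positivity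
  -- first comparison
  have ha : Real.exp (-((1 - D / 2) * h₂)) * Real.exp (SS κ (E0 m y) (EY m (2 * h₂ - h₂) (y - h₂))) ≤
      (1 / 4) * Real.exp s0 := by
    have d0 : el κ 0 (2 * h₂ - h₂) - el κ 0 (2 * h₂) = Real.log 2 := by
      have : 2 * h₂ - h₂ = h₂ := by ring
      rw [this, el, el, if_pos rfl, if_pos rfl, Real.log_mul two_ne_zero hh20.ne']; ring
    have d1 : el κ 1 (y - h₂) - el κ 1 y ≤ 2 * h₂ / y := by
      refine (el1_diff hκ0.le hh20.le (by linarith)).trans ?_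
      rw [div_le_div_iff₀ (by linarith) hy0]
      nlinarith
    have d2 : el κ 1 (y + (2 * h₂ - h₂)) - el κ 1 (y + 2 * h₂) ≤ h₂ / y := by
      have e1 : y + (2 * h₂ - h₂) = (y + 2 * h₂) - h₂ := by ring
      rw [e1]
      refine (el1_diff hκ0.le hh20.le (by linarith)).trans ?_
      gcongr
      linarith
    have d3 : el κ 2 (y + (y - h₂)) - el κ 2 (y + y) ≤ h₂ / κ * Id δ := by
      have e1 : y + (y - h₂) = (y + y) - h₂ := by ring
      rw [e1]
      exact el2_diff hκ0 hδ hh20.le (by rw [← hy]; linarith)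
    have e0 : SS κ (E0 m y) (EY m (2 * h₂ - h₂) (y - h₂)) - s0 ≤ Real.log 2 + 1 + h₂ * Id δ := by
      rw [hs0, SS_E0_EY, SS_E0_EY]
      have f1 : ((m : ℝ) + 1) * (el κ 1 (y - h₂) - el κ 1 y) ≤ 2 * h₂ / (k * δ) := by
        calc ((m : ℝ) + 1) * (el κ 1 (y - h₂) - el κ 1 y) ≤ ((m : ℝ) + 1) * (2 * h₂ / y) :=
              mul_le_mul_of_nonneg_left d1 hm10
          _ ≤ k * (2 * h₂ / y) := by gcongr
          _ = 2 * h₂ / (k * δ) := by rw [← hyk]; field_simp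
      have f2 : ((m : ℝ) + 1) * (el κ 1 (y + (2 * h₂ - h₂)) - el κ 1 (y + 2 * h₂)) ≤ h₂ / (k * δ) := by
        calc ((m : ℝ) + 1) * (el κ 1 (y + (2 * h₂ - h₂)) - el κ 1 (y + 2 * h₂))
            ≤ ((m : ℝ) + 1) * (h₂ / y) := mul_le_mul_of_nonneg_left d2 hm10
          _ ≤ k * (h₂ / y) := by gcongr
          _ = h₂ / (k * δ) := by rw [← hyk]; field_simp
      have f3 : ((m : ℝ) + 1) * (((m : ℝ) + 1) * (el κ 2 (y + (y - h₂)) - el κ 2 (y + y))) ≤ h₂ * Id δ := by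
        calc ((m : ℝ) + 1) * (((m : ℝ) + 1) * (el κ 2 (y + (y - h₂)) - el κ 2 (y + y)))
            ≤ ((m : ℝ) + 1) * (((m : ℝ) + 1) * (h₂ / κ * Id δ)) := by
              gcongr
          _ ≤ k * (k * (h₂ / κ * Id δ)) := by gcongr
          _ = h₂ * Id δ := by rw [hκ]; field_simp
      have f4 : 2 * h₂ / (k * δ) + h₂ / (k * δ) ≤ 1 := by
        rw [← add_div, div_le_one (by positivity)]; linarith
      nlinarith
    have hlog : Real.log 2 + 1 + h₂ * Id δ - (1 - D / 2) * h₂ ≤ -Real.log 4 := by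
      have e1 : h₂ * D = 8 := by rw [hh₂]; field_simp
      have e2 : h₂ * Id δ = h₂ - h₂ * D := by rw [hD]; ring
      have e3 : Real.log 4 = 2 * Real.log 2 := by
        rw [show (4 : ℝ) = 2 ^ 2 by norm_num, Real.log_pow]; norm_num
      have e4 := Real.log_two_lt_d9
      rw [e3]
      nlinarith
    have e5 : (1 / 4 : ℝ) = Real.exp (-Real.log 4) := by
      rw [Real.exp_neg, Real.exp_log (by norm_num)]; norm_num
    rw [e5, ← Real.exp_add, ← Real.exp_add]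
    apply Real.exp_le_exp.mpr
    linarith
  -- second comparison
  have hb : (m + 1) * Real.exp (-((1 - D / 2) * (y / 2) / (m + 2))) *
      Real.exp (SS κ (E1 m y (y - y / 2)) (EY m (2 * h₂) y)) ≤ (1 / 4) * Real.exp s0 := by
    have d1 : el κ 1 (y - y / 2 + 2 * h₂) - el κ 1 (y + 2 * h₂) ≤ 1 := by
      have e1 : y - y / 2 + 2 * h₂ = (y + 2 * h₂) - y / 2 := by ring
      rw [e1]
      refine (el1_diff hκ0.le (by positivity) (by linarith)).trans ?_
      rw [div_le_one (by linarith)]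
      linarith
    have d2 : el κ 2 (y - y / 2 + y) - el κ 2 (y + y) ≤ δ / 2 * Id δ := by
      have e1 : y - y / 2 + y = (y + y) - y / 2 := by ring
      rw [e1]
      refine (el2_diff hκ0 hδ (by positivity) (by rw [← hy]; linarith)).trans (le_of_eq ?_)
      rw [hy]; field_simp
    have e0 : SS κ (E1 m y (y - y / 2)) (EY m (2 * h₂) y) - s0 ≤ 1 + k * (δ / 2 * Id δ) := by
      rw [hs0, SS_E1_EY, SS_E0_EY]
      have f1 : ((m : ℝ) + 1) * (el κ 2 (y - y / 2 + y) - el κ 2 (y + y)) ≤ k * (δ / 2 * Id δ) := by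
        calc ((m : ℝ) + 1) * (el κ 2 (y - y / 2 + y) - el κ 2 (y + y)) ≤
              ((m : ℝ) + 1) * (δ / 2 * Id δ) := mul_le_mul_of_nonneg_left d2 hm10
          _ ≤ k * (δ / 2 * Id δ) := by gcongr
      nlinarith
    have e6 : (1 - D / 2) * (y / 2) / ((m : ℝ) + 2) = (1 - D / 2) * (k * δ / 2) := by
      rw [← hk, ← hyk]; field_simp
    have e7 : Real.exp (-((1 - D / 2) * (y / 2) / (m + 2))) *
        Real.exp (SS κ (E1 m y (y - y / 2)) (EY m (2 * h₂) y)) ≤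
        Real.exp (1 - k * (δ * D / 4)) * Real.exp s0 := by
      rw [← Real.exp_add, ← Real.exp_add, e6]
      apply Real.exp_le_exp.mpr
      have : Id δ = 1 - D := by rw [hD]; ring
      rw [this] at e0
      nlinarith
    calc (m + 1) * Real.exp (-((1 - D / 2) * (y / 2) / (m + 2))) *
          Real.exp (SS κ (E1 m y (y - y / 2)) (EY m (2 * h₂) y))
        = (m + 1) * (Real.exp (-((1 - D / 2) * (y / 2) / (m + 2))) *
          Real.exp (SS κ (E1 m y (y - y / 2)) (EY m (2 * h₂) y))) := by ring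
      _ ≤ (m + 1) * (Real.exp (1 - k * (δ * D / 4)) * Real.exp s0) := by gcongr
      _ = ((m + 1) * Real.exp (1 - k * (δ * D / 4))) * Real.exp s0 := by ring
      _ ≤ (1 / 4) * Real.exp s0 := by gcongr
  unfold nn
  linarith

end Pool.Agent.ZetaMoment
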