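import Pool.Agent.Lib_MP_112ba8.MeanVal

/-!
Approximation of `ζ(1/2+it)` by a long Dirichlet polynomial (second order Euler-Maclaurin).
-/

namespace Pool.Agent.ZetaMoment

open Finset Filter Topology MeasureTheory Complex

/-- trapezoidal error on `[m, m+1]` for `x ^ (-s)` -/
noncomputable def Gt (m : ℕ) (s : ℂ) : ℂ :=
  ((m : ℂ) ^ (-s) + ((m + 1 : ℕ) : ℂ) ^ (-s)) / 2 -
    (((m + 1 : ℕ) : ℂ) ^ (1 - s) - (m : ℂ) ^ (1 - s)) / (1 - s)

lemma shift_deriv {m : ℕ} (hm : 0 < m) {c : ℂ} (hc : c ≠ 0) {u : ℝ} (hu : 0 ≤ u) :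
    HasDerivAt (fun u : ℝ => (((m : ℝ) + u : ℝ) : ℂ) ^ c) (c * (((m : ℝ) + u : ℝ) : ℂ) ^ (c - 1)) u := by
  have hm' : (0 : ℝ) < m := by exact_mod_cast hm
  have h1 := hasDerivAt_ofReal_cpow_const (x := (m : ℝ) + u) (by positivity) hc
  have h2 : HasDerivAt (fun u : ℝ => (m : ℝ) + u) 1 u := by
    simpa using (hasDerivAt_id u).const_add (m : ℝ)
  have h3 := HasDerivAt.scomp u h1 h2
  rw [one_smul] at h3
  exact h3

lemma Gt_bound {m : ℕ} (hm : 0 < m) {s : ℂ} (hs : 0 < s.re) (hs1 : s ≠ 1) :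
    ‖Gt m s‖ ≤ ‖s‖ * ‖s + 1‖ * (m : ℝ) ^ (-(s.re + 2)) := by
  have hm' : (0 : ℝ) < m := by exact_mod_cast hm
  have hs0 : s ≠ 0 := by rintro rfl; simp at hs
  have hs2 : -s - 1 ≠ 0 := by
    intro h
    have := congrArg Complex.re h
    simp at this; linarith
  have hs3 : 1 - s ≠ 0 := sub_ne_zero.mpr hs1.symm
  set H : ℝ → ℂ := fun u => ((u : ℂ) * (1 - u)) * (-s * (((m : ℝ) + u : ℝ) : ℂ) ^ (-s - 1)) -
    (1 - 2 * u) * (((m : ℝ) + u : ℝ) : ℂ) ^ (-s) - 2 * ((((m : ℝ) + u : ℝ) : ℂ) ^ (1 - s) / (1 - s)) with hH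
  have hd : ∀ u ∈ Set.Icc (0 : ℝ) 1, HasDerivWithinAt H
      ((u : ℂ) * (1 - u) * (s * (s + 1) * (((m : ℝ) + u : ℝ) : ℂ) ^ (-s - 2))) (Set.Icc (0 : ℝ) 1) u := by
    intro u hu
    apply HasDerivAt.hasDerivWithinAt
    have d1 := shift_deriv hm hs2 hu.1
    have d2 := shift_deriv hm (neg_ne_zero.mpr hs0) hu.1
    have d3 := shift_deriv hm hs3 hu.1
    have du : HasDerivAt (fun u : ℝ => (u : ℂ)) 1 u := Complex.ofRealCLM.hasDerivAt
    have q1 : HasDerivAt (fun u : ℝ => (u : ℂ) * (1 - u)) (1 - 2 * u) u := by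
      exact (du.fun_mul (du.const_sub 1)).congr_deriv (by ring)
    have q2 : HasDerivAt (fun u : ℝ => (1 : ℂ) - 2 * u) (-2) u := by
      exact ((du.const_mul 2).const_sub (1 : ℂ)).congr_deriv (by ring)
    refine (((q1.fun_mul (d1.const_mul (-s))).fun_sub (q2.fun_mul d2)).fun_sub
      ((d3.div_const (1 - s)).const_mul 2)).congr_deriv ?_
    have e1 : (-s - 1 - 1 : ℂ) = -s - 2 := by ring
    have e2 : (1 - s - 1 : ℂ) = -s := by ring
    rw [e1, e2]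
    field_simp
    ring
  have hb : ∀ u ∈ Set.Ico (0 : ℝ) 1,
      ‖((u : ℂ) * (1 - u) * (s * (s + 1) * (((m : ℝ) + u : ℝ) : ℂ) ^ (-s - 2)))‖ ≤
        2 * (‖s‖ * ‖s + 1‖ * (m : ℝ) ^ (-(s.re + 2))) := by
    intro u hu
    have hu0 := hu.1
    have hu1 := hu.2
    have hpos : 0 < (m : ℝ) + u := by positivity
    rw [norm_mul, norm_mul, norm_mul, norm_mul, norm_cpow_eq_rpow_re_of_pos hpos]
    have n1 : ‖(u : ℂ)‖ ≤ 1 := by rw [norm_real, Real.norm_of_nonneg hu0]; exact hu1.le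
    have n2 : ‖(1 - u : ℂ)‖ ≤ 1 := by
      rw [← ofReal_one, ← ofReal_sub, norm_real, Real.norm_of_nonneg (by linarith)]; linarith
    have n3 : ((m : ℝ) + u) ^ (-s - 2 : ℂ).re ≤ (m : ℝ) ^ (-(s.re + 2)) := by
      have : (-s - 2 : ℂ).re = -(s.re + 2) := by simp; ring
      rw [this]
      exact Real.rpow_le_rpow_of_nonpos hm' (by linarith) (by linarith)
    calc ‖(u : ℂ)‖ * ‖(1 - u : ℂ)‖ * (‖s‖ * ‖s + 1‖ * ((m : ℝ) + u) ^ (-s - 2 : ℂ).re)
        ≤ 1 * 1 * (‖s‖ * ‖s + 1‖ * (m : ℝ) ^ (-(s.re + 2))) := by gcongr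
      _ ≤ _ := by nlinarith [show 0 ≤ ‖s‖ * ‖s + 1‖ * (m : ℝ) ^ (-(s.re + 2)) by positivity]
  have hfin := norm_image_sub_le_of_norm_deriv_le_segment_01' hd hb
  have hval : H 1 - H 0 = 2 * Gt m s := by
    simp only [hH, Gt]
    push_cast
    ring_nf
  rw [hval, norm_mul, Complex.norm_ofNat] at hfin
  linarith

lemma inv_sq_summable (M : ℕ) : Summable fun j : ℕ => 1 / ((M + j : ℕ) : ℝ) ^ 2 := by
  have h := Real.summable_one_div_nat_pow.mpr (by norm_num : 1 < 2)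
  have := (summable_nat_add_iff (f := fun n : ℕ => 1 / (n : ℝ) ^ 2) M).mpr h
  simpa [add_comm] using this

lemma tail_sum_le {M : ℕ} (hM : 0 < M) : ∑' j : ℕ, 1 / ((M + j : ℕ) : ℝ) ^ 2 ≤ 2 / (M : ℝ) := by
  refine Real.tsum_le_of_sum_range_le (fun j => by positivity) fun n => ?_
  have h1 := sum_Ioo_inv_sq_le (α := ℝ) (M - 1) (M + n)
  have h2 : ∑ j ∈ range n, 1 / ((M + j : ℕ) : ℝ) ^ 2 = ∑ i ∈ Ioo (M - 1) (M + n), ((i : ℝ) ^ 2)⁻¹ := by
    have h3 : Ioo (M - 1) (M + n) = Ico M (M + n) := by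
      ext i; simp only [Finset.mem_Ioo, Finset.mem_Ico]; omega
    rw [h3, Finset.sum_Ico_eq_sum_range]
    simp
  rw [h2]
  refine h1.trans (le_of_eq ?_)
  have : ((M - 1 : ℕ) : ℝ) + 1 = M := by
    have : M - 1 + 1 = M := by omega
    exact_mod_cast this
  rw [this]

/-- the domain -/
def Ud : Set ℂ := {s | 0 < s.re ∧ 0 < s.im}

lemma Ud_open : IsOpen Ud :=
  (isOpen_lt continuous_const continuous_re).inter (isOpen_lt continuous_const continuous_im)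

lemma Ud_conv : Convex ℝ Ud := by
  have h1 : Convex ℝ {s : ℂ | 0 < s.re} := convex_halfSpace_re_gt 0
  have h2 : Convex ℝ {s : ℂ | 0 < s.im} := convex_halfSpace_im_gt 0
  exact h1.inter h2

lemma Ud_ne_one {s : ℂ} (hs : s ∈ Ud) : s ≠ 1 := by
  rintro rfl; have := hs.2; simp at this

lemma Ud_ne_zero {s : ℂ} (hs : s ∈ Ud) : s ≠ 0 := by
  rintro rfl; have := hs.2; simp at this

lemma Ud_ne_neg_one {s : ℂ} (hs : s ∈ Ud) : s + 1 ≠ 0 := by
  intro h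
  have := congrArg Complex.im h
  have h2 := hs.2
  simp at this; linarith

lemma Gt_scaled_bound {M : ℕ} (hM : 0 < M) (j : ℕ) {s : ℂ} (hs : s ∈ Ud) :
    ‖Gt (M + j) s / (s * (s + 1))‖ ≤ 1 / ((M + j : ℕ) : ℝ) ^ 2 := by
  have h := Gt_bound (m := M + j) (by omega) hs.1 (Ud_ne_one hs)
  have h0 : 0 < ‖s * (s + 1)‖ := norm_pos_iff.mpr (mul_ne_zero (Ud_ne_zero hs) (Ud_ne_neg_one hs))
  rw [norm_div, div_le_iff₀ h0, norm_mul]
  refine h.trans ?_
  rw [mul_comm]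
  gcongr
  have h1 : (1 : ℝ) ≤ ((M + j : ℕ) : ℝ) := by exact_mod_cast (by omega : 1 ≤ M + j)
  calc ((M + j : ℕ) : ℝ) ^ (-(s.re + 2)) ≤ ((M + j : ℕ) : ℝ) ^ (-(2 : ℝ)) :=
        Real.rpow_le_rpow_of_exponent_le h1 (by linarith [hs.1])
    _ = 1 / ((M + j : ℕ) : ℝ) ^ 2 := by
        rw [Real.rpow_neg (by positivity), one_div]
        norm_cast

/-- the Euler-Maclaurin expression -/
noncomputable def EM (M : ℕ) (s : ℂ) : ℂ :=
  ∑ n ∈ Icc 1 M, (n : ℂ) ^ (-s) - (M : ℂ) ^ (-s) / 2 + (M : ℂ) ^ (1 - s) / (s - 1) +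
    (s * (s + 1)) * ∑' j : ℕ, Gt (M + j) s / (s * (s + 1))

lemma natCast_cpow_diff {n : ℕ} (hn : 0 < n) {f : ℂ → ℂ} (hf : Differentiable ℂ f) :
    Differentiable ℂ fun s => (n : ℂ) ^ (f s) := by
  intro s
  refine (hf s).const_cpow (Or.inl ?_)
  exact_mod_cast hn.ne'

lemma EM_diff {M : ℕ} (hM : 0 < M) : DifferentiableOn ℂ (EM M) Ud := by
  unfold EM
  refine DifferentiableOn.add (DifferentiableOn.add (DifferentiableOn.sub ?_ ?_) ?_) ?_
  · refine DifferentiableOn.fun_sum fun n hn => ?_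
    exact (natCast_cpow_diff (Finset.mem_Icc.mp hn).1 (by fun_prop)).differentiableOn
  · exact ((natCast_cpow_diff hM (by fun_prop)).differentiableOn).div_const _
  · refine DifferentiableOn.div (natCast_cpow_diff hM (by fun_prop)).differentiableOn (by fun_prop) ?_
    intro s hs
    exact sub_ne_zero.mpr (Ud_ne_one hs)
  · refine DifferentiableOn.mul (by fun_prop) ?_
    refine differentiableOn_tsum_of_summable_norm (inv_sq_summable M) (fun j => ?_) Ud_open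
      (fun j s hs => Gt_scaled_bound hM j hs)
    refine DifferentiableOn.div ?_ (by fun_prop) (fun s hs => mul_ne_zero (Ud_ne_zero hs) (Ud_ne_neg_one hs))
    unfold Gt
    refine DifferentiableOn.sub ?_ ?_
    · refine (DifferentiableOn.add ?_ ?_).div_const _
      · exact (natCast_cpow_diff (by omega) (by fun_prop)).differentiableOn
      · exact (natCast_cpow_diff (by omega) (by fun_prop)).differentiableOn
    · refine DifferentiableOn.div (DifferentiableOn.sub ?_ ?_) (by fun_prop) ?_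
      · exact (natCast_cpow_diff (by omega) (by fun_prop)).differentiableOn
      · exact (natCast_cpow_diff (by omega) (by fun_prop)).differentiableOn
      · intro s hs
        exact sub_ne_zero.mpr (Ud_ne_one hs).symm

lemma EM_tail {M : ℕ} {s : ℂ} (hs : s ∈ Ud) :
    (s * (s + 1)) * ∑' j : ℕ, Gt (M + j) s / (s * (s + 1)) = ∑' j : ℕ, Gt (M + j) s := by
  rw [← tsum_mul_left]
  refine tsum_congr fun j => ?_
  have := mul_ne_zero (Ud_ne_zero hs) (Ud_ne_neg_one hs)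
  rw [mul_div_assoc', mul_div_cancel_left₀ _ this]

lemma Gt_summable {M : ℕ} (hM : 0 < M) {s : ℂ} (hs : s ∈ Ud) : Summable fun j : ℕ => Gt (M + j) s := by
  have h0 := mul_ne_zero (Ud_ne_zero hs) (Ud_ne_neg_one hs)
  have h1 : Summable fun j : ℕ => Gt (M + j) s / (s * (s + 1)) :=
    Summable.of_norm_bounded (inv_sq_summable M) fun j => Gt_scaled_bound hM j hs
  have := h1.mul_left (s * (s + 1))
  refine this.congr fun j => ?_
  rw [mul_div_assoc', mul_div_cancel_left₀ _ h0]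

lemma Gt_partial (M : ℕ) (s : ℂ) (N : ℕ) : ∑ j ∈ range N, Gt (M + j) s =
    ∑ j ∈ range N, ((M + j + 1 : ℕ) : ℂ) ^ (-s) + (M : ℂ) ^ (-s) / 2 - ((M + N : ℕ) : ℂ) ^ (-s) / 2 -
      (((M + N : ℕ) : ℂ) ^ (1 - s) - (M : ℂ) ^ (1 - s)) / (1 - s) := by
  induction N with
  | zero => simp
  | succ N ih =>
    rw [Finset.sum_range_succ, Finset.sum_range_succ, ih, Gt]
    have : M + (N + 1) = M + N + 1 := by ring
    rw [this]
    ring

lemma EM_eq_zeta_of_one_lt {M : ℕ} (hM : 0 < M) {s : ℂ} (hs : 1 < s.re) (hs' : s ∈ Ud) :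
    EM M s = riemannZeta s := by
  rw [EM, EM_tail hs']
  have h1 := (Gt_summable hM hs').hasSum.tendsto_sum_nat
  simp only [Gt_partial] at h1
  have hz : Summable fun n : ℕ => (n : ℂ) ^ (-s) := by
    have := Complex.summable_one_div_nat_cpow.mpr hs
    refine this.congr fun n => ?_
    rw [cpow_neg, one_div]
  have hcast : Tendsto (fun N : ℕ => ((M + N : ℕ) : ℝ)) atTop atTop :=
    tendsto_natCast_atTop_atTop.comp (tendsto_add_atTop_nat M |>.congr fun N => by ring)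
  have ht1 : Tendsto (fun N : ℕ => ((M + N : ℕ) : ℂ) ^ (-s)) atTop (𝓝 0) := by
    rw [tendsto_zero_iff_norm_tendsto_zero]
    have h2 : Tendsto (fun N : ℕ => ((M + N : ℕ) : ℝ) ^ (-(s.re))) atTop (𝓝 0) :=
      (tendsto_rpow_neg_atTop (by linarith)).comp hcast
    refine h2.congr fun N => ?_
    rw [norm_natCast_cpow_of_pos (by omega)]; simp
  have ht2 : Tendsto (fun N : ℕ => ((M + N : ℕ) : ℂ) ^ (1 - s)) atTop (𝓝 0) := by
    rw [tendsto_zero_iff_norm_tendsto_zero]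
    have h2 : Tendsto (fun N : ℕ => ((M + N : ℕ) : ℝ) ^ (-(s.re - 1))) atTop (𝓝 0) :=
      (tendsto_rpow_neg_atTop (by linarith)).comp hcast
    refine h2.congr fun N => ?_
    rw [norm_natCast_cpow_of_pos (by omega)]; simp
  have hz2 : Summable fun j : ℕ => ((M + j + 1 : ℕ) : ℂ) ^ (-s) := by
    have := (summable_nat_add_iff (f := fun n : ℕ => (n : ℂ) ^ (-s)) (M + 1)).mpr hz
    refine this.congr fun j => ?_
    congr 2; ring
  have ht3 := hz2.hasSum.tendsto_sum_nat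
  have h4 := ((ht3.add_const ((M : ℂ) ^ (-s) / 2)).sub (ht1.div_const 2)).sub
    ((ht2.sub_const ((M : ℂ) ^ (1 - s))).div_const (1 - s))
  have h5 := tendsto_nhds_unique h1 h4
  rw [h5]
  have h6 : riemannZeta s = ∑' n : ℕ, (n : ℂ) ^ (-s) := by
    rw [zeta_eq_tsum_one_div_nat_cpow hs]
    refine tsum_congr fun n => ?_
    rw [cpow_neg, one_div]
  rw [h6, ← hz.sum_add_tsum_nat_add (M + 1)]
  have h7 : ∑ i ∈ range (M + 1), (i : ℂ) ^ (-s) = ∑ n ∈ Icc 1 M, (n : ℂ) ^ (-s) := by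
    rw [Finset.range_eq_Ico, Finset.sum_eq_sum_Ico_succ_bot (by omega)]
    have : ((0 : ℕ) : ℂ) ^ (-s) = 0 := by
      rw [Nat.cast_zero, zero_cpow]
      exact neg_ne_zero.mpr (Ud_ne_zero hs')
    rw [this, zero_add]
    rfl
  rw [h7]
  have h8 : ∑' i : ℕ, ((i + (M + 1) : ℕ) : ℂ) ^ (-s) = ∑' j : ℕ, ((M + j + 1 : ℕ) : ℂ) ^ (-s) := by
    refine tsum_congr fun j => ?_
    congr 2; ring
  rw [h8]
  have h9 : (s - 1) = -(1 - s) := by ring
  have h10 : 1 - s ≠ 0 := sub_ne_zero.mpr (Ud_ne_one hs').symm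
  rw [h9, div_neg]
  field_simp
  ring

lemma EM_eq_zeta {M : ℕ} (hM : 0 < M) {s : ℂ} (hs : s ∈ Ud) : EM M s = riemannZeta s := by
  have h1 : AnalyticOnNhd ℂ (EM M) Ud := (EM_diff hM).analyticOnNhd Ud_open
  have h2 : AnalyticOnNhd ℂ riemannZeta Ud :=
    DifferentiableOn.analyticOnNhd
      (fun s hs => (differentiableAt_riemannZeta (Ud_ne_one hs)).differentiableWithinAt) Ud_open
  have h3 : (2 + I : ℂ) ∈ Ud := by constructor <;> simp
  refine h1.eqOn_of_preconnected_of_eventuallyEq h2 Ud_conv.isPreconnected h3 ?_ hs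
  have h4 : {s : ℂ | 1 < s.re} ∩ Ud ∈ 𝓝 (2 + I : ℂ) :=
    ((isOpen_lt continuous_const continuous_re).inter Ud_open).mem_nhds ⟨by simp, h3⟩
  filter_upwards [h4] with z hz
  exact EM_eq_zeta_of_one_lt hM hz.1 hz.2

lemma zeta_approx {M : ℕ} (hM : 0 < M) {t : ℝ} (ht : 0 < t) :
    ‖riemannZeta (1 / 2 + t * I) - DP (fun _ => 1) M t‖ ≤
      (M : ℝ) ^ (-(1 / 2) : ℝ) + (M : ℝ) ^ (1 / 2 : ℝ) / t +
        (t + 1) * (t + 2) * (2 * (M : ℝ) ^ (-(3 / 2) : ℝ)) := by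
  set s : ℂ := 1 / 2 + t * I with hs_def
  have hre : s.re = 1 / 2 := by simp [hs_def]
  have him : s.im = t := by simp [hs_def]
  have hs : s ∈ Ud := ⟨by rw [hre]; norm_num, by rw [him]; exact ht⟩
  have hM' : (0 : ℝ) < M := by exact_mod_cast hM
  have hM1 : (1 : ℝ) ≤ M := by exact_mod_cast hM
  have hDP : DP (fun _ => 1) M t = ∑ n ∈ Icc 1 M, (n : ℂ) ^ (-s) := by
    unfold DP
    refine Finset.sum_congr rfl fun n _ => ?_
    simp [hs_def]
  rw [← EM_eq_zeta hM hs, hDP, EM, EM_tail hs]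
  have e1 : ∑ n ∈ Icc 1 M, (n : ℂ) ^ (-s) - (M : ℂ) ^ (-s) / 2 + (M : ℂ) ^ (1 - s) / (s - 1) +
      ∑' j : ℕ, Gt (M + j) s - ∑ n ∈ Icc 1 M, (n : ℂ) ^ (-s) =
      - ((M : ℂ) ^ (-s) / 2) + (M : ℂ) ^ (1 - s) / (s - 1) + ∑' j : ℕ, Gt (M + j) s := by ring
  rw [e1]
  refine (norm_add_le _ _).trans (add_le_add ((norm_add_le _ _).trans (add_le_add ?_ ?_)) ?_)
  · rw [norm_neg, norm_div, norm_natCast_cpow_of_pos hM, neg_re, hre, Complex.norm_ofNat]
    have : (0 : ℝ) ≤ (M : ℝ) ^ (-(1 / 2) : ℝ) := by positivity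
    linarith
  · rw [norm_div, norm_natCast_cpow_of_pos hM, sub_re, hre, one_re]
    have h1 : t ≤ ‖s - 1‖ := by
      have := Complex.abs_im_le_norm (s - 1)
      rw [sub_im, him, one_im, sub_zero] at this
      exact (le_abs_self t).trans this
    have h2 : (1 - 1 / 2 : ℝ) = 1 / 2 := by norm_num
    rw [h2]
    gcongr
  · have hns : ‖s‖ ≤ t + 1 := by
      calc ‖s‖ ≤ ‖(1 / 2 : ℂ)‖ + ‖(t * I : ℂ)‖ := norm_add_le _ _
        _ = 1 / 2 + t := by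
            rw [norm_mul, norm_I, norm_real, Real.norm_of_nonneg ht.le]; norm_num
        _ ≤ t + 1 := by linarith
    have hns1 : ‖s + 1‖ ≤ t + 2 := by
      calc ‖s + 1‖ ≤ ‖s‖ + ‖(1 : ℂ)‖ := norm_add_le _ _
        _ ≤ t + 2 := by rw [norm_one]; linarith
    have hb : ∀ j : ℕ, ‖Gt (M + j) s‖ ≤
        (t + 1) * (t + 2) * (M : ℝ) ^ (-(1 / 2) : ℝ) * (1 / ((M + j : ℕ) : ℝ) ^ 2) := by
      intro j
      have h1 := Gt_bound (m := M + j) (by omega) hs.1 (Ud_ne_one hs)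
      rw [hre] at h1
      have hMj : (M : ℝ) ≤ ((M + j : ℕ) : ℝ) := by push_cast; linarith [Nat.cast_nonneg (α := ℝ) j]
      have hMj0 : (0 : ℝ) < ((M + j : ℕ) : ℝ) := by linarith
      have h2 : ((M + j : ℕ) : ℝ) ^ (-(1 / 2 + 2) : ℝ) ≤
          (M : ℝ) ^ (-(1 / 2) : ℝ) * (1 / ((M + j : ℕ) : ℝ) ^ 2) := by
        have h3 : (-(1 / 2 + 2) : ℝ) = -(1 / 2) + (-2) := by norm_num
        rw [h3, Real.rpow_add hMj0]
        have h4 : ((M + j : ℕ) : ℝ) ^ (-2 : ℝ) = 1 / ((M + j : ℕ) : ℝ) ^ 2 := by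
          rw [Real.rpow_neg hMj0.le, one_div]; norm_cast
        rw [h4]
        gcongr ?_ * _
        exact Real.rpow_le_rpow_of_nonpos hM' hMj (by norm_num)
      calc ‖Gt (M + j) s‖ ≤ ‖s‖ * ‖s + 1‖ * ((M + j : ℕ) : ℝ) ^ (-(1 / 2 + 2) : ℝ) := h1
        _ ≤ (t + 1) * (t + 2) * ((M : ℝ) ^ (-(1 / 2) : ℝ) * (1 / ((M + j : ℕ) : ℝ) ^ 2)) := by
            gcongr
        _ = _ := by ring
    have hsum := (inv_sq_summable M).mul_left ((t + 1) * (t + 2) * (M : ℝ) ^ (-(1 / 2) : ℝ))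
    refine (tsum_of_norm_bounded hsum.hasSum hb).trans ?_
    rw [tsum_mul_left]
    have h5 := tail_sum_le hM
    have h6 : (M : ℝ) ^ (-(3 / 2) : ℝ) = (M : ℝ) ^ (-(1 / 2) : ℝ) * (1 / M) := by
      have : (-(3 / 2) : ℝ) = -(1 / 2) + (-1) := by norm_num
      rw [this, Real.rpow_add hM', Real.rpow_neg_one, ← one_div]
    rw [h6]
    calc (t + 1) * (t + 2) * (M : ℝ) ^ (-(1 / 2) : ℝ) * ∑' j : ℕ, 1 / ((M + j : ℕ) : ℝ) ^ 2
        ≤ (t + 1) * (t + 2) * (M : ℝ) ^ (-(1 / 2) : ℝ) * (2 / M) := by gcongr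
      _ = _ := by ring

end Pool.Agent.ZetaMoment
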