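import Pool.Agent.Lib_MP_112ba8.EulerLim2
import Pool.Agent.Lib_MP_112ba8.ZetaApprox

/-!
Truncated arithmetic functions and products of Dirichlet polynomials.
-/

namespace Pool.Agent.ZetaMoment

open Finset Filter Topology MeasureTheory Complex ArithmeticFunction

/-- truncation of an arithmetic function -/
noncomputable def tr (N : ℕ) (f : ArithmeticFunction ℝ) : ArithmeticFunction ℝ :=
  ⟨fun n => if n ≤ N then f n else 0, by simp⟩

lemma tr_apply (N : ℕ) (f : ArithmeticFunction ℝ) (n : ℕ) :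
    tr N f n = if n ≤ N then f n else 0 := rfl

lemma tr_nonneg {N : ℕ} {f : ArithmeticFunction ℝ} (hf : ∀ n, 0 ≤ f n) (n : ℕ) : 0 ≤ tr N f n := by
  rw [tr_apply]; split_ifs
  · exact hf n
  · exact le_rfl

lemma tr_le {N : ℕ} {f : ArithmeticFunction ℝ} (hf : ∀ n, 0 ≤ f n) (n : ℕ) : tr N f n ≤ f n := by
  rw [tr_apply]; split_ifs
  · exact le_rfl
  · exact hf n

/-- support bounded by `M` -/
def Supp (f : ArithmeticFunction ℝ) (M : ℕ) : Prop := ∀ n, M < n → f n = 0

lemma tr_supp (N : ℕ) (f : ArithmeticFunction ℝ) : Supp (tr N f) N := by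
  intro n hn
  rw [tr_apply, if_neg (by omega)]

lemma Supp.mul {f g : ArithmeticFunction ℝ} {A B : ℕ} (hf : Supp f A) (hg : Supp g B) :
    Supp (f * g) (A * B) := by
  intro n hn
  rw [ArithmeticFunction.mul_apply]
  refine Finset.sum_eq_zero fun p hp => ?_
  have hp' := (Nat.mem_divisorsAntidiagonal.mp hp).1
  by_cases h1 : A < p.1
  · rw [hf _ h1, zero_mul]
  · have h2 : B < p.2 := by
      by_contra h2
      have := Nat.mul_le_mul (not_lt.mp h1) (not_lt.mp h2)
      omega
    rw [hg _ h2, mul_zero]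

lemma Supp.pow {f : ArithmeticFunction ℝ} {A : ℕ} (hf : Supp f A) (k : ℕ) :
    Supp (f ^ k) (A ^ k) := by
  induction k with
  | zero =>
    intro n hn
    rw [pow_zero] at hn ⊢
    rw [ArithmeticFunction.one_apply_ne (by omega)]
  | succ k ih =>
    rw [pow_succ, pow_succ]
    exact ih.mul hf

lemma term_eq_zero {f : ArithmeticFunction ℝ} {M : ℕ} (hf : Supp f M) (s : ℂ) {n : ℕ}
    (hn : n ∉ Icc 1 M) : LSeries.term (fun n => (f n : ℂ)) s n = 0 := by
  rw [LSeries.term_def₀ (by simp)]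
  simp only [Finset.mem_Icc, not_and_or, not_le] at hn
  rcases hn with h | h
  · have : n = 0 := by omega
    simp [this]
  · rw [hf n h]; simp

lemma LS_summable {f : ArithmeticFunction ℝ} {M : ℕ} (hf : Supp f M) (s : ℂ) :
    LSeriesSummable (fun n => (f n : ℂ)) s :=
  summable_of_ne_finset_zero (s := Icc 1 M) fun _ hn => term_eq_zero hf s hn

lemma DP_eq_LSeries {f : ArithmeticFunction ℝ} {M : ℕ} (hf : Supp f M) (t : ℝ) :
    DP f M t = LSeries (fun n => (f n : ℂ)) (1 / 2 + t * I) := by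
  rw [LSeries, tsum_eq_sum (s := Icc 1 M) (fun n hn => term_eq_zero hf _ hn), DP]
  refine Finset.sum_congr rfl fun n _ => ?_
  rw [LSeries.term_def₀ (by simp)]

lemma DP_mul {f g : ArithmeticFunction ℝ} {A B : ℕ} (hf : Supp f A) (hg : Supp g B) (t : ℝ) :
    DP (f * g : ArithmeticFunction ℝ) (A * B) t = DP f A t * DP g B t := by
  rw [DP_eq_LSeries hf, DP_eq_LSeries hg, DP_eq_LSeries (f := f * g) (hf.mul hg),
    ← LSeries_convolution' (LS_summable hf _) (LS_summable hg _)]
  congr 1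
  funext n
  rw [LSeries.convolution_def, ArithmeticFunction.mul_apply]
  push_cast
  rfl

lemma DP_pow {f : ArithmeticFunction ℝ} {A : ℕ} (hf : Supp f A) (k : ℕ) (t : ℝ) :
    DP (f ^ k : ArithmeticFunction ℝ) (A ^ k) t = DP f A t ^ k := by
  induction k with
  | zero =>
    simp [DP]
  | succ k ih =>
    rw [pow_succ, pow_succ, DP_mul (hf.pow k) hf, ih, pow_succ]

/-- crude bound for the divisor functions -/
lemma dk_le (k n : ℕ) : ((pw 0) ^ k : ArithmeticFunction ℝ) n ≤ (n : ℝ) ^ k := by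
  induction k generalizing n with
  | zero =>
    rw [pow_zero, pow_zero, ArithmeticFunction.one_apply]
    split_ifs <;> norm_num
  | succ k ih =>
    rcases Nat.eq_zero_or_pos n with hn | hn
    · simp [hn]
    rw [pow_succ, ArithmeticFunction.mul_apply]
    have h1 : ∀ p ∈ n.divisorsAntidiagonal, ((pw 0) ^ k : ArithmeticFunction ℝ) p.1 * pw 0 p.2 ≤ (n : ℝ) ^ k := by
      intro p hp
      have hp' := Nat.mem_divisorsAntidiagonal.mp hp
      have hle : p.1 ≤ n := Nat.le_of_dvd hn ⟨p.2, hp'.1.symm⟩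
      have h2 : pw 0 p.2 ≤ 1 := by
        rw [pw_apply]; split_ifs <;> simp
      have h3 : (0 : ℝ) ≤ (p.1 : ℝ) ^ k := by positivity
      calc ((pw 0) ^ k : ArithmeticFunction ℝ) p.1 * pw 0 p.2 ≤ (p.1 : ℝ) ^ k * 1 :=
            mul_le_mul (ih p.1) h2 (pw_nonneg _ _) h3
        _ = (p.1 : ℝ) ^ k := mul_one _
        _ ≤ (n : ℝ) ^ k := by gcongr
    refine (Finset.sum_le_sum h1).trans ?_
    rw [Finset.sum_const, nsmul_eq_mul, pow_succ, mul_comm]
    have h4 : (n.divisorsAntidiagonal.card : ℝ) ≤ n := by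
      have : n.divisorsAntidiagonal.card = n.divisors.card := by
        rw [← Nat.map_div_right_divisors, Finset.card_map]
      rw [this]
      exact_mod_cast Nat.card_divisors_le_self n
    gcongr

/-- key telescoping inequality -/
lemma pow_sub_pow_le {a b g : ArithmeticFunction ℝ} (hb : ∀ n, 0 ≤ b n) (hba : ∀ n, b n ≤ a n)
    (hg : ∀ n, a n - b n ≤ g n) (j n : ℕ) :
    (a ^ (j + 1)) n - (b ^ (j + 1)) n ≤ (j + 1) * (a ^ j * g) n := by
  have ha : ∀ n, 0 ≤ a n := fun n => (hb n).trans (hba n)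
  have hg0 : ∀ n, 0 ≤ g n := fun n => (sub_nonneg.mpr (hba n)).trans (hg n)
  have hpow_nonneg : ∀ (f : ArithmeticFunction ℝ), (∀ n, 0 ≤ f n) → ∀ j n, 0 ≤ (f ^ j) n := by
    intro f hf j n
    have := prod_nonneg' (Finset.univ : Finset (Fin j)) (f := fun _ => f) (fun _ n => hf n) n
    simpa using this
  have hpow_le : ∀ j n, (b ^ j) n ≤ (a ^ j) n := by
    intro j n
    have := prod_le_prod' (Finset.univ : Finset (Fin j)) (f := fun _ => b) (g := fun _ => a)
      (fun _ n => hb n) (fun _ n => hba n) n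
    simpa using this
  induction j generalizing n with
  | zero => simpa using hg n
  | succ j ih =>
    have e1 : (a ^ (j + 1 + 1)) n - (b ^ (j + 1 + 1)) n =
        ∑ p ∈ n.divisorsAntidiagonal, (((a ^ (j + 1)) p.1 - (b ^ (j + 1)) p.1) * a p.2
          + (b ^ (j + 1)) p.1 * (a p.2 - b p.2)) := by
      rw [pow_succ a (j + 1), pow_succ b (j + 1), ArithmeticFunction.mul_apply,
        ArithmeticFunction.mul_apply, ← Finset.sum_sub_distrib]
      refine Finset.sum_congr rfl fun p _ => by ring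
    have e2 : (a ^ (j + 1) * g) n = ((a ^ j * g) * a) n := by
      rw [pow_succ]; ring_nf
    have e3 : ((j + 1 : ℕ) + 1 : ℝ) * (a ^ (j + 1) * g) n =
        (j + 1) * ((a ^ j * g) * a) n + (a ^ (j + 1) * g) n := by
      rw [e2]; push_cast; ring
    rw [e3, e1, ArithmeticFunction.mul_apply, ArithmeticFunction.mul_apply, Finset.mul_sum,
      ← Finset.sum_add_distrib]
    refine Finset.sum_le_sum fun p _ => add_le_add ?_ ?_
    · rw [← mul_assoc]
      exact mul_le_mul_of_nonneg_right (ih p.1) (ha _)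
    · exact mul_le_mul (hpow_le _ _) (hg _) (sub_nonneg.mpr (hba _)) (hpow_nonneg a ha _ _)

lemma pow_nonneg'' {f : ArithmeticFunction ℝ} (hf : ∀ n, 0 ≤ f n) (j n : ℕ) : 0 ≤ (f ^ j) n := by
  have := prod_nonneg' (Finset.univ : Finset (Fin j)) (f := fun _ => f) (fun _ n => hf n) n
  simpa using this

lemma pow_le_pow'' {f g : ArithmeticFunction ℝ} (hf : ∀ n, 0 ≤ f n) (h : ∀ n, f n ≤ g n) (j n : ℕ) :
    (f ^ j) n ≤ (g ^ j) n := by
  have := prod_le_prod' (Finset.univ : Finset (Fin j)) (f := fun _ => f) (g := fun _ => g)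
    (fun _ n => hf n) (fun _ n => h n) n
  simpa using this

end Pool.Agent.ZetaMoment
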