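import Pool.Agent.Lib_MP_112ba8.Gen

/-!
Asymptotics of weighted sums over primes.
-/

namespace Pool.Agent.ZetaMoment

open Finset Filter Topology ArithmeticFunction MeasureTheory

/-- `∑_p p^{-1-s}` -/
noncomputable def Ps (s : ℝ) : ℝ := ∑' p : Nat.Primes, ((p : ℕ) : ℝ) ^ (-(1 + s))

lemma Ps_summable {s : ℝ} (hs : 0 < s) :
    Summable fun p : Nat.Primes => ((p : ℕ) : ℝ) ^ (-(1 + s)) :=
  Nat.Primes.summable_rpow.mpr (by linarith)

lemma Ps_nonneg (s : ℝ) : 0 ≤ Ps s := tsum_nonneg fun p => by positivity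

lemma Ps_anti {s t : ℝ} (hs : 0 < s) (hst : s ≤ t) : Ps t ≤ Ps s := by
  refine Summable.tsum_le_tsum (fun p => ?_) (Ps_summable (by linarith)) (Ps_summable hs)
  have : (1 : ℝ) ≤ ((p : ℕ) : ℝ) := by exact_mod_cast p.2.one_lt.le
  exact Real.rpow_le_rpow_of_exponent_le this (by linarith)

lemma log_rem_bound {x : ℝ} (hx0 : 0 ≤ x) (hx : x ≤ 1 / 2) : |Real.log (1 - x) + x| ≤ 2 * x ^ 2 := by
  have h1 := Real.log_le_sub_one_of_pos (show 0 < 1 - x by linarith)
  have h2 := Real.one_sub_inv_le_log_of_pos (show 0 < 1 - x by linarith)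
  have h3 : 1 - (1 - x)⁻¹ = -x / (1 - x) := by
    have : (1 - x) ≠ 0 := by linarith
    field_simp
    ring
  rw [h3] at h2
  have h4 : -x - 2 * x ^ 2 ≤ -x / (1 - x) := by
    rw [le_div_iff₀ (by linarith)]
    nlinarith [mul_nonneg hx0 hx0, mul_nonneg (mul_nonneg hx0 hx0) (by linarith : 0 ≤ 1 - 2 * x)]
  rw [abs_le]
  constructor
  · linarith
  · nlinarith [sq_nonneg x]

/-- the remainder of the prime zeta function -/
noncomputable def Dr (s : ℝ) : ℝ :=
  ∑' p : Nat.Primes, (Real.log (1 - ((p : ℕ) : ℝ) ^ (-(1 + s))) + ((p : ℕ) : ℝ) ^ (-(1 + s)))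

lemma Dr_term_bound {s : ℝ} (hs : 0 ≤ s) (p : Nat.Primes) :
    |Real.log (1 - ((p : ℕ) : ℝ) ^ (-(1 + s))) + ((p : ℕ) : ℝ) ^ (-(1 + s))| ≤
      2 * (1 / ((p : ℕ) : ℝ) ^ 2) := by
  have h1 := rpow_neg_le_half p.2 (s := 1 + s) (by linarith)
  have h2 := rpow_neg_le_inv p.2 (s := 1 + s) (by linarith)
  have h0 : 0 ≤ ((p : ℕ) : ℝ) ^ (-(1 + s)) := by positivity
  refine (log_rem_bound h0 h1).trans ?_
  rw [← one_div_pow]
  gcongr

lemma Dr_summable {s : ℝ} (hs : 0 ≤ s) : Summable fun p : Nat.Primes =>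
    (Real.log (1 - ((p : ℕ) : ℝ) ^ (-(1 + s))) + ((p : ℕ) : ℝ) ^ (-(1 + s))) :=
  Summable.of_norm_bounded (primes_summable.mul_left 2) fun p => by
    rw [Real.norm_eq_abs]; exact Dr_term_bound hs p

lemma log_zr {s : ℝ} (hs : 0 < s) : Real.log (zr (1 + s)) = Ps s - Dr s := by
  have h1 := zr_hasProd (s := 1 + s) (by linarith)
  have hpos : ∀ p : Nat.Primes, 0 < (1 - ((p : ℕ) : ℝ) ^ (-(1 + s)))⁻¹ := by
    intro p
    have := rpow_neg_le_half p.2 (s := 1 + s) (by linarith)
    exact inv_pos.mpr (by linarith)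
  have h2 : HasSum (fun p : Nat.Primes => Real.log ((1 - ((p : ℕ) : ℝ) ^ (-(1 + s)))⁻¹))
      (Real.log (zr (1 + s))) := by
    have h3 : Tendsto (fun t : Finset Nat.Primes => ∏ p ∈ t, (1 - ((p : ℕ) : ℝ) ^ (-(1 + s)))⁻¹) atTop
        (𝓝 (zr (1 + s))) := h1
    have h4 := h3.log (zr_pos (by linarith : 1 < 1 + s)).ne'
    have h5 : (fun t : Finset Nat.Primes => Real.log (∏ p ∈ t, (1 - ((p : ℕ) : ℝ) ^ (-(1 + s)))⁻¹)) =
        fun t : Finset Nat.Primes => ∑ p ∈ t, Real.log ((1 - ((p : ℕ) : ℝ) ^ (-(1 + s)))⁻¹) := by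
      funext t
      exact Real.log_prod fun p _ => (hpos p).ne'
    rw [h5] at h4
    exact h4
  have h6 := (Ps_summable hs).hasSum.sub (Dr_summable hs.le).hasSum
  have h7 : (fun p : Nat.Primes => Real.log ((1 - ((p : ℕ) : ℝ) ^ (-(1 + s)))⁻¹)) =
      fun p : Nat.Primes => ((p : ℕ) : ℝ) ^ (-(1 + s)) -
        (Real.log (1 - ((p : ℕ) : ℝ) ^ (-(1 + s))) + ((p : ℕ) : ℝ) ^ (-(1 + s))) := by
    funext p
    rw [Real.log_inv]; ring
  rw [h7] at h2
  exact h2.unique h6

lemma Dr_tendsto (z : ℝ) (hz : 0 < z) : Tendsto (fun L : ℝ => Dr (z / L)) atTop (𝓝 C0) := by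
  unfold Dr C0
  refine tendsto_tsum_of_dominated_convergence (primes_summable.mul_left 2) (fun p => ?_) ?_
  · have hp0 : ((p : ℕ) : ℝ) ≠ 0 := by exact_mod_cast p.2.ne_zero
    have h1 : Tendsto (fun L : ℝ => ((p : ℕ) : ℝ) ^ (-(1 + z / L))) atTop (𝓝 (1 / ((p : ℕ) : ℝ))) := by
      have h2 : Tendsto (fun L : ℝ => -(1 + z / L)) atTop (𝓝 (-(1 + 0))) :=
        (tendsto_const_nhds.add (tendsto_const_nhds.div_atTop tendsto_id)).neg
      have h3 := (tendsto_const_nhds (x := ((p : ℕ) : ℝ)) (f := (atTop : Filter ℝ))).rpow h2 (Or.inl hp0)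
      have h4 : ((p : ℕ) : ℝ) ^ (-(1 + 0) : ℝ) = 1 / ((p : ℕ) : ℝ) := by
        rw [add_zero, Real.rpow_neg_one, one_div]
      rwa [h4] at h3
    refine Tendsto.add ((tendsto_const_nhds.sub h1).log ?_) h1
    have h2 : (2 : ℝ) ≤ ((p : ℕ) : ℝ) := by exact_mod_cast p.2.two_le
    have h3 : 1 / ((p : ℕ) : ℝ) ≤ 1 / 2 := by gcongr
    linarith
  · filter_upwards [eventually_gt_atTop (0 : ℝ)] with L hL p
    rw [Real.norm_eq_abs]
    exact Dr_term_bound (by positivity) p

lemma Ps_tendsto {z : ℝ} (hz : 0 < z) :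
    Tendsto (fun L : ℝ => Ps (z / L) - Real.log L) atTop (𝓝 (C0 - Real.log z)) := by
  have h1 := ((zr_scale_tendsto hz).log (inv_pos.mpr hz).ne').add (Dr_tendsto z hz)
  rw [Real.log_inv, add_comm, ← sub_eq_add_neg] at h1
  refine h1.congr' ?_
  filter_upwards [eventually_gt_atTop (0 : ℝ)] with L hL
  have h2 : 0 < z / L := by positivity
  rw [Real.log_div (zr_pos (by linarith)).ne' hL.ne', log_zr h2]
  ring

lemma Ps_bound : ∃ K : ℝ, 0 ≤ K ∧ ∀ z L : ℝ, 0 < z → 1 ≤ L →
    |Ps (z / L) - Real.log L| ≤ K + |Real.log z| := by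
  have h1 := Ps_tendsto one_pos
  rw [Real.log_one, sub_zero] at h1
  obtain ⟨L₀, hL₀⟩ := eventually_atTop.mp (h1.abs.eventually (gt_mem_nhds (lt_add_one |C0|)))
  set L₁ := max L₀ 1 with hL₁
  have hL₁1 : 1 ≤ L₁ := le_max_right _ _
  have hPs1 := Ps_nonneg (1 / L₁)
  refine ⟨|C0| + 1 + Ps (1 / L₁) + Real.log L₁, by
    have := Real.log_nonneg hL₁1
    positivity, fun z L hz hL => ?_⟩
  have hL0 : 0 < L := by linarith
  have hlogL₁ := Real.log_nonneg hL₁1
  set s := z / L with hs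
  have hs0 : 0 < s := by positivity
  rcases le_total s (1 / L₁) with h | h
  · -- small s
    have h2 : L₀ ≤ 1 / s := by
      have : L₁ ≤ 1 / s := by
        rw [le_div_iff₀ hs0]
        rwa [le_div_iff₀ (by linarith), mul_comm] at h
      exact (le_max_left _ _).trans this
    have h3 := hL₀ (1 / s) h2
    have h4 : (1 : ℝ) / (1 / s) = s := by field_simp
    rw [h4] at h3
    have h5 : Ps s - Real.log L = (Ps s - Real.log (1 / s)) - Real.log z := by
      have : L = z * (1 / s) := by rw [hs]; field_simp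
      rw [this, Real.log_mul hz.ne' (by positivity)]
      ring
    rw [h5]
    calc |(Ps s - Real.log (1 / s)) - Real.log z| ≤ |Ps s - Real.log (1 / s)| + |Real.log z| :=
          abs_sub _ _
      _ ≤ (|C0| + 1) + |Real.log z| := by gcongr
      _ ≤ _ := by linarith
  · -- large s
    have h6 : Ps s ≤ Ps (1 / L₁) := Ps_anti (by positivity) h
    have h7 : 0 ≤ Ps s := Ps_nonneg s
    have h8 : 0 ≤ Real.log L := Real.log_nonneg hL
    have h9 : Real.log L ≤ Real.log L₁ + |Real.log z| := by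
      have h10 : L ≤ L₁ * z := by
        rw [hs, div_le_div_iff₀ (by linarith) hL0, one_mul] at h
        linarith
      calc Real.log L ≤ Real.log (L₁ * z) := Real.log_le_log hL0 h10
        _ = Real.log L₁ + Real.log z := Real.log_mul (by linarith) hz.ne'
        _ ≤ _ := by linarith [le_abs_self (Real.log z)]
    have h11 : |C0| ≥ 0 := abs_nonneg _
    rw [abs_le]
    constructor
    · linarith [abs_nonneg (Real.log z)]
    · linarith [abs_nonneg (Real.log z)]

/-- weighted prime sums for a mixture of exponentials -/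
theorem prime_int {ω g : ℝ → ℝ} {y κ : ℝ} (hω0 : ∀ u ∈ Set.Ioi (0 : ℝ), 0 ≤ ω u)
    (hω1 : IntegrableOn ω (Set.Ioi 0)) (hω2 : IntegrableOn (fun u => u * ω u) (Set.Ioi 0))
    (h1 : ∫ u in Set.Ioi (0 : ℝ), ω u = 1) (hy : 0 < y) (hκ : 0 ≤ κ)
    (hg : ∀ x : ℝ, 0 ≤ x → g x = ∫ u in Set.Ioi (0 : ℝ), ω u * Real.exp (-((y + κ * u) * x))) :
    (∀ L : ℝ, 0 < L → Summable fun p : Nat.Primes => g (Real.log (p : ℕ) / L) / ((p : ℕ) : ℝ)) ∧
    Tendsto (fun L : ℝ => (∑' p : Nat.Primes, g (Real.log (p : ℕ) / L) / ((p : ℕ) : ℝ)) - Real.log L)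
      atTop (𝓝 (C0 - ∫ u in Set.Ioi (0 : ℝ), ω u * Real.log (y + κ * u))) := by
  set μ : Measure ℝ := volume.restrict (Set.Ioi (0 : ℝ)) with hμ
  have hae : ∀ᵐ u ∂μ, 0 < u := (ae_restrict_mem measurableSet_Ioi)
  -- the family
  set F : ℝ → Nat.Primes → ℝ → ℝ := fun L p u => ω u * ((p : ℕ) : ℝ) ^ (-(1 + (y + κ * u) / L)) with hF
  have hmeasω : AEStronglyMeasurable ω μ := hω1.aestronglyMeasurable
  have hFmeas : ∀ L p, AEStronglyMeasurable (F L p) μ := by
    intro L p
    refine hmeasω.mul (Continuous.aestronglyMeasurable ?_)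
    have hp0 : ((p : ℕ) : ℝ) ≠ 0 := by exact_mod_cast p.2.ne_zero
    exact Continuous.rpow continuous_const (by fun_prop) (fun x => Or.inl hp0)
  have hpow : ∀ L : ℝ, 0 < L → ∀ p : Nat.Primes, ∀ u : ℝ, 0 ≤ u →
      ((p : ℕ) : ℝ) ^ (-(1 + (y + κ * u) / L)) ≤ ((p : ℕ) : ℝ) ^ (-(1 + y / L)) := by
    intro L hL p u hu
    have : (1 : ℝ) ≤ ((p : ℕ) : ℝ) := by exact_mod_cast p.2.one_lt.le
    apply Real.rpow_le_rpow_of_exponent_le this
    have h2 : y / L ≤ (y + κ * u) / L := by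
      gcongr
      have := mul_nonneg hκ hu
      linarith
    linarith
  have hFint : ∀ L : ℝ, 0 < L → ∀ p, Integrable (F L p) μ := by
    intro L hL p
    refine Integrable.mono' (hω1.mul_const (((p : ℕ) : ℝ) ^ (-(1 + y / L)))) (hFmeas L p) ?_
    filter_upwards [hae] with u hu
    rw [Real.norm_of_nonneg (mul_nonneg (hω0 u hu) (by positivity))]
    exact mul_le_mul_of_nonneg_left (hpow L hL p u hu.le) (hω0 u hu)
  have hFg : ∀ L : ℝ, 0 < L → ∀ p : Nat.Primes, ∫ u, F L p u ∂μ =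
      g (Real.log (p : ℕ) / L) / ((p : ℕ) : ℝ) := by
    intro L hL p
    have hp0 : (0 : ℝ) < ((p : ℕ) : ℝ) := by exact_mod_cast p.2.pos
    have hp1 : (1 : ℝ) ≤ ((p : ℕ) : ℝ) := by exact_mod_cast p.2.one_lt.le
    rw [hg _ (div_nonneg (Real.log_nonneg hp1) hL.le), ← integral_div]
    refine integral_congr_ae (ae_of_all _ fun u => ?_)
    simp only [hF]
    rw [neg_add, Real.rpow_add hp0, Real.rpow_neg_one, Real.rpow_def_of_pos hp0 (-((y + κ * u) / L))]
    have : Real.log ((p : ℕ) : ℝ) * -((y + κ * u) / L) = -((y + κ * u) * (Real.log (p : ℕ) / L)) := by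
      ring
    rw [this]
    field_simp
  have hFsum : ∀ L : ℝ, 0 < L → Summable fun p => ∫ u, ‖F L p u‖ ∂μ := by
    intro L hL
    refine Summable.of_nonneg_of_le (fun p => integral_nonneg fun u => norm_nonneg _) (fun p => ?_)
      (Ps_summable (s := y / L) (by positivity))
    calc ∫ u, ‖F L p u‖ ∂μ ≤ ∫ u, ω u * ((p : ℕ) : ℝ) ^ (-(1 + y / L)) ∂μ := by
          refine integral_mono_ae (hFint L hL p).norm (hω1.mul_const _) ?_
          filter_upwards [hae] with u hu
          rw [Real.norm_of_nonneg (mul_nonneg (hω0 u hu) (by positivity))]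
          exact mul_le_mul_of_nonneg_left (hpow L hL p u hu.le) (hω0 u hu)
      _ = ((p : ℕ) : ℝ) ^ (-(1 + y / L)) := by
          rw [integral_mul_const, h1, one_mul]
  have hkey : ∀ L : ℝ, 0 < L → HasSum (fun p : Nat.Primes => g (Real.log (p : ℕ) / L) / ((p : ℕ) : ℝ))
      (∫ u, ω u * Ps ((y + κ * u) / L) ∂μ) := by
    intro L hL
    have h2 := hasSum_integral_of_summable_integral_norm (hFint L hL) (hFsum L hL)
    simp only [hFg L hL] at h2
    have h3 : ∀ u, ∑' p, F L p u = ω u * Ps ((y + κ * u) / L) := by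
      intro u
      simp only [hF]
      rw [tsum_mul_left, Ps]
    simp only [h3] at h2
    exact h2
  refine ⟨fun L hL => (hkey L hL).summable, ?_⟩
  obtain ⟨K, hK0, hK⟩ := Ps_bound
  have hpos : ∀ u : ℝ, 0 < u → 0 < y + κ * u := fun u hu => by
    have := mul_nonneg hκ hu.le
    linarith
  have hlogb : ∀ u : ℝ, 0 < u → |Real.log (y + κ * u)| ≤ |Real.log y| + κ / y * u := by
    intro u hu
    have e1 : y + κ * u = y * (1 + κ / y * u) := by field_simp
    have e2 : 0 ≤ κ / y * u := by positivity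
    rw [e1, Real.log_mul hy.ne' (by positivity)]
    refine (abs_add_le _ _).trans ?_
    gcongr
    rw [abs_of_nonneg (Real.log_nonneg (by linarith))]
    have := Real.log_le_sub_one_of_pos (show 0 < 1 + κ / y * u by positivity)
    linarith
  have hboundint : Integrable (fun u => (K + |Real.log y|) * ω u + κ / y * (u * ω u)) μ :=
    (hω1.const_mul _).add (hω2.const_mul _)
  have hlogmeas : AEStronglyMeasurable (fun u => Real.log (y + κ * u)) μ :=
    (Real.measurable_log.comp (by fun_prop : Measurable fun u : ℝ => y + κ * u)).aestronglyMeasurable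
  have hPsmeas : ∀ L : ℝ, 0 < L → AEStronglyMeasurable (fun u => ω u * Ps ((y + κ * u) / L)) μ := by
    intro L hL
    refine aestronglyMeasurable_of_tendsto_ae (atTop : Filter (Finset Nat.Primes))
      (f := fun s u => ∑ p ∈ s, F L p u) (fun s => ?_) ?_
    · exact Finset.aestronglyMeasurable_fun_sum s fun p _ => hFmeas L p
    · filter_upwards [hae] with u hu
      have h2 := (Ps_summable (s := (y + κ * u) / L) (div_pos (hpos u hu) hL)).hasSum.mul_left (ω u)
      exact h2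
  have hdom : Tendsto (fun L : ℝ => ∫ u, ω u * (Ps ((y + κ * u) / L) - Real.log L) ∂μ) atTop
      (𝓝 (∫ u, ω u * (C0 - Real.log (y + κ * u)) ∂μ)) := by
    refine tendsto_integral_filter_of_dominated_convergence
      (fun u => (K + |Real.log y|) * ω u + κ / y * (u * ω u)) ?_ ?_ hboundint ?_
    · filter_upwards [eventually_gt_atTop (0 : ℝ)] with L hL
      have h2 := (hPsmeas L hL).sub (hmeasω.mul_const (Real.log L))
      refine h2.congr (ae_of_all _ fun u => ?_)
      simp only [Pi.sub_apply]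
      ring
    · filter_upwards [eventually_ge_atTop (1 : ℝ)] with L hL
      filter_upwards [hae] with u hu
      rw [norm_mul, Real.norm_of_nonneg (hω0 u hu), Real.norm_eq_abs]
      have h2 := hK (y + κ * u) L (hpos u hu) hL
      have h3 := hlogb u hu
      have h4 := hω0 u hu
      nlinarith
    · filter_upwards [hae] with u hu
      exact (Ps_tendsto (hpos u hu)).const_mul (ω u)
  have hlim : ∫ u, ω u * (C0 - Real.log (y + κ * u)) ∂μ =
      C0 - ∫ u in Set.Ioi (0 : ℝ), ω u * Real.log (y + κ * u) := by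
    have h2 : Integrable (fun u => ω u * Real.log (y + κ * u)) μ := by
      refine Integrable.mono' hboundint (hmeasω.mul hlogmeas) ?_
      filter_upwards [hae] with u hu
      rw [norm_mul, Real.norm_of_nonneg (hω0 u hu), Real.norm_eq_abs]
      have h3 := hlogb u hu
      have h4 := hω0 u hu
      nlinarith
    have h3 : ∀ u, ω u * (C0 - Real.log (y + κ * u)) = C0 * ω u - ω u * Real.log (y + κ * u) := by
      intro u; ring
    simp only [h3]
    rw [integral_sub (hω1.const_mul _) h2, integral_const_mul, h1, mul_one]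
  rw [hlim] at hdom
  refine hdom.congr' ?_
  filter_upwards [eventually_ge_atTop (1 : ℝ)] with L hL
  have hL0 : 0 < L := by linarith
  rw [(hkey L hL0).tsum_eq]
  have h3 : ∀ u, ω u * (Ps ((y + κ * u) / L) - Real.log L) =
      ω u * Ps ((y + κ * u) / L) - ω u * Real.log L := by intro u; ring
  simp only [h3]
  have h4 : Integrable (fun u => ω u * Ps ((y + κ * u) / L)) μ := by
    refine Integrable.mono' (hboundint.add (hω1.mul_const (Real.log L))) (hPsmeas L hL0) ?_
    filter_upwards [hae] with u hu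
    have hP0 := Ps_nonneg ((y + κ * u) / L)
    rw [Real.norm_of_nonneg (mul_nonneg (hω0 u hu) hP0)]
    have h2 := hK (y + κ * u) L (hpos u hu) hL
    have h3 := hlogb u hu
    have h4 := hω0 u hu
    have h5 := le_abs_self (Ps ((y + κ * u) / L) - Real.log L)
    simp only [Pi.add_apply]
    nlinarith
  rw [integral_sub h4 (hω1.mul_const _), integral_mul_const, h1, one_mul]

end Pool.Agent.ZetaMoment
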