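import Pool.Agent.Lib_MP_112ba8.PrimeSums

/-!
Completely multiplicative weights with prescribed profile, and their correlation sums.
-/

namespace Pool.Agent.ZetaMoment

open Finset Filter Topology ArithmeticFunction MeasureTheory

/-- completely multiplicative function with prescribed values at primes -/
noncomputable def cmf (h : ℕ → ℝ) : ArithmeticFunction ℝ :=
  ⟨fun n => if n = 0 then 0 else n.factorization.prod fun p e => h p ^ e, by simp⟩

lemma cmf_one (h : ℕ → ℝ) : cmf h 1 = 1 := by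
  change (if (1 : ℕ) = 0 then (0 : ℝ) else (1 : ℕ).factorization.prod fun p e => h p ^ e) = 1
  simp

lemma cmf_mul (h : ℕ → ℝ) (m n : ℕ) : cmf h (m * n) = cmf h m * cmf h n := by
  by_cases hm : m = 0
  · simp [hm]
  by_cases hn : n = 0
  · simp [hn]
  change (if m * n = 0 then (0 : ℝ) else (m * n).factorization.prod fun p e => h p ^ e) =
    (if m = 0 then (0 : ℝ) else m.factorization.prod fun p e => h p ^ e) *
    (if n = 0 then (0 : ℝ) else n.factorization.prod fun p e => h p ^ e)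
  rw [if_neg (mul_ne_zero hm hn), if_neg hm, if_neg hn, Nat.factorization_mul hm hn,
    Finsupp.prod_add_index' (by simp) (by intro a b c; exact pow_add _ _ _)]

lemma cmf_prime (h : ℕ → ℝ) {p : ℕ} (hp : p.Prime) : cmf h p = h p := by
  change (if p = 0 then (0 : ℝ) else p.factorization.prod fun p e => h p ^ e) = h p
  rw [if_neg hp.ne_zero, hp.factorization, Finsupp.prod_single_index (by simp), pow_one]

lemma cmf_good {h : ℕ → ℝ} (h0 : ∀ p : ℕ, p.Prime → 0 ≤ h p) (h1 : ∀ p : ℕ, p.Prime → h p ≤ 1) :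
    Good (cmf h) := by
  have key : ∀ n : ℕ, 0 ≤ cmf h n ∧ cmf h n ≤ pw 0 n := by
    intro n
    induction n using Nat.recOnMul with
    | zero => simp
    | one => rw [cmf_one, pw_one]; norm_num
    | prime p hp =>
      rw [cmf_prime h hp, pw_apply_of_ne hp.ne_zero]
      simpa using ⟨h0 p hp, h1 p hp⟩
    | mul a b ha hb =>
      by_cases hab : a * b = 0
      · simp [hab]
      have ha0 : a ≠ 0 := left_ne_zero_of_mul hab
      have hb0 : b ≠ 0 := right_ne_zero_of_mul hab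
      rw [cmf_mul, pw_apply_of_ne hab]
      rw [pw_apply_of_ne ha0] at ha
      rw [pw_apply_of_ne hb0] at hb
      simp only [neg_zero, Real.rpow_zero] at ha hb ⊢
      exact ⟨mul_nonneg ha.1 hb.1, mul_le_one₀ ha.2 hb.1 hb.2⟩
  exact ⟨⟨cmf_one h, fun {m n} _ => cmf_mul h m n⟩, fun n => (key n).1, fun n => (key n).2⟩

lemma cmf_twist {h h' : ℕ → ℝ} {θ : ℝ} (hh : ∀ p : ℕ, p.Prime → h' p = (p : ℝ) ^ θ * h p) (n : ℕ) :
    cmf h' n = (n : ℝ) ^ θ * cmf h n := by
  induction n using Nat.recOnMul with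
  | zero => simp
  | one => simp [cmf_one]
  | prime p hp => rw [cmf_prime h hp, cmf_prime h' hp, hh p hp]
  | mul a b ha hb =>
    rw [cmf_mul, cmf_mul, ha, hb]
    push_cast
    rw [Real.mul_rpow (by positivity) (by positivity)]
    ring

lemma cmf_tendsto {h : ℝ → ℕ → ℝ} {l : Filter ℝ}
    (hh : ∀ p : ℕ, p.Prime → Tendsto (fun L => h L p) l (𝓝 1)) (n : ℕ) :
    Tendsto (fun L => cmf (h L) n) l (𝓝 (pw 0 n)) := by
  induction n using Nat.recOnMul with
  | zero => simpa using tendsto_const_nhds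
  | one => simpa [cmf_one, pw_one] using tendsto_const_nhds
  | prime p hp =>
    simp only [cmf_prime _ hp, pw_apply_of_ne hp.ne_zero]
    simpa using hh p hp
  | mul a b ha hb =>
    have e : pw 0 (a * b) = pw 0 a * pw 0 b := by
      by_cases ha0 : a = 0
      · simp [ha0]
      by_cases hb0 : b = 0
      · simp [hb0]
      rw [pw_apply_of_ne (mul_ne_zero ha0 hb0), pw_apply_of_ne ha0, pw_apply_of_ne hb0]
      simp
    simp only [cmf_mul]
    rw [e]
    exact ha.mul hb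

/-- profile `e^{-yx} / (1+κx)^a` -/
noncomputable def prof (κ : ℝ) (a : ℕ) (y x : ℝ) : ℝ := Real.exp (-(y * x)) / (1 + κ * x) ^ a

lemma prof_mul (κ : ℝ) (a b : ℕ) (y z x : ℝ) :
    prof κ a y x * prof κ b z x = prof κ (a + b) (y + z) x := by
  rw [prof, prof, prof, div_mul_div_comm, ← Real.exp_add, pow_add]
  congr 2; ring

lemma prof_nonneg {κ : ℝ} (hκ : 0 ≤ κ) (a : ℕ) (y : ℝ) {x : ℝ} (hx : 0 ≤ x) :
    0 ≤ prof κ a y x := by
  unfold prof; positivity

lemma prof_le_one {κ : ℝ} (hκ : 0 ≤ κ) (a : ℕ) {y : ℝ} (hy : 0 ≤ y) {x : ℝ} (hx : 0 ≤ x) :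
    prof κ a y x ≤ 1 := by
  unfold prof
  have h1 : Real.exp (-(y * x)) ≤ 1 := Real.exp_le_one_iff.mpr (by nlinarith)
  have h2 : (1 : ℝ) ≤ (1 + κ * x) ^ a := one_le_pow₀ (by nlinarith)
  rw [div_le_one (by positivity)]
  linarith

/-- weight function attached to a profile at scale `L` -/
noncomputable def bb (κ : ℝ) (e : ℕ × ℝ) (L : ℝ) : ArithmeticFunction ℝ :=
  cmf fun p => prof κ e.1 e.2 (Real.log p / L)

lemma bb_good {κ : ℝ} (hκ : 0 ≤ κ) {e : ℕ × ℝ} (he : 0 ≤ e.2) {L : ℝ} (hL : 0 < L) :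
    Good (bb κ e L) := by
  have hx : ∀ p : ℕ, 0 ≤ Real.log (p : ℝ) / L := fun p =>
    div_nonneg (Real.log_natCast_nonneg p) hL.le
  exact cmf_good (fun p _ => prof_nonneg hκ _ _ (hx p)) (fun p _ => prof_le_one hκ _ he (hx p))

lemma bb_prime (κ : ℝ) (e : ℕ × ℝ) (L : ℝ) {p : ℕ} (hp : p.Prime) :
    bb κ e L p = prof κ e.1 e.2 (Real.log p / L) := cmf_prime _ hp

lemma bb_tendsto (κ : ℝ) (e : ℕ × ℝ) (n : ℕ) :
    Tendsto (fun L => bb κ e L n) atTop (𝓝 (pw 0 n)) := by
  refine cmf_tendsto (fun p _ => ?_) n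
  have h1 : Tendsto (fun L : ℝ => Real.log p / L) atTop (𝓝 0) :=
    tendsto_const_nhds.div_atTop tendsto_id
  have h2 : ContinuousAt (fun x : ℝ => prof κ e.1 e.2 x) 0 := by
    unfold prof
    refine ContinuousAt.div (by fun_prop) (by fun_prop) ?_
    simp
  have h3 := h2.tendsto.comp h1
  have h4 : prof κ e.1 e.2 0 = 1 := by simp [prof]
  rw [h4] at h3
  exact h3

lemma bb_twist (κ : ℝ) (a : ℕ) (y h : ℝ) (L : ℝ) (n : ℕ) :
    bb κ (a, y - h) L n = (n : ℝ) ^ (h / L) * bb κ (a, y) L n := by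
  refine cmf_twist (fun p hp => ?_) n
  have hp0 : (0 : ℝ) < p := by exact_mod_cast hp.pos
  simp only [prof]
  rw [Real.rpow_def_of_pos hp0, ← mul_div_assoc (Real.exp (Real.log p * (h / L))), ← Real.exp_add]
  congr 2; ring

lemma bb_zero (κ : ℝ) (L : ℝ) : bb κ (0, 0) L = pw 0 := by
  ext n
  have h1 := cmf_tendsto (h := fun _ _ => 1) (l := (atTop : Filter ℝ)) (fun p _ => tendsto_const_nhds) n
  have h2 : bb κ (0, 0) L = cmf fun _ => 1 := by
    unfold bb
    congr 1
    funext p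
    simp [prof]
  rw [h2]
  exact tendsto_nhds_unique tendsto_const_nhds h1

/-- logarithmic constant of a profile -/
noncomputable def el (κ : ℝ) (a : ℕ) (y : ℝ) : ℝ :=
  if a = 0 then - Real.log y else
    - ∫ u in Set.Ioi (0 : ℝ), (u ^ ((a : ℝ) - 1) * Real.exp (-u) / Real.Gamma a) * Real.log (y + κ * u)

lemma prof_prime_tendsto {κ : ℝ} (hκ : 0 ≤ κ) (a : ℕ) {y : ℝ} (hy : 0 < y) :
    (∀ L : ℝ, 0 < L → Summable fun p : Nat.Primes => prof κ a y (Real.log (p : ℕ) / L) / ((p : ℕ) : ℝ)) ∧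
    Tendsto (fun L : ℝ => (∑' p : Nat.Primes, prof κ a y (Real.log (p : ℕ) / L) / ((p : ℕ) : ℝ)) -
      Real.log L) atTop (𝓝 (C0 + el κ a y)) := by
  rcases Nat.eq_zero_or_pos a with ha | ha
  · subst ha
    have e1 : ∀ L : ℝ, ∀ p : Nat.Primes, prof κ 0 y (Real.log (p : ℕ) / L) / ((p : ℕ) : ℝ) =
        ((p : ℕ) : ℝ) ^ (-(1 + y / L)) := by
      intro L p
      have hp0 : (0 : ℝ) < ((p : ℕ) : ℝ) := by exact_mod_cast p.2.pos
      rw [prof, pow_zero, div_one, neg_add, Real.rpow_add hp0, Real.rpow_neg_one,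
        Real.rpow_def_of_pos hp0 (-(y / L))]
      have : Real.log ((p : ℕ) : ℝ) * -(y / L) = -(y * (Real.log (p : ℕ) / L)) := by ring
      rw [this]
      field_simp
    simp only [e1]
    refine ⟨fun L hL => Ps_summable (by positivity), ?_⟩
    have := Ps_tendsto hy
    rw [el, if_pos rfl, ← sub_eq_add_neg]
    exact this
  · have ha' : (0 : ℝ) < a := by exact_mod_cast ha
    have hG : 0 < Real.Gamma a := Real.Gamma_pos_of_pos ha'
    have hi1 : IntegrableOn (fun u : ℝ => u ^ ((a : ℝ) - 1) * Real.exp (-u) / Real.Gamma a) (Set.Ioi 0) := by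
      have : IntegrableOn (fun u : ℝ => Real.exp (-u) * u ^ ((a : ℝ) - 1) / Real.Gamma a) (Set.Ioi 0) :=
        (Real.GammaIntegral_convergent ha').div_const (Real.Gamma a)
      refine this.congr_fun (fun u _ => ?_) measurableSet_Ioi
      ring
    have hi2 : IntegrableOn (fun u : ℝ => u * (u ^ ((a : ℝ) - 1) * Real.exp (-u) / Real.Gamma a))
        (Set.Ioi 0) := by
      have h2 : (0 : ℝ) < (a : ℝ) + 1 := by linarith
      have : IntegrableOn (fun u : ℝ => Real.exp (-u) * u ^ ((a : ℝ) + 1 - 1) / Real.Gamma a) (Set.Ioi 0) :=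
        (Real.GammaIntegral_convergent h2).div_const (Real.Gamma a)
      refine this.congr_fun (fun u hu => ?_) measurableSet_Ioi
      have hu' : (0 : ℝ) < u := hu
      have h3 : u ^ ((a : ℝ) + 1 - 1) = u * u ^ ((a : ℝ) - 1) := by
        rw [show (a : ℝ) + 1 - 1 = 1 + ((a : ℝ) - 1) by ring, Real.rpow_add hu', Real.rpow_one]
      simp only [h3]
      ring
    have hi3 : ∫ u in Set.Ioi (0 : ℝ), (u ^ ((a : ℝ) - 1) * Real.exp (-u) / Real.Gamma a) = 1 := by
      rw [integral_div]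
      have := Real.integral_rpow_mul_exp_neg_mul_Ioi (a := a) (r := 1) ha' one_pos
      simp only [one_mul, div_one, Real.one_rpow] at this
      rw [this]
      exact div_self hG.ne'
    have hg : ∀ x : ℝ, 0 ≤ x → prof κ a y x = ∫ u in Set.Ioi (0 : ℝ),
        (u ^ ((a : ℝ) - 1) * Real.exp (-u) / Real.Gamma a) * Real.exp (-((y + κ * u) * x)) := by
      intro x hx
      have hr : 0 < 1 + κ * x := by positivity
      have h1 := Real.integral_rpow_mul_exp_neg_mul_Ioi (a := a) (r := 1 + κ * x) ha' hr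
      have h2 : ∀ u : ℝ, (u ^ ((a : ℝ) - 1) * Real.exp (-u) / Real.Gamma a) * Real.exp (-((y + κ * u) * x)) =
          (Real.exp (-(y * x)) / Real.Gamma a) * (u ^ ((a : ℝ) - 1) * Real.exp (-((1 + κ * x) * u))) := by
        intro u
        have : Real.exp (-u) * Real.exp (-((y + κ * u) * x)) =
            Real.exp (-(y * x)) * Real.exp (-((1 + κ * x) * u)) := by
          rw [← Real.exp_add, ← Real.exp_add]; congr 1; ring
        calc _ = u ^ ((a : ℝ) - 1) * (Real.exp (-u) * Real.exp (-((y + κ * u) * x))) / Real.Gamma a := by ring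
          _ = _ := by rw [this]; ring
      simp only [h2]
      rw [integral_const_mul, h1, prof, one_div, Real.inv_rpow hr.le, Real.rpow_natCast]
      field_simp
    have := prime_int (y := y) (κ := κ) (g := prof κ a y)
      (fun u hu => by
        have hu' : (0 : ℝ) < u := hu
        positivity) hi1 hi2 hi3 hy hκ hg
    refine ⟨this.1, ?_⟩
    rw [el, if_neg ha.ne', ← sub_eq_add_neg]
    exact this.2

variable {ι : Type} [Fintype ι]

/-- family of weight functions -/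
noncomputable def fam (κ : ℝ) (E : ι → ℕ × ℝ) (L : ℝ) : ι → ArithmeticFunction ℝ :=
  fun i => bb κ (E i) L

omit [Fintype ι] in
lemma fam_good {κ : ℝ} (hκ : 0 ≤ κ) {E : ι → ℕ × ℝ} (hE : ∀ i, 0 ≤ (E i).2) {L : ℝ} (hL : 0 < L) (i : ι) :
    Good (fam κ E L i) := bb_good hκ (hE i) hL

omit [Fintype ι] in
lemma fam_pair (κ : ℝ) (E F : ι → ℕ × ℝ) (L : ℝ) (i j : ι) (p : Nat.Primes) :
    fam κ E L i p * fam κ F L j p / ((p : ℕ) : ℝ) =
      prof κ ((E i).1 + (F j).1) ((E i).2 + (F j).2) (Real.log (p : ℕ) / L) / ((p : ℕ) : ℝ) := by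
  rw [fam, fam, bb_prime _ _ _ p.2, bb_prime _ _ _ p.2, prof_mul]

lemma fam_psum {κ : ℝ} (hκ : 0 ≤ κ) {E F : ι → ℕ × ℝ} (hEF : ∀ i j, 0 < (E i).2 + (F j).2)
    {L : ℝ} (hL : 0 < L) : PSum (fam κ E L) (fam κ F L) := by
  intro i j
  simp only [fam_pair]
  exact (prof_prime_tendsto hκ _ (hEF i j)).1 L hL

/-- Limit of the correlation sums. -/
theorem fam_tendsto {κ : ℝ} (hκ : 0 ≤ κ) {E F : ι → ℕ × ℝ} (hE : ∀ i, 0 ≤ (E i).2)
    (hF : ∀ i, 0 ≤ (F i).2) (hEF : ∀ i j, 0 < (E i).2 + (F j).2) :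
    Tendsto (fun L : ℝ => FG (fam κ E L) (fam κ F L) / L ^ (Fintype.card ι * Fintype.card ι)) atTop
      (𝓝 (aG ι * Real.exp (∑ q : ι × ι, el κ ((E q.1).1 + (F q.2).1) ((E q.1).2 + (F q.2).2)))) := by
  refine FG_tendsto (f := fam κ E) (g := fam κ F)
    (ℓ := fun i j => el κ ((E i).1 + (F j).1) ((E i).2 + (F j).2)) ?_ ?_ ?_ ?_ ?_ ?_
  · filter_upwards [eventually_gt_atTop (0 : ℝ)] with L hL i using fam_good hκ hE hL i
  · filter_upwards [eventually_gt_atTop (0 : ℝ)] with L hL i using fam_good hκ hF hL i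
  · exact fun i n => bb_tendsto κ (E i) n
  · exact fun i n => bb_tendsto κ (F i) n
  · filter_upwards [eventually_gt_atTop (0 : ℝ)] with L hL using fam_psum hκ hEF hL
  · intro i j
    simp only [fam_pair]
    exact (prof_prime_tendsto hκ _ (hEF i j)).2

end Pool.Agent.ZetaMoment
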