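import Pool.Agent.Lib_MP_112ba8.Profile
import Pool.Agent.Lib_MP_112ba8.Main

/-!
Rankin-type bounds for the diagonal sums, general weights.
-/

namespace Pool.Agent.ZetaMoment

open Finset Filter Topology MeasureTheory ArithmeticFunction

lemma rankinG_lower {ι : Type} [Fintype ι] {f g g' : ι → ArithmeticFunction ℝ} {θ Xr : ℝ} {X : ℕ}
    (hf : ∀ i, Good (f i)) (hg : ∀ i, Good (g i)) (hg' : ∀ i, Good (g' i))
    (hs : PSum f g) (hs' : PSum f g') (htw : ∀ i n, g' i n = (n : ℝ) ^ θ * g i n) (hθ : 0 ≤ θ)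
    (hXr : 0 < Xr) (hX : ∀ n : ℕ, X < n → Xr ≤ n) :
    FG f g - Xr ^ (-θ) * FG f g' ≤ ∑ n ∈ Icc 1 X, tG f g n := by
  have hs1 : Summable (tG f g) := tG_summable hf hg hs
  have hs2 : Summable (tG f g') := tG_summable hf hg' hs'
  have e1 : FG f g - Xr ^ (-θ) * FG f g' = ∑' n : ℕ, (tG f g n - Xr ^ (-θ) * tG f g' n) := by
    rw [hs1.tsum_sub (hs2.mul_left _), tsum_mul_left]
    rfl
  have hs3 : Summable fun n : ℕ => if n ∈ Icc 1 X then tG f g n else 0 :=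
    summable_of_ne_finset_zero (s := Icc 1 X) fun n hn => if_neg hn
  have e2 : ∑' n : ℕ, (if n ∈ Icc 1 X then tG f g n else 0) = ∑ n ∈ Icc 1 X, tG f g n := by
    rw [tsum_eq_sum (s := Icc 1 X) (fun n hn => if_neg hn)]
    exact Finset.sum_congr rfl fun n hn => if_pos hn
  rw [e1, ← e2]
  refine Summable.tsum_le_tsum (fun n => ?_) (hs1.sub (hs2.mul_left _)) hs3
  have hpos : 0 ≤ Xr ^ (-θ) * tG f g' n := mul_nonneg (by positivity) (tG_nonneg hf hg' _)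
  by_cases hn : n ∈ Icc 1 X
  · rw [if_pos hn]; linarith
  · rw [if_neg hn]
    rcases Nat.eq_zero_or_pos n with h0 | h0
    · simp [h0, tG_zero]
    · have hXn : X < n := by
        simp only [Finset.mem_Icc, not_and, not_le] at hn
        exact hn h0
      have h1 := hX n hXn
      have h2 : tG f g' n = (n : ℝ) ^ θ * tG f g n := by
        have : pr g' n = (n : ℝ) ^ θ * pr g n := prod_twist _ θ htw n
        rw [tG, tG, this]; ring
      have h3 : 1 ≤ Xr ^ (-θ) * (n : ℝ) ^ θ := by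
        rw [Real.rpow_neg hXr.le]
        have : Xr ^ θ ≤ (n : ℝ) ^ θ := Real.rpow_le_rpow hXr.le h1 hθ
        have hXθ : 0 < Xr ^ θ := by positivity
        rw [inv_mul_eq_div, one_le_div hXθ]
        exact this
      rw [h2, ← mul_assoc]
      nlinarith [tG_nonneg hf hg n]

lemma rankinG_upper {ι : Type} [Fintype ι] {f g : ι → ArithmeticFunction ℝ}
    (hf : ∀ i, Good (f i)) (hg : ∀ i, Good (g i)) (hs : PSum f g) (X : ℕ) :
    ∑ n ∈ Icc 1 X, tG f g n ≤ FG f g :=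
  (tG_summable hf hg hs).sum_le_tsum _ fun n _ => tG_nonneg hf hg n

lemma truncG_err {b bθ : ArithmeticFunction ℝ} {θ Nr : ℝ} {N : ℕ} (hb : ∀ n, 0 ≤ b n)
    (htw : ∀ n, bθ n = (n : ℝ) ^ θ * b n) (hθ : 0 ≤ θ) (hNr : 0 < Nr)
    (hN : ∀ n : ℕ, N < n → Nr ≤ n) (n : ℕ) : b n - tr N b n ≤ Nr ^ (-θ) * bθ n := by
  have hpos : 0 ≤ Nr ^ (-θ) * bθ n := by
    rw [htw]
    have := hb n
    positivity
  rw [tr_apply]
  by_cases h : n ≤ N
  · rw [if_pos h, sub_self]; exact hpos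
  · rw [if_neg h, sub_zero, htw]
    have h1 := hN n (by omega)
    have h3 : 1 ≤ Nr ^ (-θ) * (n : ℝ) ^ θ := by
      rw [Real.rpow_neg hNr.le]
      have : Nr ^ θ ≤ (n : ℝ) ^ θ := Real.rpow_le_rpow hNr.le h1 hθ
      have hXθ : 0 < Nr ^ θ := by positivity
      rw [inv_mul_eq_div, one_le_div hXθ]
      exact this
    rw [← mul_assoc]
    nlinarith [hb n]

/-- exponents of `ζ B^{k-1}` -/
def E0 (m : ℕ) (y : ℝ) : Fin (m + 2) → ℕ × ℝ := Fin.cons (0, 0) (fun _ => (1, y))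

/-- exponents with one twisted factor -/
def E1 (m : ℕ) (y z : ℝ) : Fin (m + 2) → ℕ × ℝ := Fin.cons (0, 0) (Fin.cons (1, z) (fun _ => (1, y)))

/-- exponents of the dual polynomial -/
def EY (m : ℕ) (ν y : ℝ) : Fin (m + 2) → ℕ × ℝ := Fin.cons (0, ν) (fun _ => (1, y))

/-- exponents of `B^k` -/
def EV (m : ℕ) (y : ℝ) : Fin (m + 2) → ℕ × ℝ := fun _ => (1, y)

lemma E0_forall {m : ℕ} {y : ℝ} {P : ℕ × ℝ → Prop} (h0 : P (0, 0)) (h1 : P (1, y)) (i : Fin (m + 2)) :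
    P (E0 m y i) := by
  refine Fin.cases ?_ (fun i => ?_) i
  · simpa [E0] using h0
  · simpa [E0] using h1

lemma E1_forall {m : ℕ} {y z : ℝ} {P : ℕ × ℝ → Prop} (h0 : P (0, 0)) (h1 : P (1, y)) (h2 : P (1, z))
    (i : Fin (m + 2)) : P (E1 m y z i) := by
  refine Fin.cases ?_ (fun i => Fin.cases ?_ (fun i => ?_) i) i
  · simpa [E1] using h0
  · simpa [E1] using h2
  · simpa [E1] using h1

lemma EY_forall {m : ℕ} {ν y : ℝ} {P : ℕ × ℝ → Prop} (h0 : P (0, ν)) (h1 : P (1, y)) (i : Fin (m + 2)) :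
    P (EY m ν y i) := by
  refine Fin.cases ?_ (fun i => ?_) i
  · simpa [EY] using h0
  · simpa [EY] using h1

lemma pr_fam_E0 (m : ℕ) (κ y L : ℝ) : pr (fam κ (E0 m y) L) = pw 0 * (bb κ (1, y) L) ^ (m + 1) := by
  simp [pr, fam, E0, Fin.prod_univ_succ, bb_zero]

lemma pr_fam_E1 (m : ℕ) (κ y z L : ℝ) :
    pr (fam κ (E1 m y z) L) = pw 0 * (bb κ (1, z) L * (bb κ (1, y) L) ^ m) := by
  simp [pr, fam, E1, Fin.prod_univ_succ, bb_zero]

lemma pr_fam_EV (m : ℕ) (κ y L : ℝ) : pr (fam κ (EV m y) L) = (bb κ (1, y) L) ^ (m + 2) := by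
  simp [pr, fam, EV]

/-- coefficients of the truncated product from below -/
lemma coefG_lower {m : ℕ} {κ y h L Nr : ℝ} {N M : ℕ} (hκ : 0 ≤ κ) (hL : 0 < L) (hy : 0 ≤ y)
    (hh : 0 ≤ h) (hNr : 0 < Nr) (hN : ∀ n : ℕ, N < n → Nr ≤ n) {n : ℕ} (hn : n ≤ M) :
    pr (fam κ (E0 m y) L) n - (m + 1) * Nr ^ (-(h / L)) * pr (fam κ (E1 m y (y - h)) L) n ≤
      (tr M (pw 0) * (tr N (bb κ (1, y) L)) ^ (m + 1)) n := by
  set a := bb κ (1, y) L with ha
  have hag : Good a := bb_good hκ hy hL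
  set g : ArithmeticFunction ℝ := ⟨fun n => Nr ^ (-(h / L)) * bb κ (1, y - h) L n, by simp⟩ with hgdef
  have hb : ∀ n, 0 ≤ tr N a n := fun n => tr_nonneg hag.nonneg n
  have hba : ∀ n, tr N a n ≤ a n := fun n => tr_le hag.nonneg n
  have hg : ∀ n, a n - tr N a n ≤ g n := fun n =>
    truncG_err hag.nonneg (fun n => bb_twist κ 1 y h L n) (by positivity) hNr hN n
  have key := pow_sub_pow_le hb hba hg m
  have e1 : (tr M (pw 0) * (tr N a) ^ (m + 1)) n = (pw 0 * (tr N a) ^ (m + 1)) n := by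
    rw [ArithmeticFunction.mul_apply, ArithmeticFunction.mul_apply]
    refine Finset.sum_congr rfl fun p hp => ?_
    have hp' := Nat.mem_divisorsAntidiagonal.mp hp
    have hle : p.1 ≤ M := (Nat.le_of_dvd (Nat.pos_of_ne_zero hp'.2) ⟨p.2, hp'.1.symm⟩).trans hn
    rw [tr_apply, if_pos hle]
  have e2 : Nr ^ (-(h / L)) * pr (fam κ (E1 m y (y - h)) L) n = (pw 0 * (a ^ m * g)) n := by
    have hmg : a ^ m * g = ⟨fun n => Nr ^ (-(h / L)) * (a ^ m * bb κ (1, y - h) L) n, by simp⟩ := by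
      ext n
      rw [ArithmeticFunction.mul_apply]
      change _ = Nr ^ (-(h / L)) * (a ^ m * bb κ (1, y - h) L) n
      rw [ArithmeticFunction.mul_apply, Finset.mul_sum]
      refine Finset.sum_congr rfl fun p _ => ?_
      change _ * (Nr ^ (-(h / L)) * bb κ (1, y - h) L p.2) = _
      ring
    rw [pr_fam_E1, hmg, ArithmeticFunction.mul_apply, ArithmeticFunction.mul_apply, Finset.mul_sum]
    refine Finset.sum_congr rfl fun p _ => ?_
    change _ = pw 0 p.1 * (Nr ^ (-(h / L)) * (a ^ m * bb κ (1, y - h) L) p.2)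
    rw [mul_comm (bb κ (1, y - h) L) (a ^ m)]
    ring
  rw [mul_assoc, e2, e1, pr_fam_E0, ArithmeticFunction.mul_apply, ArithmeticFunction.mul_apply,
    ArithmeticFunction.mul_apply, Finset.mul_sum, ← Finset.sum_sub_distrib]
  refine Finset.sum_le_sum fun p _ => ?_
  have h1 := key p.2
  have h2 := pw_nonneg 0 p.1
  nlinarith

/-- lower bound for the mixed diagonal sum -/
lemma numG_lower {m : ℕ} {κ y ν h h₂ L Nr Xr : ℝ} {N M X : ℕ} (hκ : 0 ≤ κ) (hL : 0 < L)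
    (hy : 0 < y) (hν : 0 < ν) (hh : 0 ≤ h) (hhy : h ≤ y) (hh₂ : 0 ≤ h₂) (hh₂ν : h₂ < ν)
    (hh₂y : h₂ < y) (hNr : 0 < Nr) (hN : ∀ n : ℕ, N < n → Nr ≤ n) (hXr : 0 < Xr)
    (hX : ∀ n : ℕ, X < n → Xr ≤ n) (hXM : X ≤ M) :
    FG (fam κ (E0 m y) L) (fam κ (EY m ν y) L) -
      Xr ^ (-(h₂ / L)) * FG (fam κ (E0 m y) L) (fam κ (EY m (ν - h₂) (y - h₂)) L) -
      (m + 1) * Nr ^ (-(h / L)) * FG (fam κ (E1 m y (y - h)) L) (fam κ (EY m ν y) L) ≤
      ∑ n ∈ Icc 1 X, (tr M (pw 0) * (tr N (bb κ (1, y) L)) ^ (m + 1)) n *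
        pr (fam κ (EY m ν y) L) n / n := by
  have p0 : ∀ i, 0 ≤ (E0 m y i).2 := E0_forall (P := fun e => 0 ≤ e.2) le_rfl hy.le
  have p1 : ∀ i, 0 ≤ (E1 m y (y - h) i).2 :=
    E1_forall (P := fun e => 0 ≤ e.2) le_rfl hy.le (sub_nonneg.mpr hhy)
  have pY : ∀ i, 0 < (EY m ν y i).2 := EY_forall (P := fun e => 0 < e.2) hν hy
  have pY2 : ∀ i, 0 < (EY m (ν - h₂) (y - h₂) i).2 :=
    EY_forall (P := fun e => 0 < e.2) (sub_pos.mpr hh₂ν) (sub_pos.mpr hh₂y)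
  have g0 := fam_good hκ p0 hL
  have g1 := fam_good hκ p1 hL
  have gY := fam_good hκ (fun i => (pY i).le) hL
  have gY2 := fam_good hκ (fun i => (pY2 i).le) hL
  have s0 : PSum (fam κ (E0 m y) L) (fam κ (EY m ν y) L) :=
    fam_psum hκ (fun i j => by linarith [p0 i, pY j]) hL
  have s02 : PSum (fam κ (E0 m y) L) (fam κ (EY m (ν - h₂) (y - h₂)) L) :=
    fam_psum hκ (fun i j => by linarith [p0 i, pY2 j]) hL
  have s1 : PSum (fam κ (E1 m y (y - h)) L) (fam κ (EY m ν y) L) :=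
    fam_psum hκ (fun i j => by linarith [p1 i, pY j]) hL
  have htw : ∀ i n, fam κ (EY m (ν - h₂) (y - h₂)) L i n = (n : ℝ) ^ (h₂ / L) * fam κ (EY m ν y) L i n := by
    intro i n
    refine Fin.cases ?_ (fun i => ?_) i
    · simpa [fam, EY] using bb_twist κ 0 ν h₂ L n
    · simpa [fam, EY] using bb_twist κ 1 y h₂ L n
  have h1 := rankinG_lower g0 gY gY2 s0 s02 htw (by positivity) hXr hX
  have h2 := rankinG_upper g1 gY s1 X
  have h3 : ∑ n ∈ Icc 1 X, tG (fam κ (E0 m y) L) (fam κ (EY m ν y) L) n -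
      (m + 1) * Nr ^ (-(h / L)) * ∑ n ∈ Icc 1 X, tG (fam κ (E1 m y (y - h)) L) (fam κ (EY m ν y) L) n ≤
      ∑ n ∈ Icc 1 X, (tr M (pw 0) * (tr N (bb κ (1, y) L)) ^ (m + 1)) n *
        pr (fam κ (EY m ν y) L) n / n := by
    rw [Finset.mul_sum, ← Finset.sum_sub_distrib]
    refine Finset.sum_le_sum fun n hn => ?_
    have hn' := Finset.mem_Icc.mp hn
    have h4 := coefG_lower (m := m) (κ := κ) (y := y) (h := h) (L := L) (M := M) hκ hL hy.le hh hNr hN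
      (hn'.2.trans hXM)
    have h5 : 0 ≤ pr (fam κ (EY m ν y) L) n / n := div_nonneg (pr_nonneg gY _) (by positivity)
    have h6 := mul_le_mul_of_nonneg_right h4 h5
    calc tG (fam κ (E0 m y) L) (fam κ (EY m ν y) L) n -
          (m + 1) * Nr ^ (-(h / L)) * tG (fam κ (E1 m y (y - h)) L) (fam κ (EY m ν y) L) n
        = (pr (fam κ (E0 m y) L) n - (m + 1) * Nr ^ (-(h / L)) * pr (fam κ (E1 m y (y - h)) L) n) *
          (pr (fam κ (EY m ν y) L) n / n) := by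
          rw [tG, tG]; ring
      _ ≤ _ := h6
      _ = _ := by ring
  have h7 : 0 ≤ ((m : ℝ) + 1) * Nr ^ (-(h / L)) := by positivity
  have h8 := mul_le_mul_of_nonneg_left h2 h7
  linarith

end Pool.Agent.ZetaMoment
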