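import Mathlib

/-!
Shifted divisor functions and their Dirichlet series.
-/

namespace Pool.Agent.ZetaMoment

open Finset Filter Topology ArithmeticFunction

/-- The arithmetic function `n ↦ n ^ (-x)` (with value `0` at `0`). -/
noncomputable def pw (x : ℝ) : ArithmeticFunction ℝ :=
  ⟨fun n => if n = 0 then 0 else (n : ℝ) ^ (-x), by simp⟩

/-- Shifted divisor function: the Dirichlet convolution of the functions `n ↦ n ^ (-x i)`. -/
noncomputable def sg {ι : Type} [Fintype ι] (x : ι → ℝ) : ArithmeticFunction ℝ :=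
  ∏ i, pw (x i)

lemma pw_apply (x : ℝ) (n : ℕ) : pw x n = if n = 0 then 0 else (n : ℝ) ^ (-x) := rfl

lemma pw_apply_of_ne {n : ℕ} (hn : n ≠ 0) (x : ℝ) : pw x n = (n : ℝ) ^ (-x) := by
  rw [pw_apply, if_neg hn]

lemma pw_nonneg (x : ℝ) (n : ℕ) : 0 ≤ pw x n := by
  rw [pw_apply]; split_ifs
  · exact le_rfl
  · positivity

lemma pw_one (x : ℝ) : pw x 1 = 1 := by simp [pw_apply]

lemma pw_mult (x : ℝ) : (pw x).IsMultiplicative := by
  refine ⟨pw_one x, ?_⟩
  intro m n _
  by_cases hm : m = 0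
  · simp [hm, pw_apply]
  by_cases hn : n = 0
  · simp [hn, pw_apply]
  rw [pw_apply_of_ne (mul_ne_zero hm hn), pw_apply_of_ne hm, pw_apply_of_ne hn]
  push_cast
  rw [Real.mul_rpow (by positivity) (by positivity)]

lemma pw_anti {x y : ℝ} (h : x ≤ y) (n : ℕ) : pw y n ≤ pw x n := by
  by_cases hn : n = 0
  · simp [hn]
  rw [pw_apply_of_ne hn, pw_apply_of_ne hn]
  apply Real.rpow_le_rpow_of_exponent_le
  · exact_mod_cast Nat.one_le_iff_ne_zero.mpr hn
  · linarith

lemma mul_nonneg' {f g : ArithmeticFunction ℝ} (hf : ∀ n, 0 ≤ f n) (hg : ∀ n, 0 ≤ g n) (n : ℕ) :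
    0 ≤ (f * g) n := by
  rw [ArithmeticFunction.mul_apply]
  exact Finset.sum_nonneg fun p _ => mul_nonneg (hf _) (hg _)

lemma mul_le_mul' {f g f' g' : ArithmeticFunction ℝ} (hf : ∀ n, 0 ≤ f n) (hg' : ∀ n, 0 ≤ g n)
    (h1 : ∀ n, f n ≤ f' n) (h2 : ∀ n, g n ≤ g' n) (n : ℕ) :
    (f * g) n ≤ (f' * g') n := by
  rw [ArithmeticFunction.mul_apply, ArithmeticFunction.mul_apply]
  exact Finset.sum_le_sum fun p _ => mul_le_mul (h1 _) (h2 _) (hg' _) ((hf _).trans (h1 _))

lemma prod_nonneg' {ι : Type} (s : Finset ι) {f : ι → ArithmeticFunction ℝ}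
    (hf : ∀ i n, 0 ≤ f i n) (n : ℕ) : 0 ≤ (∏ i ∈ s, f i) n := by
  classical
  induction s using Finset.induction_on generalizing n with
  | empty =>
    simp only [Finset.prod_empty, ArithmeticFunction.one_apply]
    split_ifs <;> norm_num
  | insert a s ha ih =>
    rw [Finset.prod_insert ha]
    exact mul_nonneg' (hf a) ih n

lemma prod_le_prod' {ι : Type} (s : Finset ι) {f g : ι → ArithmeticFunction ℝ}
    (hf : ∀ i n, 0 ≤ f i n) (h : ∀ i n, f i n ≤ g i n) (n : ℕ) :
    (∏ i ∈ s, f i) n ≤ (∏ i ∈ s, g i) n := by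
  classical
  induction s using Finset.induction_on generalizing n with
  | empty => simp
  | insert a s ha ih =>
    rw [Finset.prod_insert ha, Finset.prod_insert ha]
    exact mul_le_mul' (hf a) (prod_nonneg' s hf) (h a) ih n

variable {ι : Type} [Fintype ι]

lemma sg_nonneg (x : ι → ℝ) (n : ℕ) : 0 ≤ sg x n :=
  prod_nonneg' _ (fun i n => pw_nonneg (x i) n) n

lemma sg_anti {x y : ι → ℝ} (h : ∀ i, x i ≤ y i) (n : ℕ) : sg y n ≤ sg x n :=
  prod_le_prod' _ (fun i n => pw_nonneg (y i) n) (fun i n => pw_anti (h i) n) n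

lemma prod_mult {ι : Type} (s : Finset ι) {f : ι → ArithmeticFunction ℝ}
    (hf : ∀ i, (f i).IsMultiplicative) : (∏ i ∈ s, f i).IsMultiplicative := by
  classical
  induction s using Finset.induction_on with
  | empty => simp
  | insert a s ha ih =>
    rw [Finset.prod_insert ha]
    exact (hf a).mul ih

lemma sg_mult (x : ι → ℝ) : (sg x).IsMultiplicative :=
  prod_mult _ (fun i => pw_mult (x i))

/-- value of a convolution at a prime power -/
lemma mul_apply_prime_pow {f g : ArithmeticFunction ℝ} {p : ℕ} (hp : p.Prime) (e : ℕ) :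
    (f * g) (p ^ e) = ∑ i ∈ range (e + 1), f (p ^ i) * g (p ^ (e - i)) := by
  rw [ArithmeticFunction.mul_apply, Nat.sum_divisorsAntidiagonal (fun a b => f a * g b),
    Nat.sum_divisors_prime_pow hp]
  refine Finset.sum_congr rfl fun i hi => ?_
  rw [Nat.pow_div (Nat.lt_succ_iff.mp (Finset.mem_range.mp hi)) hp.pos]

lemma mul_apply_prime {f g : ArithmeticFunction ℝ} (hf : f 1 = 1) (hg : g 1 = 1) {p : ℕ}
    (hp : p.Prime) : (f * g) p = f p + g p := by
  have := mul_apply_prime_pow (f := f) (g := g) hp 1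
  rw [pow_one] at this
  rw [this]
  simp [Finset.sum_range_succ, hf, hg]
  ring

lemma prod_apply_prime {ι : Type} (s : Finset ι) {f : ι → ArithmeticFunction ℝ}
    (hf : ∀ i, (f i).IsMultiplicative) {p : ℕ} (hp : p.Prime) :
    (∏ i ∈ s, f i) p = ∑ i ∈ s, f i p := by
  classical
  induction s using Finset.induction_on with
  | empty => simp [ArithmeticFunction.one_apply, hp.one_lt.ne']
  | insert a s ha ih =>
    rw [Finset.prod_insert ha, Finset.sum_insert ha, mul_apply_prime (hf a).1 (prod_mult s hf).1 hp, ih]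

lemma sg_apply_prime (x : ι → ℝ) {p : ℕ} (hp : p.Prime) :
    sg x p = ∑ i, (p : ℝ) ^ (-(x i)) := by
  rw [sg, prod_apply_prime _ (fun i => pw_mult (x i)) hp]
  exact Finset.sum_congr rfl fun i _ => pw_apply_of_ne hp.ne_zero _

lemma hockey (k e : ℕ) : ∑ b ∈ range (e + 1), (b + k - 1).choose b = (e + k).choose e := by
  induction e with
  | zero => simp
  | succ e ih =>
    rw [Finset.sum_range_succ, ih, show e + 1 + k - 1 = e + k by omega,
      show e + 1 + k = (e + k) + 1 by ring, Nat.choose_succ_succ]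

lemma pw_zero_pow_apply (k : ℕ) {p : ℕ} (hp : p.Prime) (e : ℕ) :
    ((pw 0) ^ k) (p ^ e) = ((e + k - 1).choose e : ℝ) := by
  induction k generalizing e with
  | zero =>
    rcases Nat.eq_zero_or_pos e with he | he
    · simp [he, ArithmeticFunction.one_apply]
    · have h1 : p ^ e ≠ 1 := (Nat.one_lt_pow he.ne' hp.one_lt).ne'
      rw [pow_zero, ArithmeticFunction.one_apply, if_neg h1, add_zero,
        Nat.choose_eq_zero_of_lt (by omega)]
      simp
  | succ k ih =>
    rw [pow_succ, mul_apply_prime_pow hp]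
    have h0 : ∀ m, pw 0 (p ^ m) = 1 := by
      intro m
      rw [pw_apply_of_ne (pow_ne_zero _ hp.ne_zero)]
      simp
    simp only [h0, mul_one, ih]
    rw [show e + (k + 1) - 1 = e + k by omega, ← hockey k e]
    push_cast
    rfl

lemma sg_zero_apply {p : ℕ} (hp : p.Prime) (e : ℕ) :
    sg (fun _ : ι => (0 : ℝ)) (p ^ e) = ((e + Fintype.card ι - 1).choose e : ℝ) := by
  rw [sg, Finset.prod_const, Finset.card_univ, pw_zero_pow_apply _ hp]

lemma sg_prime_pow_le {x : ι → ℝ} (hx : ∀ i, 0 ≤ x i) {p : ℕ} (hp : p.Prime) (e : ℕ) :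
    sg x (p ^ e) ≤ ((e + Fintype.card ι - 1).choose e : ℝ) := by
  rw [← sg_zero_apply hp e]
  exact sg_anti hx _

lemma prod_continuous {ι : Type} (s : Finset ι) (n : ℕ) :
    Continuous fun x : ι → ℝ => (∏ i ∈ s, pw (x i)) n := by
  classical
  induction s using Finset.induction_on generalizing n with
  | empty => simpa using continuous_const
  | insert a s ha ih =>
    simp only [Finset.prod_insert ha, ArithmeticFunction.mul_apply]
    refine continuous_finset_sum _ fun q _ => ?_
    refine Continuous.mul ?_ (ih q.2)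
    by_cases hq : q.1 = 0
    · simp only [hq, ArithmeticFunction.map_zero]; exact continuous_const
    · simp only [pw_apply_of_ne hq]
      have h0 : (q.1 : ℝ) ≠ 0 := by exact_mod_cast hq
      exact Continuous.rpow continuous_const (by fun_prop) (fun x => Or.inl h0)

lemma sg_continuous (n : ℕ) : Continuous fun x : ι → ℝ => sg x n :=
  prod_continuous _ n

/-- twisting by `n ^ θ` -/
lemma prod_twist {ι : Type} (s : Finset ι) {f g : ι → ArithmeticFunction ℝ} (θ : ℝ)
    (h : ∀ i n, g i n = (n : ℝ) ^ θ * f i n) (n : ℕ) :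
    (∏ i ∈ s, g i) n = (n : ℝ) ^ θ * (∏ i ∈ s, f i) n := by
  classical
  induction s using Finset.induction_on generalizing n with
  | empty =>
    simp only [Finset.prod_empty, ArithmeticFunction.one_apply]
    split_ifs with hn
    · simp [hn]
    · simp
  | insert a s ha ih =>
    rw [Finset.prod_insert ha, Finset.prod_insert ha, ArithmeticFunction.mul_apply,
      ArithmeticFunction.mul_apply, Finset.mul_sum]
    refine Finset.sum_congr rfl fun q hq => ?_
    rw [h, ih, ← (Nat.mem_divisorsAntidiagonal.mp hq).1]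
    push_cast
    rw [Real.mul_rpow (by positivity) (by positivity)]
    ring

lemma sg_twist (x : ι → ℝ) (θ : ℝ) {n : ℕ} :
    sg (fun i => x i - θ) n = (n : ℝ) ^ θ * sg x n := by
  refine prod_twist _ θ (fun i n => ?_) n
  by_cases hn : n = 0
  · simp [hn]
  have hn' : (0 : ℝ) < n := by positivity
  rw [pw_apply_of_ne hn, pw_apply_of_ne hn, ← Real.rpow_add hn']
  congr 1; ring

end Pool.Agent.ZetaMoment
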